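import Pool.Agent.Helper640.PDS.Defs

/-!
# Proportionally dense subgraphs of complements of sparse graphs are complements of dominating sets
-/

namespace Pool.Agent.H640.PDS

open Pool.Agent.NPC Pool.Agent.H692R2

variable {C : Type} [DecidableEq C]

/-- the complementary relation -/
def coR (h : C → C → Bool) (v w : C) : Bool := !(h v w || h w v)

omit [DecidableEq C] in
theorem adj_coR {h : C → C → Bool} {v w : C} :
    Adj' (coR h) v w ↔ v ≠ w ∧ ¬ (h v w = true ∨ h w v = true) := by
  unfold Adj' coR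
  cases h v w <;> cases h w v <;> simp

omit [DecidableEq C] in
theorem adj_coR' {h : C → C → Bool} {v w : C} (hvw : v ≠ w) :
    Adj' (coR h) v w ↔ ¬ Adj' h v w := by
  rw [adj_coR]
  unfold Adj'
  simp [hvw]

omit [DecidableEq C] in
theorem compl_cgraph (L : List C) (h : C → C → Bool) :
    (cgraph L (coR h))ᶜ = cgraph L h := by
  ext i j
  rw [SimpleGraph.compl_adj]
  have key : ∀ x y : Bool, (i ≠ j ∧ ¬ (i ≠ j ∧ ((!(x || y)) = true ∨ (!(y || x)) = true))) ↔
      (i ≠ j ∧ (x = true ∨ y = true)) := by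
    intro x y
    by_cases hij : i = j
    · simp [hij]
    · cases x <;> cases y <;> simp [hij]
  exact key _ _

omit [DecidableEq C] in
open Classical in
theorem card_out {D : Finset C} {h : C → C → Bool} {v : C} (hv : v ∉ D) :
    (D.filter (Adj' (coR h) v)).card + (D.filter (Adj' h v)).card = D.card := by
  have h1 : D.filter (Adj' (coR h) v) = D.filter (fun w => ¬ Adj' h v w) := by
    refine Finset.filter_congr fun w hw => ?_
    exact adj_coR' (fun hvw => hv (hvw ▸ hw))
  rw [h1, add_comm]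
  exact Finset.card_filter_add_card_filter_not _

open Classical in
theorem card_in {T : Finset C} {h : C → C → Bool} {v : C} (hv : v ∈ T) :
    (T.filter (Adj' (coR h) v)).card + (T.filter (Adj' h v)).card + 1 = T.card := by
  have h1 := card_out (D := T.erase v) (h := h) (v := v) (by simp)
  have h2 : ∀ A : C → C → Bool, (T.erase v).filter (Adj' A v) = T.filter (Adj' A v) := by
    intro A
    ext w
    simp only [Finset.mem_filter, Finset.mem_erase]
    constructor
    · rintro ⟨⟨_, h3⟩, h4⟩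
      exact ⟨h3, h4⟩
    · rintro ⟨h3, h4⟩
      exact ⟨⟨h4.1.symm, h3⟩, h4⟩
  rw [h2, h2] at h1
  rw [h1, Finset.card_erase_add_one hv]

theorem ineq_co {a b c s a' b' : ℕ} (h1 : b' + b = c) (h2 : a' + a + 1 = s) (hc : 1 ≤ c)
    (h : a * c ≤ s - 1) : b' * (s - 1) ≤ a' * c ↔ (b = 0 → a = 0) := by
  obtain ⟨t, rfl⟩ : ∃ t, s = t + 1 := ⟨s - 1, by omega⟩
  simp only [Nat.add_sub_cancel] at h ⊢
  have h2' : t = a' + a := by omega
  subst h2'
  subst h1
  constructor
  · intro h3 hb
    subst hb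
    by_contra ha
    have ha' : 1 ≤ a := Nat.one_le_iff_ne_zero.2 ha
    nlinarith
  · intro h3
    by_cases hb : b = 0
    · rw [h3 hb, hb]
      simp only [add_zero]
      rw [mul_comm]
    · have hb' : 1 ≤ b := Nat.one_le_iff_ne_zero.2 hb
      -- b' * (a' + a) ≤ a' * (b' + b)
      have h4 : a * b' + a * b ≤ a' + a := by nlinarith
      have h5 : a * b' ≤ a' := by nlinarith
      have h6 : a' ≤ a' * b := by nlinarith
      nlinarith

open Classical in
/-- PDS of at least `|V| - k` vertices in the complement of a graph of maximum degree at most `d`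
with many vertices. -/
theorem rpds_co {V T : Finset C} {h : C → C → Bool} {d k : ℕ} (hT : T ⊆ V)
    (hd : ∀ v ∈ V, (V.filter (Adj' h v)).card ≤ d) (hk : (V \ T).card ≤ k) (h1 : 1 ≤ (V \ T).card)
    (hn : (d + 1) * k + 2 ≤ V.card) :
    RPDS V (coR h) T ↔ ∀ v ∈ T, (∃ w ∈ V, Adj' h v w) → ∃ w ∈ V \ T, Adj' h v w := by
  have hcard : (V \ T).card + T.card = V.card := Finset.card_sdiff_add_card_eq_card hT
  have hTc : d * k + 2 ≤ T.card := by nlinarith
  have key : ∀ v ∈ T, (((V \ T).filter (Adj' (coR h) v)).card * (T.card - 1) ≤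
      (T.filter (Adj' (coR h) v)).card * (V \ T).card ↔
      ((∃ w ∈ V, Adj' h v w) → ∃ w ∈ V \ T, Adj' h v w)) := by
    intro v hv
    have hv' : v ∉ V \ T := fun h3 => (Finset.mem_sdiff.1 h3).2 hv
    have e1 := card_out (D := V \ T) (h := h) hv'
    have e2 := card_in (T := T) (h := h) hv
    have h3 : (T.filter (Adj' h v)).card ≤ d :=
      (Finset.card_le_card (Finset.filter_subset_filter _ hT)).trans (hd v (hT hv))
    have h4 : (T.filter (Adj' h v)).card * (V \ T).card ≤ d * k := Nat.mul_le_mul h3 hk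
    rw [ineq_co e1 e2 h1 (by omega)]
    constructor
    · intro h5 h6
      by_contra hcon
      push Not at hcon
      have h7 : ((V \ T).filter (Adj' h v)).card = 0 := by
        rw [Finset.card_eq_zero, Finset.filter_eq_empty_iff]
        intro w hw
        exact hcon w hw
      have h8 := h5 h7
      rw [Finset.card_eq_zero, Finset.filter_eq_empty_iff] at h8
      obtain ⟨w, hw, hvw⟩ := h6
      by_cases hwT : w ∈ T
      · exact h8 hwT hvw
      · exact hcon w (Finset.mem_sdiff.2 ⟨hw, hwT⟩) hvw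
    · intro h5 h6
      by_contra hcon
      obtain ⟨w, hw⟩ := Finset.card_pos.1 (Nat.pos_of_ne_zero hcon)
      rw [Finset.mem_filter] at hw
      obtain ⟨w', hw', h7⟩ := h5 ⟨w, hT hw.1, hw.2⟩
      rw [Finset.card_eq_zero, Finset.filter_eq_empty_iff] at h6
      exact h6 hw' h7
  unfold RPDS
  constructor
  · rintro ⟨_, _, _, h5⟩ v hv
    exact (key v hv).1 (h5 v hv)
  · intro h5
    refine ⟨hT, by omega, by omega, fun v hv => (key v hv).2 (h5 v hv)⟩

/-- `D` dominates all non-isolated vertices. -/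
def Dom (V : Finset C) (h : C → C → Bool) (D : Finset C) : Prop :=
  ∀ v ∈ V, v ∉ D → (∃ w ∈ V, Adj' h v w) → ∃ w ∈ D, Adj' h v w

open Classical in
/-- The decision problems on the complement of a sparse graph. -/
theorem co_iff (L : List C) (hL : L.Nodup) (h : C → C → Bool) (d k : ℕ)
    (hd : ∀ v ∈ L, (L.toFinset.filter (Adj' h v)).card ≤ d) (hn : (d + 1) * k + 2 ≤ L.length)
    {P : Prop}
    (h1 : ∀ D : Finset C, D ⊆ L.toFinset → D.card ≤ k → Dom L.toFinset h D → P)
    (h2 : P → ∃ D : Finset C, D ⊆ L.toFinset ∧ 1 ≤ D.card ∧ D.card ≤ k ∧ Dom L.toFinset h D ∧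
      ∃ r ∈ L, r ∉ D ∧ ∀ w ∈ L, ¬ Adj' h r w) :
    (P ↔ MaxPDS (⟨L.length, cgraph L (coR h)⟩, L.length - k)) ∧
      (P ↔ MaxConnPDS (⟨L.length, cgraph L (coR h)⟩, L.length - k)) := by
  have hV : L.toFinset.card = L.length := List.toFinset_card_of_nodup hL
  have hd' : ∀ v ∈ L.toFinset, (L.toFinset.filter (Adj' h v)).card ≤ d := fun v hv =>
    hd v (List.mem_toFinset.1 hv)
  have hkn : k ≤ L.length := by nlinarith
  refine both_iff L hL (coR h) _ ?_ ?_
  · rintro ⟨T, hT, hk⟩
    have hcard : (L.toFinset \ T).card + T.card = L.toFinset.card :=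
      Finset.card_sdiff_add_card_eq_card hT.1
    have hk' : (L.toFinset \ T).card ≤ k := by omega
    have h3 := (rpds_co hT.1 hd' hk' (by have := hT.2.2.1; omega) (by omega)).1 hT
    refine h1 (L.toFinset \ T) Finset.sdiff_subset hk' ?_
    intro v hv hvD hw
    refine h3 v ?_ hw
    by_contra hvT
    exact hvD (Finset.mem_sdiff.2 ⟨hv, hvT⟩)
  · intro hP
    obtain ⟨D, hD, h3, h4, h5, r, hr, hrD, hr'⟩ := h2 hP
    have hDD : L.toFinset \ (L.toFinset \ D) = D := by
      rw [Finset.sdiff_sdiff_eq_self hD]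
    have hcard : (L.toFinset \ D).card + D.card = L.toFinset.card :=
      Finset.card_sdiff_add_card_eq_card hD
    refine ⟨L.toFinset \ D, ?_, ?_, by omega⟩
    · refine (rpds_co (d := d) (k := k) Finset.sdiff_subset hd' (by rw [hDD]; exact h4)
        (by rw [hDD]; exact h3) (by omega)).2 ?_
      rw [hDD]
      intro v hv hw
      rw [Finset.mem_sdiff] at hv
      exact h5 v hv.1 hv.2 hw
    · refine ⟨r, Finset.mem_sdiff.2 ⟨List.mem_toFinset.2 hr, hrD⟩, fun Q hQ hstep v hv => ?_⟩
      by_cases hvr : v = r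
      · rw [hvr]; exact hQ
      · refine hstep r v (Finset.mem_sdiff.2 ⟨List.mem_toFinset.2 hr, hrD⟩) hv ?_ hQ
        rw [adj_coR' (fun h => hvr h.symm)]
        exact hr' v (List.mem_toFinset.1 (Finset.mem_sdiff.1 hv).1)

end Pool.Agent.H640.PDS
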