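import Pool.Agent.H632R2.X3C

/-!
# Exact cover by 3-sets in terms of positions of the triples
-/

namespace Pool.Agent.H640.PDS

open Pool.Agent.NPC Pool.Agent.NPC.H632

/-- The component number `r` of the triple number `s`. -/
def ec (S : List (ℕ × ℕ × ℕ)) (s r : ℕ) : ℕ := (el (S.getD s (0, 0, 0))).getD r 0

theorem el_length {E : Type} (t : E × E × E) : (el t).length = 3 := rfl

theorem length_flatMap_el {E : Type} (C : List (E × E × E)) : (C.flatMap el).length = 3 * C.length := by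
  induction C with
  | nil => rfl
  | cons t C ih =>
    rw [List.flatMap_cons, List.length_append, ih, el_length, List.length_cons]
    ring

theorem el_getD (t : ℕ × ℕ × ℕ) {r : ℕ} (hr : r < 3) :
    (el t).getD r 0 = (el t)[r]'(by rw [el_length]; exact hr) :=
  List.getD_eq_getElem _ _ _

theorem ec_mem {S : List (ℕ × ℕ × ℕ)} {s r : ℕ} (hr : r < 3) : ec S s r ∈ el (S.getD s (0, 0, 0)) := by
  unfold ec
  rw [el_getD _ hr]
  exact List.getElem_mem _

theorem getD_mem' {S : List (ℕ × ℕ × ℕ)} {s : ℕ} (hs : s < S.length) :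
    S.getD s (0, 0, 0) ∈ S := by
  rw [List.getD_eq_getElem _ _ hs]
  exact List.getElem_mem _

theorem ec_lt {I : List (ℕ × ℕ × ℕ) × ℕ} (hI : X3CPr I) {s r : ℕ} (hs : s < I.1.length)
    (hr : r < 3) : ec I.1 s r < 3 * I.2 :=
  (hI.1 _ (getD_mem' hs)).2 _ (ec_mem hr)

theorem ec_inj {I : List (ℕ × ℕ × ℕ) × ℕ} (hI : X3CPr I) {s r r' : ℕ} (hs : s < I.1.length)
    (hr : r < 3) (hr' : r' < 3) (h : ec I.1 s r = ec I.1 s r') : r = r' := by
  unfold ec at h
  rw [el_getD _ hr, el_getD _ hr'] at h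
  exact (List.Nodup.getElem_inj_iff (hI.1 _ (getD_mem' hs)).1).1 h

theorem exists_ec {S : List (ℕ × ℕ × ℕ)} {s a : ℕ} (h : a ∈ el (S.getD s (0, 0, 0))) :
    ∃ r < 3, ec S s r = a := by
  obtain ⟨r, hr, h1⟩ := List.getElem_of_mem h
  refine ⟨r, by rwa [el_length] at hr, ?_⟩
  unfold ec
  rw [List.getD_eq_getElem _ _ hr, h1]

/-- A cover of all elements with `q` triples is exact. -/
theorem x3c_of_cover {I : List (ℕ × ℕ × ℕ) × ℕ} (Ss : Finset ℕ) (h1 : ∀ s ∈ Ss, s < I.1.length)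
    (h2 : Ss.card ≤ I.2) (h3 : ∀ a < 3 * I.2, ∃ s ∈ Ss, ∃ r < 3, ec I.1 s r = a) : X3C I := by
  refine ⟨Ss.toList.map (fun s => I.1.getD s (0, 0, 0)), ?_, ?_⟩
  · intro t ht
    obtain ⟨s, hs, rfl⟩ := List.mem_map.1 ht
    exact getD_mem' (h1 s (Finset.mem_toList.1 hs))
  · refine (List.Subperm.perm_of_length_le ?_ ?_).symm
    · refine List.subperm_of_subset List.nodup_range ?_
      intro a ha
      obtain ⟨s, hs, r, hr, rfl⟩ := h3 a (List.mem_range.1 ha)
      exact List.mem_flatMap.2 ⟨_, List.mem_map_of_mem (Finset.mem_toList.2 hs), ec_mem hr⟩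
    · rw [length_flatMap_el, List.length_map, Finset.length_toList, List.length_range]
      omega

/-- An exact cover in terms of positions. -/
theorem cover_of_x3c {I : List (ℕ × ℕ × ℕ) × ℕ} (hX : X3C I) :
    ∃ (Ss : Finset ℕ) (σ ρ : ℕ → ℕ), Ss.card = I.2 ∧ (∀ s ∈ Ss, s < I.1.length) ∧
      (∀ a < 3 * I.2, σ a ∈ Ss ∧ ρ a < 3 ∧ ec I.1 (σ a) (ρ a) = a) ∧
      ∀ s ∈ Ss, ∀ r < 3, ec I.1 s r < 3 * I.2 ∧ σ (ec I.1 s r) = s ∧ ρ (ec I.1 s r) = r := by
  classical
  obtain ⟨C, hC, hp⟩ := hX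
  have hlen : C.length = I.2 := by
    have := hp.length_eq
    rw [length_flatMap_el, List.length_range] at this
    omega
  have hnd : (C.flatMap el).Nodup := hp.nodup_iff.2 List.nodup_range
  have hnd2 := List.nodup_flatMap.1 hnd
  have hCnd : C.Nodup := by
    refine hnd2.2.imp ?_
    intro t t' hd htt
    subst htt
    exact hd (a := t.1) (by simp [el]) (by simp [el])
  have hidx : ∀ t : ℕ × ℕ × ℕ, ∃ i, t ∈ C → i < I.1.length ∧ I.1.getD i (0, 0, 0) = t := by
    intro t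
    by_cases ht : t ∈ C
    · obtain ⟨i, hi, h1⟩ := List.getElem_of_mem (hC t ht)
      exact ⟨i, fun _ => ⟨hi, by rw [List.getD_eq_getElem _ _ hi, h1]⟩⟩
    · exact ⟨0, fun h => absurd h ht⟩
  choose idx hidx using hidx
  have hcov : ∀ a : ℕ, ∃ p : (ℕ × ℕ × ℕ) × ℕ, a < 3 * I.2 → p.1 ∈ C ∧ p.2 < 3 ∧
      (el p.1).getD p.2 0 = a := by
    intro a
    by_cases ha : a < 3 * I.2
    · obtain ⟨t, ht, hat⟩ := List.mem_flatMap.1 (hp.mem_iff.2 (List.mem_range.2 ha))
      obtain ⟨r, hr, h1⟩ := List.getElem_of_mem hat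
      exact ⟨(t, r), fun _ => ⟨ht, hr, by
        show (el t).getD r 0 = a
        rw [List.getD_eq_getElem _ _ hr, h1]⟩⟩
    · exact ⟨((0, 0, 0), 0), fun h => absurd h ha⟩
  choose p hp' using hcov
  refine ⟨C.toFinset.image idx, fun a => idx (p a).1, fun a => (p a).2, ?_, ?_, ?_, ?_⟩
  · rw [Finset.card_image_of_injOn, List.toFinset_card_of_nodup hCnd, hlen]
    intro t ht t' ht' h
    have h1 := (hidx t (List.mem_toFinset.1 ht)).2
    have h2 := (hidx t' (List.mem_toFinset.1 ht')).2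
    rw [← h1, ← h2, h]
  · intro s hs
    obtain ⟨t, ht, rfl⟩ := Finset.mem_image.1 hs
    exact (hidx t (List.mem_toFinset.1 ht)).1
  · intro a ha
    obtain ⟨h1, h2, h3⟩ := hp' a ha
    refine ⟨Finset.mem_image_of_mem _ (List.mem_toFinset.2 h1), h2, ?_⟩
    unfold ec
    rw [(hidx _ h1).2]
    exact h3
  · intro s hs r hr
    obtain ⟨t, ht, rfl⟩ := Finset.mem_image.1 hs
    have htC := List.mem_toFinset.1 ht
    have h0 : ec I.1 (idx t) r = (el t).getD r 0 := by
      unfold ec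
      rw [(hidx t htC).2]
    have hmem : ec I.1 (idx t) r ∈ el t := by
      rw [h0, List.getD_eq_getElem _ _ (by rw [el_length]; exact hr)]
      exact List.getElem_mem _
    have hlt : ec I.1 (idx t) r < 3 * I.2 :=
      List.mem_range.1 (hp.mem_iff.1 (List.mem_flatMap.2 ⟨t, htC, hmem⟩))
    obtain ⟨h1, h2, h3⟩ := hp' _ hlt
    have hmem2 : ec I.1 (idx t) r ∈ el (p (ec I.1 (idx t) r)).1 := by
      have h4 : (el (p (ec I.1 (idx t) r)).1).getD (p (ec I.1 (idx t) r)).2 0 ∈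
          el (p (ec I.1 (idx t) r)).1 := by
        rw [List.getD_eq_getElem _ _ (by rw [el_length]; exact h2)]
        exact List.getElem_mem _
      rwa [h3] at h4
    have huniq : (p (ec I.1 (idx t) r)).1 = t :=
      cover_unique List.nodup_range hp h1 htC hmem2 hmem
    refine ⟨hlt, ?_, ?_⟩
    · show idx (p (ec I.1 (idx t) r)).1 = idx t
      rw [huniq]
    · show (p (ec I.1 (idx t) r)).2 = r
      rw [huniq] at h3
      nth_rewrite 2 [h0] at h3
      rw [List.getD_eq_getElem _ _ (by rw [el_length]; exact h2),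
        List.getD_eq_getElem _ _ (by rw [el_length]; exact hr)] at h3
      exact (List.Nodup.getElem_inj_iff (hnd2.1 t htC)).1 h3

theorem poly_ec {α : Type} [TEnc α] {S : α → List (ℕ × ℕ × ℕ)} {s r : α → ℕ} (hS : Poly S)
    (hs : Poly s) (hr : Poly r) : Poly (fun a => ec (S a) (s a) (r a)) := by
  have h1 : Poly (fun a => (S a).getD (s a) (0, 0, 0)) := Poly.getD hS hs (NPC.Poly.const _)
  have h2 : Poly (fun a => el ((S a).getD (s a) (0, 0, 0))) :=
    Poly.cons (Poly.fst h1) (Poly.cons (Poly.fst (Poly.snd h1))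
      (Poly.cons (Poly.snd (Poly.snd h1)) (NPC.Poly.const _)))
  exact Poly.getD h2 hr (NPC.Poly.const _)

end Pool.Agent.H640.PDS
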