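import Pool.Agent.H673R2.HardOn
import Pool.Agent.H692R2.FinGraph
import Pool.Agent.H671R2.PolyAuto

/-!
# Proportionally dense subgraphs: definitions and transfer to graphs on codes
-/

namespace Pool.Agent.H640.PDS

open Pool.Agent.NPC Pool.Agent.H692R2 Pool.Agent.H673R2

open Classical in
/-- `d_S(v)`: the number of neighbours of `v` in the vertex set `S`. -/
noncomputable def degIn {n : ℕ} (G : SimpleGraph (Fin n)) (S : Finset (Fin n)) (v : Fin n) : ℕ :=
  (S.filter (G.Adj v)).card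

/-- `S` is a proportionally dense subgraph (PDS) of `G`: `2 ≤ |S| ≤ |V| - 1`, and
`d_S(v) / (|S| - 1) ≥ d_{V \ S}(v) / |V \ S|` for all `v ∈ S`. -/
def IsPDS {n : ℕ} (G : SimpleGraph (Fin n)) (S : Finset (Fin n)) : Prop :=
  2 ≤ S.card ∧ S.card ≤ n - 1 ∧
    ∀ v ∈ S, (degIn G S v : ℚ) / ((S.card : ℚ) - 1) ≥ (degIn G Sᶜ v : ℚ) / (Sᶜ.card : ℚ)

/-- The PDS `S` is connected: the subgraph of `G` induced by `S` is connected. -/
def IsConnPDS {n : ℕ} (G : SimpleGraph (Fin n)) (S : Finset (Fin n)) : Prop :=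
  IsPDS G S ∧ (G.induce (S : Set (Fin n))).Connected

/-- The decision version of MaxPDS: does the graph `G` of the instance `(G, k)` have a PDS of size
at least `k`? -/
def MaxPDS (I : FinGraph × ℕ) : Prop := ∃ S, IsPDS I.1.graph S ∧ I.2 ≤ S.card

/-- The decision version of connected MaxPDS: does the graph `G` of the instance `(G, k)` have a
connected PDS of size at least `k`? -/
def MaxConnPDS (I : FinGraph × ℕ) : Prop := ∃ S, IsConnPDS I.1.graph S ∧ I.2 ≤ S.card

/-- `Δ(G) = d`. -/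
def MaxDegEq {n : ℕ} (G : SimpleGraph (Fin n)) (d : ℕ) : Prop :=
  (∀ v, degIn G Finset.univ v ≤ d) ∧ ∃ v, degIn G Finset.univ v = d

/-- `h(G) = d`: the largest `h` such that `G` has at least `h` vertices of degree at least `h`
is `d`. -/
def HIndexEq {n : ℕ} (G : SimpleGraph (Fin n)) (d : ℕ) : Prop :=
  IsGreatest {h : ℕ | h ≤ (Finset.univ.filter (fun v => h ≤ degIn G Finset.univ v)).card} d

/-! ### Elementary facts -/

theorem hIndexEq_of {n : ℕ} {G : SimpleGraph (Fin n)} {d : ℕ}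
    (h1 : ∀ v, degIn G Finset.univ v ≤ d)
    (h2 : d ≤ (Finset.univ.filter (fun v => d ≤ degIn G Finset.univ v)).card) :
    HIndexEq G d := by
  refine ⟨h2, fun h hh => ?_⟩
  by_contra hc
  have hc' : d < h := not_le.1 hc
  have h3 : (Finset.univ.filter (fun v => h ≤ degIn G Finset.univ v)) = ∅ := by
    rw [Finset.filter_eq_empty_iff]
    intro v _ hv
    have := h1 v
    omega
  have h4 : h ≤ (Finset.univ.filter (fun v => h ≤ degIn G Finset.univ v)).card := hh
  rw [h3, Finset.card_empty] at h4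
  omega

/-- The condition of a PDS without denominators. -/
theorem isPDS_iff {n : ℕ} (G : SimpleGraph (Fin n)) (S : Finset (Fin n)) :
    IsPDS G S ↔ 2 ≤ S.card ∧ S.card + 1 ≤ n ∧
      ∀ v ∈ S, degIn G Sᶜ v * (S.card - 1) ≤ degIn G S v * Sᶜ.card := by
  unfold IsPDS
  have hle : S.card ≤ n := by simpa using S.card_le_univ
  constructor
  · rintro ⟨h1, h2, h3⟩
    refine ⟨h1, by omega, fun v hv => ?_⟩
    have h4 := h3 v hv
    have hc : 0 < Sᶜ.card := by
      rw [Finset.card_compl, Fintype.card_fin]; omega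
    have e1 : ((S.card - 1 : ℕ) : ℚ) = (S.card : ℚ) - 1 := by
      rw [Nat.cast_sub (by omega), Nat.cast_one]
    have hs : (0 : ℚ) < (S.card : ℚ) - 1 := by
      rw [← e1]; exact_mod_cast (by omega : 0 < S.card - 1)
    rw [ge_iff_le, div_le_div_iff₀ (by exact_mod_cast hc) hs, ← e1] at h4
    exact_mod_cast h4
  · rintro ⟨h1, h2, h3⟩
    refine ⟨h1, by omega, fun v hv => ?_⟩
    have h4 := h3 v hv
    have hc : 0 < Sᶜ.card := by
      rw [Finset.card_compl, Fintype.card_fin]; omega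
    have e1 : ((S.card - 1 : ℕ) : ℚ) = (S.card : ℚ) - 1 := by
      rw [Nat.cast_sub (by omega), Nat.cast_one]
    have hs : (0 : ℚ) < (S.card : ℚ) - 1 := by
      rw [← e1]; exact_mod_cast (by omega : 0 < S.card - 1)
    rw [ge_iff_le, div_le_div_iff₀ (by exact_mod_cast hc) hs, ← e1]
    exact_mod_cast h4

/-! ### Graphs on codes -/

section Code

variable {C : Type} [DecidableEq C]

/-- Adjacency of codes. -/
def Adj' (A : C → C → Bool) (v w : C) : Prop := v ≠ w ∧ (A v w = true ∨ A w v = true)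

theorem Adj'.symm {A : C → C → Bool} {v w : C} (h : Adj' A v w) : Adj' A w v :=
  ⟨h.1.symm, h.2.symm⟩

theorem adj'_comm {A : C → C → Bool} {v w : C} : Adj' A v w ↔ Adj' A w v :=
  ⟨Adj'.symm, Adj'.symm⟩

/-- The graph on the positions of the list `L` of codes. -/
def cgraph (L : List C) (A : C → C → Bool) : SimpleGraph (Fin L.length) where
  Adj i j := i ≠ j ∧ (A L[i] L[j] = true ∨ A L[j] L[i] = true)
  symm := ⟨fun _ _ h => ⟨h.1.symm, h.2.symm⟩⟩
  loopless := ⟨fun _ h => h.1 rfl⟩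

/-- the code of a position -/
def emb (L : List C) (hL : L.Nodup) : Fin L.length ↪ C :=
  ⟨fun i => L[i], fun i j h => Fin.ext ((List.Nodup.getElem_inj_iff hL).1 h)⟩

theorem cgraph_adj (L : List C) (hL : L.Nodup) (A : C → C → Bool) (i j : Fin L.length) :
    (cgraph L A).Adj i j ↔ Adj' A (emb L hL i) (emb L hL j) := by
  unfold cgraph Adj'
  simp only
  rw [(emb L hL).injective.ne_iff]
  rfl

theorem map_univ_emb (L : List C) (hL : L.Nodup) :
    Finset.univ.map (emb L hL) = L.toFinset := by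
  ext x
  simp only [Finset.mem_map, Finset.mem_univ, true_and, List.mem_toFinset]
  constructor
  · rintro ⟨i, rfl⟩
    exact List.getElem_mem _
  · intro hx
    obtain ⟨i, hi, hix⟩ := List.getElem_of_mem hx
    exact ⟨⟨i, hi⟩, hix⟩

theorem mem_list_emb (L : List C) (hL : L.Nodup) (i : Fin L.length) : emb L hL i ∈ L :=
  List.getElem_mem _

theorem map_compl_emb (L : List C) (hL : L.Nodup) (S : Finset (Fin L.length)) :
    Sᶜ.map (emb L hL) = L.toFinset \ S.map (emb L hL) := by
  rw [← map_univ_emb L hL]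
  ext x
  simp only [Finset.mem_map, Finset.mem_compl, Finset.mem_sdiff, Finset.mem_univ, true_and]
  constructor
  · rintro ⟨i, hi, rfl⟩
    refine ⟨⟨i, rfl⟩, ?_⟩
    rintro ⟨j, hj, hji⟩
    exact hi ((emb L hL).injective hji ▸ hj)
  · rintro ⟨⟨i, rfl⟩, h⟩
    exact ⟨i, fun hi => h ⟨i, hi, rfl⟩, rfl⟩

open Classical in
theorem degIn_eq (L : List C) (hL : L.Nodup) (A : C → C → Bool) (S : Finset (Fin L.length))
    (v : Fin L.length) :
    degIn (cgraph L A) S v = ((S.map (emb L hL)).filter (Adj' A (emb L hL v))).card := by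
  unfold degIn
  rw [Finset.filter_map, Finset.card_map]
  congr 1
  ext w
  simp only [Finset.mem_filter, Function.comp]
  rw [cgraph_adj L hL]

open Classical in
/-- The PDS condition in a finite set `V` of codes. -/
def RPDS (V : Finset C) (A : C → C → Bool) (T : Finset C) : Prop :=
  T ⊆ V ∧ 2 ≤ T.card ∧ T.card + 1 ≤ V.card ∧ ∀ v ∈ T,
    ((V \ T).filter (Adj' A v)).card * (T.card - 1) ≤ (T.filter (Adj' A v)).card * (V \ T).card

/-- Connectedness, as an induction principle. -/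
def RConn (A : C → C → Bool) (T : Finset C) : Prop :=
  ∃ r ∈ T, ∀ P : C → Prop, P r → (∀ v w, v ∈ T → w ∈ T → Adj' A v w → P v → P w) → ∀ v ∈ T, P v

theorem isPDS_iff_rpds (L : List C) (hL : L.Nodup) (A : C → C → Bool) (S : Finset (Fin L.length)) :
    IsPDS (cgraph L A) S ↔ RPDS L.toFinset A (S.map (emb L hL)) := by
  rw [isPDS_iff]
  unfold RPDS
  rw [Finset.card_map, List.toFinset_card_of_nodup hL]
  have h0 : S.map (emb L hL) ⊆ L.toFinset := by
    rw [← map_univ_emb L hL]
    exact Finset.map_subset_map.2 (Finset.subset_univ _)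
  constructor
  · rintro ⟨h1, h2, h3⟩
    refine ⟨h0, h1, h2, fun v hv => ?_⟩
    obtain ⟨i, hi, rfl⟩ := Finset.mem_map.1 hv
    have := h3 i hi
    rw [degIn_eq L hL, degIn_eq L hL, map_compl_emb] at this
    rw [← map_compl_emb, Finset.card_map, map_compl_emb]
    exact this
  · rintro ⟨_, h1, h2, h3⟩
    refine ⟨h1, h2, fun i hi => ?_⟩
    have := h3 _ (Finset.mem_map_of_mem _ hi)
    rw [degIn_eq L hL, degIn_eq L hL, map_compl_emb]
    rw [← map_compl_emb, Finset.card_map, map_compl_emb] at this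
    exact this

theorem exists_map (L : List C) (hL : L.Nodup) {T : Finset C} (hT : T ⊆ L.toFinset) :
    ∃ S : Finset (Fin L.length), S.map (emb L hL) = T := by
  refine ⟨Finset.univ.filter (fun i => emb L hL i ∈ T), ?_⟩
  ext x
  simp only [Finset.mem_map, Finset.mem_filter, Finset.mem_univ, true_and]
  constructor
  · rintro ⟨i, hi, rfl⟩
    exact hi
  · intro hx
    have h1 := hT hx
    rw [← map_univ_emb L hL] at h1
    obtain ⟨i, _, rfl⟩ := Finset.mem_map.1 h1
    exact ⟨i, hx, rfl⟩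

theorem conn_of_rconn (L : List C) (hL : L.Nodup) (A : C → C → Bool) (S : Finset (Fin L.length))
    (h : RConn A (S.map (emb L hL))) : ((cgraph L A).induce (S : Set (Fin L.length))).Connected := by
  obtain ⟨r, hr, hP⟩ := h
  obtain ⟨i, hi, rfl⟩ := Finset.mem_map.1 hr
  have key := hP (fun x => ∀ (j : Fin L.length) (hj : j ∈ (S : Set (Fin L.length))), emb L hL j = x →
    ((cgraph L A).induce (S : Set (Fin L.length))).Reachable ⟨i, hi⟩ ⟨j, hj⟩) ?_ ?_
  · refine (SimpleGraph.connected_iff_exists_forall_reachable _).2 ⟨⟨i, hi⟩, ?_⟩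
    rintro ⟨j, hj⟩
    exact key _ (Finset.mem_map_of_mem _ hj) j hj rfl
  · intro j hj hji
    have := (emb L hL).injective hji
    subst this
    exact SimpleGraph.Reachable.refl _
  · intro v w hv hw hvw hPv j hj hjw
    obtain ⟨a, ha, rfl⟩ := Finset.mem_map.1 hv
    refine (hPv a ha rfl).trans ?_
    subst hjw
    exact SimpleGraph.Adj.reachable (by
      rw [SimpleGraph.comap_adj]
      exact (cgraph_adj L hL A a j).2 hvw)

theorem maxPDS_iff (L : List C) (hL : L.Nodup) (A : C → C → Bool) (k : ℕ) :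
    MaxPDS (⟨L.length, cgraph L A⟩, k) ↔ ∃ T, RPDS L.toFinset A T ∧ k ≤ T.card := by
  constructor
  · rintro ⟨S, hS, hk⟩
    exact ⟨_, (isPDS_iff_rpds L hL A S).1 hS, by rwa [Finset.card_map]⟩
  · rintro ⟨T, hT, hk⟩
    obtain ⟨S, rfl⟩ := exists_map L hL hT.1
    exact ⟨S, (isPDS_iff_rpds L hL A S).2 hT, by rwa [Finset.card_map] at hk⟩

theorem maxConnPDS_of (L : List C) (hL : L.Nodup) (A : C → C → Bool) (k : ℕ) (T : Finset C)
    (hT : RPDS L.toFinset A T) (hc : RConn A T) (hk : k ≤ T.card) :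
    MaxConnPDS (⟨L.length, cgraph L A⟩, k) := by
  obtain ⟨S, rfl⟩ := exists_map L hL hT.1
  exact ⟨S, ⟨(isPDS_iff_rpds L hL A S).2 hT, conn_of_rconn L hL A S hc⟩,
    by rwa [Finset.card_map] at hk⟩

theorem MaxConnPDS.maxPDS {I : FinGraph × ℕ} (h : MaxConnPDS I) : MaxPDS I := by
  obtain ⟨S, hS, hk⟩ := h
  exact ⟨S, hS.1, hk⟩

/-- From an equivalence for the PDS and a construction of a connected PDS. -/
theorem both_iff (L : List C) (hL : L.Nodup) (A : C → C → Bool) (k : ℕ) {P : Prop}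
    (h1 : (∃ T, RPDS L.toFinset A T ∧ k ≤ T.card) → P)
    (h2 : P → ∃ T, RPDS L.toFinset A T ∧ RConn A T ∧ k ≤ T.card) :
    (P ↔ MaxPDS (⟨L.length, cgraph L A⟩, k)) ∧ (P ↔ MaxConnPDS (⟨L.length, cgraph L A⟩, k)) := by
  have h3 : P → MaxConnPDS (⟨L.length, cgraph L A⟩, k) := fun hP => by
    obtain ⟨T, hT, hc, hk⟩ := h2 hP
    exact maxConnPDS_of L hL A k T hT hc hk
  have h4 : MaxPDS (⟨L.length, cgraph L A⟩, k) → P := fun h => h1 ((maxPDS_iff L hL A k).1 h)
  exact ⟨⟨fun hP => (h3 hP).maxPDS, h4⟩, ⟨h3, fun h => h4 h.maxPDS⟩⟩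

open Classical in
theorem degIn_univ_eq (L : List C) (hL : L.Nodup) (A : C → C → Bool) (v : Fin L.length) :
    degIn (cgraph L A) Finset.univ v = (L.toFinset.filter (Adj' A (emb L hL v))).card := by
  rw [degIn_eq L hL, map_univ_emb]

open Classical in
/-- Maximum degree and h-index of the graph of a list of codes. -/
theorem class_of (L : List C) (hL : L.Nodup) (A : C → C → Bool) (d : ℕ) (hd : 1 ≤ d)
    (h1 : ∀ x ∈ L, (L.toFinset.filter (Adj' A x)).card ≤ d) (X : Finset C) (hX : ∀ x ∈ X, x ∈ L)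
    (hXd : d ≤ X.card) (h2 : ∀ x ∈ X, d ≤ (L.toFinset.filter (Adj' A x)).card) :
    MaxDegEq (cgraph L A) d ∧ HIndexEq (cgraph L A) d := by
  have h3 : ∀ v, degIn (cgraph L A) Finset.univ v ≤ d := fun v => by
    rw [degIn_univ_eq L hL]
    exact h1 _ (mem_list_emb L hL v)
  have h4 : d ≤ (Finset.univ.filter (fun v => d ≤ degIn (cgraph L A) Finset.univ v)).card := by
    rw [← Finset.card_map (emb L hL)]
    refine hXd.trans (Finset.card_le_card ?_)
    intro x hx
    have hx' : x ∈ Finset.univ.map (emb L hL) := by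
      rw [map_univ_emb]; exact List.mem_toFinset.2 (hX x hx)
    obtain ⟨i, _, rfl⟩ := Finset.mem_map.1 hx'
    refine Finset.mem_map_of_mem _ (Finset.mem_filter.2 ⟨Finset.mem_univ _, ?_⟩)
    rw [degIn_univ_eq L hL]
    exact h2 _ hx
  refine ⟨⟨h3, ?_⟩, hIndexEq_of h3 h4⟩
  have h5 : 0 < (Finset.univ.filter (fun v => d ≤ degIn (cgraph L A) Finset.univ v)).card := by
    omega
  obtain ⟨v, hv⟩ := Finset.card_pos.1 h5
  exact ⟨v, le_antisymm (h3 v) (Finset.mem_filter.1 hv).2⟩

end Code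

/-! ### Polynomial-time computability -/

theorem poly_cgraph {α C : Type} [TEnc α] [TEnc C] [DecidableEq C] [Inhabited C] {L : α → List C}
    {A : α → C → C → Bool} (hL : Poly L)
    (hA : Poly (fun p : (α × C) × C => A p.1.1 p.1.2 p.2)) :
    Poly (fun a => (⟨(L a).length, cgraph (L a) (A a)⟩ : FinGraph)) := by
  refine poly_finGraph (b := fun a i j => !(decide (i = j)) &&
    (A a ((L a).getD i default) ((L a).getD j default) ||
      A a ((L a).getD j default) ((L a).getD i default))) (UPoly.length hL) ?_ ?_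
  · have e1 : Poly (fun p : (α × ℕ) × ℕ => (L p.1.1).getD p.1.2 default) :=
      Poly.getD (hL.comp (Poly.fst (Poly.fst Poly.id))) (Poly.snd (Poly.fst Poly.id))
        (NPC.Poly.const _)
    have e2 : Poly (fun p : (α × ℕ) × ℕ => (L p.1.1).getD p.2 default) :=
      Poly.getD (hL.comp (Poly.fst (Poly.fst Poly.id))) (Poly.snd Poly.id) (NPC.Poly.const _)
    have e0 : Poly (fun p : (α × ℕ) × ℕ => p.1.1) := Poly.fst (Poly.fst Poly.id)
    refine Poly.and (Poly.not (Poly.decide_eq (Poly.snd (Poly.fst Poly.id)) (Poly.snd Poly.id)))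
      (Poly.or ?_ ?_)
    · exact hA.comp (f := fun p : (α × ℕ) × ℕ =>
        ((p.1.1, (L p.1.1).getD p.1.2 default), (L p.1.1).getD p.2 default))
        (Poly.pair (Poly.pair e0 e1) e2)
    · exact hA.comp (f := fun p : (α × ℕ) × ℕ =>
        ((p.1.1, (L p.1.1).getD p.2 default), (L p.1.1).getD p.1.2 default))
        (Poly.pair (Poly.pair e0 e2) e1)
  · intro a i j
    unfold cgraph
    simp only [Bool.and_eq_true, Bool.or_eq_true, Bool.not_eq_true', decide_eq_false_iff_not,
      List.getD_eq_getElem _ _ i.2, List.getD_eq_getElem _ _ j.2]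
    rw [← Fin.ext_iff]
    rfl

end Pool.Agent.H640.PDS
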