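import Pool.Agent.Helper640.PDS.DomH

/-!
# Domination: from covers to dominating sets, and hardness
-/

namespace Pool.Agent.H640.PDS

open Pool.Agent.NPC Pool.Agent.H692R2 Pool.Agent.NPC.H632 Pool.Agent.H673R2

/-- The dominating set of a cover. -/
def domSet (m q d : ℕ) (Ss : Finset ℕ) (σ : ℕ → ℕ) : Finset Cd :=
  (Finset.range m ×ˢ Finset.range 3).image
      (fun p => (0, p.1, 3 * p.2 + if p.1 ∈ Ss then 0 else 1)) ∪
    (Ss.image (fun s => (0, s, 8)) ∪
      ((Finset.range (3 * q) ×ˢ Finset.range m).image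
          (fun p => (1, p.1, 3 * p.2 + if p.2 < σ p.1 then 1 else 2)) ∪
        (Finset.range d).image (fun j => (2, j, 0))))

theorem mem_domSet {m q d : ℕ} {Ss : Finset ℕ} {σ : ℕ → ℕ} {c x i : ℕ} :
    ((c, x, i) : Cd) ∈ domSet m q d Ss σ ↔
      (c = 0 ∧ x < m ∧ ∃ r < 3, i = 3 * r + if x ∈ Ss then 0 else 1) ∨
      (c = 0 ∧ x ∈ Ss ∧ i = 8) ∨
      (c = 1 ∧ x < 3 * q ∧ ∃ j < m, i = 3 * j + if j < σ x then 1 else 2) ∨
      (c = 2 ∧ x < d ∧ i = 0) := by
  unfold domSet
  simp only [Finset.mem_union, Finset.mem_image, Finset.mem_product, Finset.mem_range,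
    Prod.mk.injEq, Prod.exists]
  refine or_congr ?_ (or_congr ?_ (or_congr ?_ ?_))
  · constructor
    · rintro ⟨a, b, ⟨h1, h2⟩, rfl, rfl, rfl⟩
      exact ⟨rfl, h1, b, h2, rfl⟩
    · rintro ⟨rfl, h1, b, h2, rfl⟩
      exact ⟨x, b, ⟨h1, h2⟩, rfl, rfl, rfl⟩
  · constructor
    · rintro ⟨a, h1, rfl, rfl, rfl⟩
      exact ⟨rfl, h1, rfl⟩
    · rintro ⟨rfl, h1, rfl⟩
      exact ⟨x, h1, rfl, rfl, rfl⟩
  · constructor
    · rintro ⟨a, b, ⟨h1, h2⟩, rfl, rfl, rfl⟩
      exact ⟨rfl, h1, b, h2, rfl⟩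
    · rintro ⟨rfl, h1, b, h2, rfl⟩
      exact ⟨x, b, ⟨h1, h2⟩, rfl, rfl, rfl⟩
  · constructor
    · rintro ⟨a, h1, rfl, rfl, rfl⟩
      exact ⟨rfl, h1, rfl⟩
    · rintro ⟨rfl, h1, rfl⟩
      exact ⟨x, h1, rfl, rfl, rfl⟩

theorem card_domSet (m q d : ℕ) (Ss : Finset ℕ) (σ : ℕ → ℕ) (h : Ss.card = q) :
    (domSet m q d Ss σ).card ≤ budget m q d := by
  unfold domSet budget
  have h1 := Finset.card_image_le (s := Finset.range m ×ˢ Finset.range 3)
    (f := fun p : ℕ × ℕ => ((0, p.1, 3 * p.2 + if p.1 ∈ Ss then 0 else 1) : Cd))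
  have h2 := Finset.card_image_le (s := Ss) (f := fun s => ((0, s, 8) : Cd))
  have h3 := Finset.card_image_le (s := Finset.range (3 * q) ×ˢ Finset.range m)
    (f := fun p : ℕ × ℕ => ((1, p.1, 3 * p.2 + if p.2 < σ p.1 then 1 else 2) : Cd))
  have h4 := Finset.card_image_le (s := Finset.range d) (f := fun j => ((2, j, 0) : Cd))
  rw [Finset.card_product, Finset.card_range, Finset.card_range] at h1 h3
  rw [Finset.card_range] at h4
  refine (Finset.card_union_le _ _).trans ?_
  have h5 := Finset.card_union_le (Ss.image (fun s => ((0, s, 8) : Cd)))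
    ((Finset.range (3 * q) ×ˢ Finset.range m).image
          (fun p : ℕ × ℕ => ((1, p.1, 3 * p.2 + if p.2 < σ p.1 then 1 else 2) : Cd)) ∪
        (Finset.range d).image (fun j => ((2, j, 0) : Cd)))
  have h6 := Finset.card_union_le ((Finset.range (3 * q) ×ˢ Finset.range m).image
          (fun p : ℕ × ℕ => ((1, p.1, 3 * p.2 + if p.2 < σ p.1 then 1 else 2) : Cd)))
        ((Finset.range d).image (fun j => ((2, j, 0) : Cd)))
  omega

section Fwd

variable {I : List Cd × ℕ} {d t : ℕ}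

theorem dom_of_x3c (hI : X3CPr I) (hX : X3C I) (ht : 0 < t) :
    ∃ D : Finset Cd, D ⊆ (verts I.1.length I.2 d t).toFinset ∧ 1 ≤ D.card ∧
      D.card ≤ budget I.1.length I.2 d ∧ Dom (verts I.1.length I.2 d t).toFinset (hA I.1) D ∧
      ∃ r ∈ verts I.1.length I.2 d t, r ∉ D ∧
        ∀ w ∈ verts I.1.length I.2 d t, ¬ Adj' (hA I.1) r w := by
  have hm : 0 < I.1.length := by have := hI.2.1; have := hI.2.2; omega
  obtain ⟨Ss, σ, ρ, h1, h2, h3, h4⟩ := cover_of_x3c hX
  have hσ : ∀ a < 3 * I.2, σ a < I.1.length := fun a ha => h2 _ (h3 a ha).1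
  refine ⟨domSet I.1.length I.2 d Ss σ, ?_, ?_, card_domSet _ _ _ _ _ h1, ?_,
    (3, 0, 0), ?_, ?_, fun w _ => adj3⟩
  · rintro ⟨c, x, i⟩ hv
    rw [mem_domSet] at hv
    rw [List.mem_toFinset, mem_verts]
    rcases hv with ⟨rfl, hx, r, hr, rfl⟩ | ⟨rfl, hx, rfl⟩ | ⟨rfl, hx, j, hj, rfl⟩ | ⟨rfl, hx, rfl⟩
    · left
      refine ⟨rfl, hx, ?_⟩
      split_ifs <;> omega
    · exact Or.inl ⟨rfl, h2 x hx, by omega⟩
    · right; left
      refine ⟨rfl, hx, ?_⟩
      split_ifs <;> omega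
    · exact Or.inr (Or.inr (Or.inl ⟨rfl, hx, by omega⟩))
  · have h5 : 0 < (domSet I.1.length I.2 d Ss σ).card := by
      rw [Finset.card_pos]
      refine ⟨(0, 0, 3 * 0 + if 0 ∈ Ss then 0 else 1), ?_⟩
      rw [mem_domSet]
      exact Or.inl ⟨rfl, hm, 0, by omega, rfl⟩
    omega
  · rintro ⟨c, x, i⟩ hv hvD hw
    rw [List.mem_toFinset, mem_verts] at hv
    rcases hv with ⟨rfl, hx, hi⟩ | ⟨rfl, hx, hi⟩ | ⟨rfl, hx, hi⟩ | ⟨rfl, hx, hi⟩
    · -- set paths
      by_cases hxS : x ∈ Ss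
      · have e0 : ∀ r < 3, ((0, x, 3 * r) : Cd) ∈ domSet I.1.length I.2 d Ss σ := by
          intro r hr
          rw [mem_domSet]
          exact Or.inl ⟨rfl, hx, r, hr, by rw [if_pos hxS, Nat.add_zero]⟩
        have hcase : i % 3 = 0 ∨ i % 3 = 1 ∨ i % 3 = 2 := by omega
        rcases hcase with hc | hc | hc
        · exfalso
          apply hvD
          have : i = 3 * (i / 3) := by omega
          rw [this]
          exact e0 _ (by omega)
        · refine ⟨(0, x, 3 * (i / 3)), e0 _ (by omega), ?_⟩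
          rw [adj0]
          exact Or.inl ⟨rfl, rfl, Or.inr (by show i = 3 * (i / 3) + 1; omega)⟩
        · by_cases h8 : i = 8
          · exfalso
            apply hvD
            rw [h8, mem_domSet]
            exact Or.inr (Or.inl ⟨rfl, hxS, rfl⟩)
          · refine ⟨(0, x, 3 * (i / 3 + 1)), e0 _ (by omega), ?_⟩
            rw [adj0]
            exact Or.inl ⟨rfl, rfl, Or.inl (by show 3 * (i / 3 + 1) = i + 1; omega)⟩
      · have e0 : ∀ r < 3, ((0, x, 3 * r + 1) : Cd) ∈ domSet I.1.length I.2 d Ss σ := by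
          intro r hr
          rw [mem_domSet]
          exact Or.inl ⟨rfl, hx, r, hr, by rw [if_neg hxS]⟩
        have hcase : i % 3 = 0 ∨ i % 3 = 1 ∨ i % 3 = 2 := by omega
        rcases hcase with hc | hc | hc
        · refine ⟨(0, x, 3 * (i / 3) + 1), e0 _ (by omega), ?_⟩
          rw [adj0]
          exact Or.inl ⟨rfl, rfl, Or.inl (by show 3 * (i / 3) + 1 = i + 1; omega)⟩
        · exfalso
          apply hvD
          have : i = 3 * (i / 3) + 1 := by omega
          rw [this]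
          exact e0 _ (by omega)
        · refine ⟨(0, x, 3 * (i / 3) + 1), e0 _ (by omega), ?_⟩
          rw [adj0]
          exact Or.inl ⟨rfl, rfl, Or.inr (by show i = 3 * (i / 3) + 1 + 1; omega)⟩
    · -- element paths
      have e1 : ∀ j < σ x, ((1, x, 3 * j + 1) : Cd) ∈ domSet I.1.length I.2 d Ss σ := by
        intro j hj
        have := hσ x hx
        rw [mem_domSet]
        exact Or.inr (Or.inr (Or.inl ⟨rfl, hx, j, by omega, by rw [if_pos hj]⟩))
      have e2 : ∀ j, σ x ≤ j → j < I.1.length →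
          ((1, x, 3 * j + 2) : Cd) ∈ domSet I.1.length I.2 d Ss σ := by
        intro j hj hj'
        rw [mem_domSet]
        exact Or.inr (Or.inr (Or.inl ⟨rfl, hx, j, hj', by rw [if_neg (by omega)]⟩))
      have hcase : i % 3 = 0 ∨ i % 3 = 1 ∨ i % 3 = 2 := by omega
      have htri : i / 3 < σ x ∨ i / 3 = σ x ∨ σ x < i / 3 := by omega
      rcases hcase with hc | hc | hc
      · rcases htri with ht' | ht' | ht'
        · refine ⟨(1, x, 3 * (i / 3) + 1), e1 _ ht', ?_⟩
          rw [adj1]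
          exact Or.inl ⟨rfl, rfl, Or.inl (by show 3 * (i / 3) + 1 = i + 1; omega)⟩
        · obtain ⟨g1, g2, g3⟩ := h3 x hx
          refine ⟨(0, σ x, 3 * ρ x), ?_, ?_⟩
          · rw [mem_domSet]
            exact Or.inl ⟨rfl, h2 _ g1, ρ x, g2, by rw [if_pos g1, Nat.add_zero]⟩
          · rw [adj1]
            refine Or.inr ⟨rfl, by show 3 * ρ x % 3 = 0; omega, by show i = 3 * σ x; omega, ?_⟩
            show ec I.1 (σ x) (3 * ρ x / 3) = x
            have : 3 * ρ x / 3 = ρ x := by omega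
            rw [this]
            exact g3
        · refine ⟨(1, x, 3 * (i / 3 - 1) + 2), e2 _ (by omega) (by omega), ?_⟩
          rw [adj1]
          exact Or.inl ⟨rfl, rfl, Or.inr (by show i = 3 * (i / 3 - 1) + 2 + 1; omega)⟩
      · rcases Nat.lt_or_ge (i / 3) (σ x) with ht' | ht'
        · exfalso
          apply hvD
          have : i = 3 * (i / 3) + 1 := by omega
          rw [this]
          exact e1 _ ht'
        · refine ⟨(1, x, 3 * (i / 3) + 2), e2 _ ht' (by omega), ?_⟩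
          rw [adj1]
          exact Or.inl ⟨rfl, rfl, Or.inl (by show 3 * (i / 3) + 2 = i + 1; omega)⟩
      · rcases Nat.lt_or_ge (i / 3) (σ x) with ht' | ht'
        · refine ⟨(1, x, 3 * (i / 3) + 1), e1 _ ht', ?_⟩
          rw [adj1]
          exact Or.inl ⟨rfl, rfl, Or.inr (by show i = 3 * (i / 3) + 1 + 1; omega)⟩
        · exfalso
          apply hvD
          have : i = 3 * (i / 3) + 2 := by omega
          rw [this]
          exact e2 _ ht' (by omega)
    · -- stars
      by_cases hi0 : i = 0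
      · exfalso
        apply hvD
        rw [mem_domSet]
        exact Or.inr (Or.inr (Or.inr ⟨rfl, hx, hi0⟩))
      · refine ⟨(2, x, 0), ?_, ?_⟩
        · rw [mem_domSet]
          exact Or.inr (Or.inr (Or.inr ⟨rfl, hx, rfl⟩))
        · rw [adj2]
          exact ⟨rfl, rfl, Or.inr ⟨hi0, rfl⟩⟩
    · obtain ⟨w, _, hw⟩ := hw
      exact absurd hw adj3
  · rw [mem_verts]
    exact Or.inr (Or.inr (Or.inr ⟨rfl, ht, by omega⟩))
  · rw [mem_domSet]
    omega

end Fwd

/-! ### The reduction -/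

/-- number of triples, capped number of 3-sets -/
def cap (I : List Cd × ℕ) : ℕ := min I.2 I.1.length

theorem uPoly_cap : UPoly cap :=
  UPoly.of_le (by unfold cap; fun_prop) (UPoly.length (Poly.fst Poly.id)) fun I => by
    unfold cap; exact Nat.min_le_right _ _

theorem uPoly_len : UPoly (fun I : List Cd × ℕ => I.1.length) := UPoly.length (Poly.fst Poly.id)

theorem cap_eq {I : List Cd × ℕ} (hI : X3CPr I) : cap I = I.2 := Nat.min_eq_left hI.2.2

/-- the padding -/
def pad (d : ℕ) (I : List Cd × ℕ) : ℕ := (d + 1) * budget I.1.length (cap I) d + 2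

/-- the list of vertices of an instance -/
def vertsI (d : ℕ) (I : List Cd × ℕ) : List Cd := verts I.1.length (cap I) d (pad d I)

/-- the reduction -/
noncomputable def red (d : ℕ) (I : List Cd × ℕ) : FinGraph × ℕ :=
  (⟨(vertsI d I).length, cgraph (vertsI d I) (coR (hA I.1))⟩,
    (vertsI d I).length - budget I.1.length (cap I) d)

theorem uPoly_budget (d : ℕ) : UPoly (fun I : List Cd × ℕ => budget I.1.length (cap I) d) := by
  unfold budget
  exact ((((UPoly.const 3).mul uPoly_len).add (((UPoly.const 3).mul uPoly_cap).mul uPoly_len)).add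
    uPoly_cap).add (UPoly.const d)

theorem uPoly_pad (d : ℕ) : UPoly (pad d) := by
  unfold pad
  exact ((UPoly.const (d + 1)).mul (uPoly_budget d)).add (UPoly.const 2)

theorem poly_grid {a b : List Cd × ℕ → ℕ} (ha : UPoly a) (hb : UPoly b) (k : ℕ) :
    Poly (fun I => ((List.range (a I)) ×ˢ (List.range (b I))).map (Prod.mk k)) := by
  have h1 := ha.range
  have h2 := hb.range
  exact NPC.Poly.map (F := fun _ (p : ℕ × ℕ) => (k, p)) (R671.poly_product h1 h2) (by fun_prop)

theorem poly_vertsI (d : ℕ) : Poly (vertsI d) := by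
  unfold vertsI verts
  exact Poly.append (poly_grid uPoly_len (UPoly.const 9) 0)
    (Poly.append (poly_grid ((UPoly.const 3).mul uPoly_cap)
      (((UPoly.const 3).mul uPoly_len).add (UPoly.const 1)) 1)
    (Poly.append (poly_grid (UPoly.const d) (UPoly.const (d + 1)) 2)
      (poly_grid (uPoly_pad d) (UPoly.const 1) 3)))

theorem poly_hA {α : Type} [TEnc α] {S : α → List Cd} {v w : α → Cd} (hS : Poly S) (hv : Poly v)
    (hw : Poly w) : Poly (fun a => hA (S a) (v a) (w a)) := by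
  have h1 : Poly (fun a => ec (S a) (v a).2.1 ((v a).2.2 / 3)) := poly_ec hS (by fun_prop)
    (by fun_prop)
  unfold hA
  fun_prop

theorem poly_red (d : ℕ) : Poly (red d) := by
  unfold red
  refine Poly.pair ?_ ?_
  · refine poly_cgraph (poly_vertsI d) ?_
    have h1 : Poly (fun p : ((List Cd × ℕ) × Cd) × Cd => hA p.1.1.1 p.1.2 p.2) :=
      poly_hA (by fun_prop) (by fun_prop) (by fun_prop)
    have h2 : Poly (fun p : ((List Cd × ℕ) × Cd) × Cd => hA p.1.1.1 p.2 p.1.2) :=
      poly_hA (by fun_prop) (by fun_prop) (by fun_prop)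
    unfold coR
    fun_prop
  · have h1 : Poly (fun I : List Cd × ℕ => (vertsI d I).length) := Poly.length (poly_vertsI d)
    have h2 := (uPoly_budget d).toPoly
    fun_prop

/-- The class: `Δ` and `h` of the complement are both equal to `d`. -/
def CoClass (d : ℕ) (I : FinGraph × ℕ) : Prop :=
  MaxDegEq I.1.graphᶜ d ∧ HIndexEq I.1.graphᶜ d

theorem red_class {d : ℕ} (hd : 3 ≤ d) {I : List Cd × ℕ} (hI : X3CPr I) :
    CoClass d (red d I) := by
  unfold CoClass
  have h : (red d I).1.graphᶜ = cgraph (vertsI d I) (hA I.1) := compl_cgraph _ _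
  have key : MaxDegEq (cgraph (vertsI d I) (hA I.1)) d ∧
      HIndexEq (cgraph (vertsI d I) (hA I.1)) d := by
    unfold vertsI
    rw [cap_eq hI]
    exact class_dom hI hd
  rw [h]
  exact key

theorem red_iff {d : ℕ} (hd : 3 ≤ d) {I : List Cd × ℕ} (hI : X3CPr I) :
    (X3C I ↔ MaxPDS (red d I)) ∧ (X3C I ↔ MaxConnPDS (red d I)) := by
  classical
  unfold red vertsI
  rw [cap_eq hI]
  refine co_iff _ (nodup_verts _ _ _ _) _ d _ ?_ ?_ ?_ ?_
  · intro v hv
    convert deg_le hI hd v hv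
  · rw [length_verts]
    unfold pad
    rw [cap_eq hI]
    have : 0 ≤ I.1.length * 9 := Nat.zero_le _
    omega
  · intro D hD hk hdom
    exact x3c_of_dom hI hD hdom hk
  · intro hX
    exact dom_of_x3c hI hX (by unfold pad; omega)

/-- **Part A.** -/
theorem hard_co (d : ℕ) (hd : 3 ≤ d) :
    NPHardOn (CoClass d) MaxPDS ∧ NPHardOn (CoClass d) MaxConnPDS :=
  ⟨npHardOn_of hardPr_X3C (poly_red d) (fun _ hI => red_class hd hI)
      (fun _ hI => (red_iff hd hI).1),
    npHardOn_of hardPr_X3C (poly_red d) (fun _ hI => red_class hd hI)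
      (fun _ hI => (red_iff hd hI).2)⟩

end Pool.Agent.H640.PDS
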