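import Pool.Agent.Helper640.PDS.Co
import Pool.Agent.Helper640.PDS.Cov

/-!
# Domination in graphs of maximum degree three encodes exact cover by 3-sets
-/

set_option linter.unusedSimpArgs false

namespace Pool.Agent.H640.PDS

open Pool.Agent.NPC Pool.Agent.H692R2 Pool.Agent.NPC.H632

/-- codes of vertices -/
abbrev Cd : Type := ℕ × ℕ × ℕ

/-! ### Counting on paths -/

/-- A dominating set of a path with `3M+1` vertices. -/
theorem count_elem (P : ℕ → Prop) [DecidablePred P] (M : ℕ)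
    (h1 : ∀ j < M, P (3 * j) ∨ P (3 * j + 1) ∨ P (3 * j + 2))
    (h2 : ∀ j < M, P (3 * j + 1) ∨ P (3 * j + 2) ∨ P (3 * j + 3)) :
    M ≤ Nat.count P (3 * M + 1) ∧ (Nat.count P (3 * M + 1) = M →
      ¬ P (3 * M) ∧ ((∃ j < M, ¬ P (3 * j) ∧ (j = 0 ∨ ¬ P (3 * j - 1)) ∧ ¬ P (3 * j + 1)) ∨
        (M = 0 ∨ ¬ P (3 * M - 1)))) := by
  induction M with
  | zero =>
    refine ⟨Nat.zero_le _, fun h => ⟨?_, Or.inr (Or.inl rfl)⟩⟩
    intro h0
    simp only [Nat.mul_zero, Nat.zero_add, Nat.count_succ, Nat.count_zero] at h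
    rw [if_pos (by simpa using h0)] at h
    omega
  | succ M ih =>
    obtain ⟨ih1, ih2⟩ := ih (fun j hj => h1 j (by omega)) (fun j hj => h2 j (by omega))
    have e : 3 * (M + 1) + 1 = 3 * M + 1 + 1 + 1 + 1 := by ring
    have g1 := h1 M (by omega)
    have g2 := h2 M (by omega)
    have e3 : 3 * (M + 1) = 3 * M + 1 + 1 + 1 := by ring
    have e4 : 3 * M + 1 + 1 + 1 - 1 = 3 * M + 2 := by omega
    have e5 : 3 * M + 1 + 1 + 1 = 3 * M + 3 := by omega
    have e6 : 3 * M + 1 + 1 = 3 * M + 2 := by omega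
    rw [e, Nat.count_succ, Nat.count_succ, Nat.count_succ, e3, e4, e5, e6]
    by_cases p1 : P (3 * M + 1) <;> by_cases p2 : P (3 * M + 2) <;> by_cases p3 : P (3 * M + 3) <;>
      simp only [p1, p2, p3, if_true, if_false, true_or, or_true, false_or, or_false, not_true,
        not_false_iff] at g1 g2 ⊢
    · exact ⟨by omega, fun h => by omega⟩
    · exact ⟨by omega, fun h => by omega⟩
    · exact ⟨by omega, fun h => by omega⟩
    · refine ⟨by omega, fun h => ⟨trivial, ?_⟩⟩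
      simp
    · exact ⟨by omega, fun h => by omega⟩
    · refine ⟨by omega, fun h => ⟨trivial, ?_⟩⟩
      obtain ⟨q1, q2⟩ := ih2 (by omega)
      left
      rcases q2 with ⟨j, hj, q2⟩ | q2
      · exact ⟨j, by omega, q2⟩
      · exact ⟨M, by omega, q1, q2, p1⟩
    · refine ⟨by omega, fun h => ?_⟩
      exact absurd g1 (ih2 (by omega)).1

theorem count_elem' (P : ℕ → Prop) [DecidablePred P] (M : ℕ)
    (h1 : ∀ j < M, P (3 * j) ∨ P (3 * j + 1) ∨ P (3 * j + 2))
    (h2 : ∀ j < M, P (3 * j + 1) ∨ P (3 * j + 2) ∨ P (3 * j + 3)) :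
    M ≤ Nat.count P (3 * M + 1) ∧ (Nat.count P (3 * M + 1) = M →
      ∃ j ≤ M, ¬ P (3 * j) ∧ (j = 0 ∨ ¬ P (3 * j - 1)) ∧ (j = M ∨ ¬ P (3 * j + 1))) := by
  obtain ⟨a1, a2⟩ := count_elem P M h1 h2
  refine ⟨a1, fun h => ?_⟩
  obtain ⟨b1, b2⟩ := a2 h
  rcases b2 with ⟨j, hj, b2, b3, b4⟩ | b2
  · exact ⟨j, by omega, b2, b3, Or.inr b4⟩
  · exact ⟨M, le_rfl, b1, b2, Or.inl rfl⟩

/-- A set dominating the inner vertices of a path with nine vertices. -/
theorem count_set (P : ℕ → Prop) [DecidablePred P]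
    (h1 : P 0 ∨ P 1 ∨ P 2) (h2 : P 1 ∨ P 2 ∨ P 3) (h4 : P 3 ∨ P 4 ∨ P 5) (h5 : P 4 ∨ P 5 ∨ P 6)
    (h7 : P 6 ∨ P 7 ∨ P 8) (h8 : P 7 ∨ P 8) :
    3 ≤ Nat.count P 9 ∧ (Nat.count P 9 = 3 → ¬ P 0 ∧ ¬ P 3 ∧ ¬ P 6) := by
  have hp : ∀ i, ∃ x : ℕ, x ≤ 1 ∧ (P i ↔ x = 1) ∧ (if P i then 1 else 0) = x := by
    intro i
    by_cases h : P i
    · exact ⟨1, le_rfl, by simp [h], by simp [h]⟩
    · exact ⟨0, by omega, by simp [h], by simp [h]⟩
  obtain ⟨x0, a0, b0, c0⟩ := hp 0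
  obtain ⟨x1, a1, b1, c1⟩ := hp 1
  obtain ⟨x2, a2, b2, c2⟩ := hp 2
  obtain ⟨x3, a3, b3, c3⟩ := hp 3
  obtain ⟨x4, a4, b4, c4⟩ := hp 4
  obtain ⟨x5, a5, b5, c5⟩ := hp 5
  obtain ⟨x6, a6, b6, c6⟩ := hp 6
  obtain ⟨x7, a7, b7, c7⟩ := hp 7
  obtain ⟨x8, a8, b8, c8⟩ := hp 8
  have e : Nat.count P 9 = x0 + x1 + x2 + x3 + x4 + x5 + x6 + x7 + x8 := by
    simp only [Nat.count_succ, Nat.count_zero, Nat.zero_add]
    rw [c0, c1, c2, c3, c4, c5, c6, c7, c8]
  rw [e, b0, b3, b6]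
  rw [b0, b1, b2] at h1
  rw [b1, b2, b3] at h2
  rw [b3, b4, b5] at h4
  rw [b4, b5, b6] at h5
  rw [b6, b7, b8] at h7
  rw [b7, b8] at h8
  omega

/-! ### The graph -/

/-- The list of vertices: `m` paths with nine vertices, `3q` paths with `3m+1` vertices, `d` stars
and `t` isolated vertices. -/
def verts (m q d t : ℕ) : List Cd :=
  ((List.range m) ×ˢ (List.range 9)).map (Prod.mk 0) ++
    (((List.range (3 * q)) ×ˢ (List.range (3 * m + 1))).map (Prod.mk 1) ++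
      (((List.range d) ×ˢ (List.range (d + 1))).map (Prod.mk 2) ++
        ((List.range t) ×ˢ (List.range 1)).map (Prod.mk 3)))

theorem mem_grid {a b k c x i : ℕ} :
    ((c, x, i) : Cd) ∈ ((List.range a) ×ˢ (List.range b)).map (Prod.mk k) ↔
      c = k ∧ x < a ∧ i < b := by
  simp only [List.mem_map, Prod.mk.injEq, List.mem_product, List.mem_range, Prod.exists]
  constructor
  · rintro ⟨x', i', h, rfl, rfl, rfl⟩
    exact ⟨rfl, h⟩
  · rintro ⟨rfl, h⟩
    exact ⟨x, i, h, rfl, rfl, rfl⟩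

theorem mem_verts {m q d t c x i : ℕ} : ((c, x, i) : Cd) ∈ verts m q d t ↔
    (c = 0 ∧ x < m ∧ i < 9) ∨ (c = 1 ∧ x < 3 * q ∧ i < 3 * m + 1) ∨ (c = 2 ∧ x < d ∧ i < d + 1) ∨
      (c = 3 ∧ x < t ∧ i < 1) := by
  unfold verts
  rw [List.mem_append, List.mem_append, List.mem_append, mem_grid, mem_grid, mem_grid, mem_grid]

theorem nodup_grid (a b k : ℕ) :
    (((List.range a) ×ˢ (List.range b)).map (Prod.mk k)).Nodup :=
  List.Nodup.map (Prod.mk_right_injective k) (List.Nodup.product List.nodup_range List.nodup_range)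

theorem nodup_verts (m q d t : ℕ) : (verts m q d t).Nodup := by
  unfold verts
  refine List.Nodup.append (nodup_grid _ _ _) (List.Nodup.append (nodup_grid _ _ _)
    (List.Nodup.append (nodup_grid _ _ _) (nodup_grid _ _ _) ?_) ?_) ?_
  · rintro ⟨c, x, i⟩ h1 h2
    rw [mem_grid] at h1 h2
    omega
  · rintro ⟨c, x, i⟩ h1 h2
    rw [List.mem_append, mem_grid, mem_grid] at h2
    rw [mem_grid] at h1
    omega
  · rintro ⟨c, x, i⟩ h1 h2
    rw [List.mem_append, List.mem_append, mem_grid, mem_grid, mem_grid] at h2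
    rw [mem_grid] at h1
    omega

theorem length_verts (m q d t : ℕ) :
    (verts m q d t).length = m * 9 + (3 * q * (3 * m + 1) + (d * (d + 1) + t)) := by
  unfold verts
  simp only [List.length_append, List.length_map, List.length_product, List.length_range]
  ring

/-- adjacency (one direction) -/
def hA (S : List Cd) (v w : Cd) : Bool :=
  (decide (v.1 = w.1) && decide (v.1 ≤ 1) && decide (v.2.1 = w.2.1) && decide (w.2.2 = v.2.2 + 1)) ||
  (decide (v.1 = 0) && decide (w.1 = 1) && decide (v.2.2 % 3 = 0) && decide (w.2.2 = 3 * v.2.1) &&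
    decide (ec S v.2.1 (v.2.2 / 3) = w.2.1)) ||
  (decide (v.1 = 2) && decide (w.1 = 2) && decide (v.2.1 = w.2.1) && decide (v.2.2 = 0) &&
    !decide (w.2.2 = 0))

theorem hA_iff {S : List Cd} {v w : Cd} : hA S v w = true ↔
    (v.1 = w.1 ∧ v.1 ≤ 1 ∧ v.2.1 = w.2.1 ∧ w.2.2 = v.2.2 + 1) ∨
    (v.1 = 0 ∧ w.1 = 1 ∧ v.2.2 % 3 = 0 ∧ w.2.2 = 3 * v.2.1 ∧ ec S v.2.1 (v.2.2 / 3) = w.2.1) ∨
    (v.1 = 2 ∧ w.1 = 2 ∧ v.2.1 = w.2.1 ∧ v.2.2 = 0 ∧ w.2.2 ≠ 0) := by
  unfold hA
  simp only [Bool.or_eq_true, Bool.and_eq_true, decide_eq_true_eq, Bool.not_eq_true',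
    decide_eq_false_iff_not]
  tauto

/-- neighbours of a vertex of a set path -/
theorem adj0 {S : List Cd} {s i : ℕ} {w : Cd} : Adj' (hA S) (0, s, i) w ↔
    (w.1 = 0 ∧ w.2.1 = s ∧ (w.2.2 = i + 1 ∨ i = w.2.2 + 1)) ∨
      (w.1 = 1 ∧ i % 3 = 0 ∧ w.2.2 = 3 * s ∧ w.2.1 = ec S s (i / 3)) := by
  obtain ⟨c, x, j⟩ := w
  unfold Adj'
  rw [hA_iff, hA_iff]
  simp only [ne_eq, Prod.mk.injEq]
  constructor
  · rintro ⟨h0, (h | h | h) | (h | h | h)⟩
    · left; omega
    · right; omega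
    · omega
    · left; omega
    · omega
    · omega
  · rintro (⟨rfl, rfl, h | h⟩ | ⟨rfl, h1, rfl, rfl⟩)
    · exact ⟨by omega, Or.inl (Or.inl (by omega))⟩
    · exact ⟨by omega, Or.inr (Or.inl (by omega))⟩
    · exact ⟨by omega, Or.inl (Or.inr (Or.inl (by tauto)))⟩

/-- neighbours of a vertex of an element path -/
theorem adj1 {S : List Cd} {a i : ℕ} {w : Cd} : Adj' (hA S) (1, a, i) w ↔
    (w.1 = 1 ∧ w.2.1 = a ∧ (w.2.2 = i + 1 ∨ i = w.2.2 + 1)) ∨
      (w.1 = 0 ∧ w.2.2 % 3 = 0 ∧ i = 3 * w.2.1 ∧ ec S w.2.1 (w.2.2 / 3) = a) := by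
  obtain ⟨c, x, j⟩ := w
  unfold Adj'
  rw [hA_iff, hA_iff]
  simp only [ne_eq, Prod.mk.injEq]
  constructor
  · rintro ⟨h0, (h | h | h) | (h | h | h)⟩
    · left; omega
    · omega
    · omega
    · left; omega
    · right; omega
    · omega
  · rintro (⟨rfl, rfl, h | h⟩ | ⟨rfl, h1, rfl, h2⟩)
    · exact ⟨by omega, Or.inl (Or.inl (by omega))⟩
    · exact ⟨by omega, Or.inr (Or.inl (by omega))⟩
    · exact ⟨by omega, Or.inr (Or.inr (Or.inl (by tauto)))⟩

/-- neighbours of a vertex of a star -/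
theorem adj2 {S : List Cd} {j i : ℕ} {w : Cd} : Adj' (hA S) (2, j, i) w ↔
    w.1 = 2 ∧ w.2.1 = j ∧ ((i = 0 ∧ w.2.2 ≠ 0) ∨ (i ≠ 0 ∧ w.2.2 = 0)) := by
  obtain ⟨c, x, k⟩ := w
  unfold Adj'
  rw [hA_iff, hA_iff]
  simp only [ne_eq, Prod.mk.injEq]
  constructor
  · rintro ⟨h0, (h | h | h) | (h | h | h)⟩ <;> omega
  · rintro ⟨rfl, rfl, ⟨rfl, h⟩ | ⟨h, rfl⟩⟩
    · exact ⟨by omega, Or.inl (Or.inr (Or.inr (by tauto)))⟩
    · exact ⟨by omega, Or.inr (Or.inr (Or.inr (by tauto)))⟩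

theorem adj3 {S : List Cd} {j i : ℕ} {w : Cd} : ¬ Adj' (hA S) (3, j, i) w := by
  obtain ⟨c, x, k⟩ := w
  unfold Adj'
  rw [hA_iff, hA_iff]
  simp only [ne_eq, Prod.mk.injEq]
  rintro ⟨h0, (h | h | h) | (h | h | h)⟩ <;> omega

/-! ### Degrees -/

section Deg

variable {I : List Cd × ℕ} {d t : ℕ}

theorem card_le_three' {X : Finset Cd} {a b c : Cd} (h : ∀ x ∈ X, x = a ∨ x = b ∨ x = c) :
    X.card ≤ 3 := by
  have h1 : X ⊆ {a, b, c} := by
    intro x hx
    simpa using h x hx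
  exact (Finset.card_le_card h1).trans Finset.card_le_three

open Classical in
theorem deg_le (hI : X3CPr I) (hd : 3 ≤ d) (v : Cd) (hv : v ∈ verts I.1.length I.2 d t) :
    ((verts I.1.length I.2 d t).toFinset.filter (Adj' (hA I.1) v)).card ≤ d := by
  obtain ⟨c, x, i⟩ := v
  rw [mem_verts] at hv
  rcases hv with ⟨rfl, hx, hi⟩ | ⟨rfl, hx, hi⟩ | ⟨rfl, hx, hi⟩ | ⟨rfl, hx, hi⟩
  · refine le_trans (card_le_three' (a := (0, x, i + 1)) (b := (0, x, i - 1))
      (c := (1, ec I.1 x (i / 3), 3 * x)) ?_) hd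
    rintro ⟨c, y, j⟩ hw
    rw [Finset.mem_filter, adj0] at hw
    simp only [Prod.mk.injEq]
    obtain ⟨-, hw⟩ := hw
    simp only at hw
    omega
  · by_cases hex : ∃ r < 3, i / 3 < I.1.length ∧ ec I.1 (i / 3) r = x
    · obtain ⟨r, hr, hil, hrx⟩ := hex
      refine le_trans (card_le_three' (a := (1, x, i + 1)) (b := (1, x, i - 1))
        (c := (0, i / 3, 3 * r)) ?_) hd
      rintro ⟨c, y, j⟩ hw
      rw [Finset.mem_filter, List.mem_toFinset, mem_verts, adj1] at hw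
      simp only [Prod.mk.injEq]
      obtain ⟨hw0, hw | hw⟩ := hw
      · simp only at hw
        omega
      · simp only at hw
        obtain ⟨rfl, h1, h2, h3⟩ := hw
        right; right
        have h4 : i / 3 = y := by omega
        rw [h4] at hrx hil ⊢
        have h5 := ec_inj hI hil hr (by omega) (hrx.trans h3.symm)
        omega
    · refine le_trans (card_le_three' (a := (1, x, i + 1)) (b := (1, x, i - 1))
        (c := (1, x, i - 1)) ?_) hd
      rintro ⟨c, y, j⟩ hw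
      rw [Finset.mem_filter, List.mem_toFinset, mem_verts, adj1] at hw
      simp only [Prod.mk.injEq]
      obtain ⟨hw0, hw | hw⟩ := hw
      · simp only at hw
        omega
      · exfalso
        simp only at hw
        obtain ⟨rfl, h1, h2, h3⟩ := hw
        have h4 : i / 3 = y := by omega
        exact hex ⟨j / 3, by omega, by omega, by rw [h4]; exact h3⟩
  · by_cases hi0 : i = 0
    · subst hi0
      have h1 : (verts I.1.length I.2 d t).toFinset.filter (Adj' (hA I.1) (2, x, 0)) ⊆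
          (Finset.range d).image (fun j => ((2, x, j + 1) : Cd)) := by
        rintro ⟨c, y, j⟩ hw
        rw [Finset.mem_filter, List.mem_toFinset, mem_verts, adj2] at hw
        simp only at hw
        rw [Finset.mem_image]
        refine ⟨j - 1, ?_, ?_⟩
        · rw [Finset.mem_range]; omega
        · simp only [Prod.mk.injEq]; omega
      exact (Finset.card_le_card h1).trans (Finset.card_image_le.trans (by simp))
    · refine le_trans (card_le_three' (a := (2, x, 0)) (b := (2, x, 0)) (c := (2, x, 0)) ?_) hd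
      rintro ⟨c, y, j⟩ hw
      rw [Finset.mem_filter, List.mem_toFinset, mem_verts, adj2] at hw
      simp only at hw
      simp only [Prod.mk.injEq]
      omega
  · have h1 : (verts I.1.length I.2 d t).toFinset.filter (Adj' (hA I.1) (3, x, i)) = ∅ := by
      rw [Finset.filter_eq_empty_iff]
      intro w _
      exact adj3
    rw [h1, Finset.card_empty]
    exact Nat.zero_le _

open Classical in
theorem deg_center {x : ℕ} (hx : x < d) :
    d ≤ ((verts I.1.length I.2 d t).toFinset.filter (Adj' (hA I.1) (2, x, 0))).card := by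
  have h1 : (Finset.range d).image (fun j => ((2, x, j + 1) : Cd)) ⊆
      (verts I.1.length I.2 d t).toFinset.filter (Adj' (hA I.1) (2, x, 0)) := by
    intro w hw
    obtain ⟨j, hj, rfl⟩ := Finset.mem_image.1 hw
    rw [Finset.mem_range] at hj
    rw [Finset.mem_filter, List.mem_toFinset, mem_verts, adj2]
    exact ⟨Or.inr (Or.inr (Or.inl ⟨rfl, hx, by omega⟩)), rfl, rfl, Or.inl ⟨rfl, by simp⟩⟩
  have h2 : ((Finset.range d).image (fun j => ((2, x, j + 1) : Cd))).card = d := by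
    rw [Finset.card_image_of_injective, Finset.card_range]
    intro a b hab
    simpa using hab
  rw [← h2]
  exact Finset.card_le_card (h2.symm ▸ h1)

theorem class_dom (hI : X3CPr I) (hd : 3 ≤ d) :
    MaxDegEq (cgraph (verts I.1.length I.2 d t) (hA I.1)) d ∧
      HIndexEq (cgraph (verts I.1.length I.2 d t) (hA I.1)) d := by
  classical
  refine class_of _ (nodup_verts _ _ _ _) _ d (by omega) ?_
    ((Finset.range d).image (fun x => ((2, x, 0) : Cd))) ?_ ?_ ?_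
  · intro v hv
    convert deg_le hI hd v hv
  · intro x hx
    obtain ⟨j, hj, rfl⟩ := Finset.mem_image.1 hx
    rw [Finset.mem_range] at hj
    rw [mem_verts]
    right; right; left
    exact ⟨rfl, hj, by omega⟩
  · rw [Finset.card_image_of_injective, Finset.card_range]
    intro a b hab
    simpa using hab
  · intro x hx
    obtain ⟨j, hj, rfl⟩ := Finset.mem_image.1 hx
    rw [Finset.mem_range] at hj
    convert deg_center (I := I) (t := t) hj

end Deg

end Pool.Agent.H640.PDS
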