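import Pool.Agent.Helper640.PDS.DomG

/-!
# Domination: correctness of the reduction
-/

namespace Pool.Agent.H640.PDS

open Pool.Agent.NPC Pool.Agent.H692R2 Pool.Agent.NPC.H632

/-- the size of the dominating sets -/
def budget (m q d : ℕ) : ℕ := 3 * m + 3 * q * m + q + d

/-! ### Counting -/

theorem card_grid (D : Finset Cd) (c a b : ℕ) :
    ∑ x ∈ Finset.range a, Nat.count (fun i => ((c, x, i) : Cd) ∈ D) b ≤
      (D.filter (fun v => v.1 = c)).card := by
  have h1 : ∀ x, Nat.count (fun i => ((c, x, i) : Cd) ∈ D) b =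
      ∑ i ∈ Finset.range b, if ((c, x, i) : Cd) ∈ D then 1 else 0 := by
    intro x
    rw [Nat.count_eq_card_filter_range, Finset.card_filter]
  simp only [h1]
  rw [← Finset.sum_product', ← Finset.card_filter]
  rw [← Finset.card_image_of_injective _ (Prod.mk_right_injective c)]
  refine Finset.card_le_card ?_
  rintro v hv
  obtain ⟨p, hp, rfl⟩ := Finset.mem_image.1 hv
  rw [Finset.mem_filter] at hp ⊢
  exact ⟨hp.2, rfl⟩

theorem card_three (D : Finset Cd) :
    (D.filter (fun v => v.1 = 0)).card + (D.filter (fun v => v.1 = 1)).card +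
      (D.filter (fun v => v.1 = 2)).card ≤ D.card := by
  rw [← Finset.card_union_of_disjoint, ← Finset.card_union_of_disjoint]
  · refine Finset.card_le_card ?_
    intro v hv
    simp only [Finset.mem_union, Finset.mem_filter] at hv
    tauto
  · rw [Finset.disjoint_left]
    intro v hv hv'
    simp only [Finset.mem_union, Finset.mem_filter] at hv hv'
    omega
  · rw [Finset.disjoint_left]
    intro v hv hv'
    simp only [Finset.mem_filter] at hv hv'
    omega

/-! ### From dominating sets to covers -/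

section Back

variable {I : List Cd × ℕ} {d t : ℕ} {D : Finset Cd}

theorem dom_nbr (hD : D ⊆ (verts I.1.length I.2 d t).toFinset)
    (hdom : Dom (verts I.1.length I.2 d t).toFinset (hA I.1) D) {v u : Cd}
    (hv : v ∈ verts I.1.length I.2 d t) (hu : u ∈ verts I.1.length I.2 d t)
    (hvu : Adj' (hA I.1) v u) :
    v ∈ D ∨ ∃ w ∈ D, w ∈ verts I.1.length I.2 d t ∧ Adj' (hA I.1) v w := by
  by_cases hvD : v ∈ D
  · exact Or.inl hvD
  · obtain ⟨w, hw, hvw⟩ := hdom v (List.mem_toFinset.2 hv) hvD ⟨u, List.mem_toFinset.2 hu, hvu⟩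
    exact Or.inr ⟨w, hw, List.mem_toFinset.1 (hD hw), hvw⟩

theorem dom_set (hD : D ⊆ (verts I.1.length I.2 d t).toFinset)
    (hdom : Dom (verts I.1.length I.2 d t).toFinset (hA I.1) D) {s i : ℕ} (hs : s < I.1.length)
    (hi : i + 1 < 9) (h3 : (i + 1) % 3 ≠ 0) :
    ((0, s, i) : Cd) ∈ D ∨ ((0, s, i + 1) : Cd) ∈ D ∨ (i + 2 < 9 ∧ ((0, s, i + 2) : Cd) ∈ D) := by
  have hv : ((0, s, i + 1) : Cd) ∈ verts I.1.length I.2 d t := by
    rw [mem_verts]; exact Or.inl ⟨rfl, hs, hi⟩
  have hu : ((0, s, i) : Cd) ∈ verts I.1.length I.2 d t := by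
    rw [mem_verts]; exact Or.inl ⟨rfl, hs, by omega⟩
  rcases dom_nbr hD hdom hv hu (adj0.2 (Or.inl ⟨rfl, rfl, Or.inr rfl⟩)) with h | ⟨w, hw, hwV, h⟩
  · exact Or.inr (Or.inl h)
  · obtain ⟨c, x, j⟩ := w
    rw [mem_verts] at hwV
    rw [adj0] at h
    rcases h with ⟨rfl, h1, h2 | h2⟩ | h
    · simp only at h1 h2
      subst h1
      subst h2
      exact Or.inr (Or.inr ⟨by omega, hw⟩)
    · simp only at h1 h2
      subst h1
      have h4 : j = i := by omega
      subst h4
      exact Or.inl hw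
    · exact absurd h.2.1 h3

theorem dom_elem (hD : D ⊆ (verts I.1.length I.2 d t).toFinset)
    (hdom : Dom (verts I.1.length I.2 d t).toFinset (hA I.1) D) {a i : ℕ} (ha : a < 3 * I.2)
    (hi : i + 1 < 3 * I.1.length + 1) (h3 : (i + 1) % 3 ≠ 0) :
    ((1, a, i) : Cd) ∈ D ∨ ((1, a, i + 1) : Cd) ∈ D ∨ ((1, a, i + 2) : Cd) ∈ D := by
  have hv : ((1, a, i + 1) : Cd) ∈ verts I.1.length I.2 d t := by
    rw [mem_verts]; exact Or.inr (Or.inl ⟨rfl, ha, hi⟩)
  have hu : ((1, a, i) : Cd) ∈ verts I.1.length I.2 d t := by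
    rw [mem_verts]; exact Or.inr (Or.inl ⟨rfl, ha, by omega⟩)
  rcases dom_nbr hD hdom hv hu (adj1.2 (Or.inl ⟨rfl, rfl, Or.inr rfl⟩)) with h | ⟨w, hw, hwV, h⟩
  · exact Or.inr (Or.inl h)
  · obtain ⟨c, x, j⟩ := w
    rw [mem_verts] at hwV
    rw [adj1] at h
    rcases h with ⟨rfl, h1, h2 | h2⟩ | h
    · simp only at h1 h2
      subst h1
      subst h2
      exact Or.inr (Or.inr hw)
    · simp only at h1 h2
      subst h1
      have h4 : j = i := by omega
      subst h4
      exact Or.inl hw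
    · simp only at h
      omega

theorem dom_term (hD : D ⊆ (verts I.1.length I.2 d t).toFinset)
    (hdom : Dom (verts I.1.length I.2 d t).toFinset (hA I.1) D) {a j : ℕ} (ha : a < 3 * I.2)
    (hm : 0 < I.1.length) (hj : j ≤ I.1.length) :
    ((1, a, 3 * j) : Cd) ∈ D ∨ (j ≠ 0 ∧ ((1, a, 3 * j - 1) : Cd) ∈ D) ∨
      (j ≠ I.1.length ∧ ((1, a, 3 * j + 1) : Cd) ∈ D) ∨
      (j < I.1.length ∧ ∃ r < 3, ((0, j, 3 * r) : Cd) ∈ D ∧ ec I.1 j r = a) := by
  have hv : ((1, a, 3 * j) : Cd) ∈ verts I.1.length I.2 d t := by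
    rw [mem_verts]; exact Or.inr (Or.inl ⟨rfl, ha, by omega⟩)
  have hu : ∃ u ∈ verts I.1.length I.2 d t, Adj' (hA I.1) (1, a, 3 * j) u := by
    by_cases hj0 : j = 0
    · refine ⟨(1, a, 3 * j + 1), ?_, adj1.2 (Or.inl ⟨rfl, rfl, Or.inl rfl⟩)⟩
      rw [mem_verts]; exact Or.inr (Or.inl ⟨rfl, ha, by omega⟩)
    · refine ⟨(1, a, 3 * j - 1), ?_, adj1.2 (Or.inl ⟨rfl, rfl, Or.inr ?_⟩)⟩
      · rw [mem_verts]; exact Or.inr (Or.inl ⟨rfl, ha, by omega⟩)
      · show 3 * j = 3 * j - 1 + 1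
        omega
  obtain ⟨u, hu, hvu⟩ := hu
  rcases dom_nbr hD hdom hv hu hvu with h | ⟨w, hw, hwV, h⟩
  · exact Or.inl h
  · obtain ⟨c, x, i⟩ := w
    rw [mem_verts] at hwV
    rw [adj1] at h
    rcases h with ⟨rfl, h1, h2 | h2⟩ | h
    · simp only at h1 h2
      subst h1
      subst h2
      exact Or.inr (Or.inr (Or.inl ⟨by omega, hw⟩))
    · simp only at h1 h2
      subst h1
      have h4 : i = 3 * j - 1 := by omega
      subst h4
      exact Or.inr (Or.inl ⟨by omega, hw⟩)
    · simp only at h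
      obtain ⟨rfl, h1, h2, h3⟩ := h
      have h4 : x = j := by omega
      subst h4
      refine Or.inr (Or.inr (Or.inr ⟨by omega, i / 3, by omega, ?_, h3⟩))
      have h5 : 3 * (i / 3) = i := by omega
      rw [h5]
      exact hw

theorem dom_star (hD : D ⊆ (verts I.1.length I.2 d t).toFinset)
    (hdom : Dom (verts I.1.length I.2 d t).toFinset (hA I.1) D) {j : ℕ} (hj : j < d) :
    ((2, j, 0) : Cd) ∈ D ∨ ((2, j, 1) : Cd) ∈ D := by
  have hv : ((2, j, 1) : Cd) ∈ verts I.1.length I.2 d t := by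
    rw [mem_verts]; exact Or.inr (Or.inr (Or.inl ⟨rfl, hj, by omega⟩))
  have hu : ((2, j, 0) : Cd) ∈ verts I.1.length I.2 d t := by
    rw [mem_verts]; exact Or.inr (Or.inr (Or.inl ⟨rfl, hj, by omega⟩))
  rcases dom_nbr hD hdom hv hu (adj2.2 ⟨rfl, rfl, Or.inr ⟨by omega, rfl⟩⟩) with
    h | ⟨w, hw, hwV, h⟩
  · exact Or.inr h
  · obtain ⟨c, x, i⟩ := w
    rw [adj2] at h
    simp only at h
    obtain ⟨rfl, rfl, h | ⟨_, rfl⟩⟩ := h
    · omega
    · exact Or.inl hw

theorem x3c_of_dom (hI : X3CPr I) (hD : D ⊆ (verts I.1.length I.2 d t).toFinset)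
    (hdom : Dom (verts I.1.length I.2 d t).toFinset (hA I.1) D)
    (hcard : D.card ≤ budget I.1.length I.2 d) : X3C I := by
  have hm : 0 < I.1.length := by have := hI.2.1; have := hI.2.2; omega
  have k0 : ∀ s ∈ Finset.range I.1.length,
      3 ≤ Nat.count (fun i => ((0, s, i) : Cd) ∈ D) 9 ∧
      (Nat.count (fun i => ((0, s, i) : Cd) ∈ D) 9 = 3 →
        ((0, s, 0) : Cd) ∉ D ∧ ((0, s, 3) : Cd) ∉ D ∧ ((0, s, 6) : Cd) ∉ D) := by
    intro s hs
    rw [Finset.mem_range] at hs
    refine count_set _ ?_ ?_ ?_ ?_ ?_ ?_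
    · rcases dom_set hD hdom (i := 0) hs (by omega) (by omega) with h | h | h
      exacts [Or.inl h, Or.inr (Or.inl h), Or.inr (Or.inr h.2)]
    · rcases dom_set hD hdom (i := 1) hs (by omega) (by omega) with h | h | h
      exacts [Or.inl h, Or.inr (Or.inl h), Or.inr (Or.inr h.2)]
    · rcases dom_set hD hdom (i := 3) hs (by omega) (by omega) with h | h | h
      exacts [Or.inl h, Or.inr (Or.inl h), Or.inr (Or.inr h.2)]
    · rcases dom_set hD hdom (i := 4) hs (by omega) (by omega) with h | h | h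
      exacts [Or.inl h, Or.inr (Or.inl h), Or.inr (Or.inr h.2)]
    · rcases dom_set hD hdom (i := 6) hs (by omega) (by omega) with h | h | h
      exacts [Or.inl h, Or.inr (Or.inl h), Or.inr (Or.inr h.2)]
    · rcases dom_set hD hdom (i := 7) hs (by omega) (by omega) with h | h | h
      exacts [Or.inl h, Or.inr h, absurd h.1 (by omega)]
  have k1 : ∀ a ∈ Finset.range (3 * I.2),
      I.1.length ≤ Nat.count (fun i => ((1, a, i) : Cd) ∈ D) (3 * I.1.length + 1) ∧
      (Nat.count (fun i => ((1, a, i) : Cd) ∈ D) (3 * I.1.length + 1) = I.1.length →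
        ∃ j ≤ I.1.length, ((1, a, 3 * j) : Cd) ∉ D ∧ (j = 0 ∨ ((1, a, 3 * j - 1) : Cd) ∉ D) ∧
          (j = I.1.length ∨ ((1, a, 3 * j + 1) : Cd) ∉ D)) := by
    intro a ha
    rw [Finset.mem_range] at ha
    refine count_elem' (fun i => ((1, a, i) : Cd) ∈ D) I.1.length ?_ ?_
    · intro j hj
      exact dom_elem hD hdom (i := 3 * j) ha (by omega) (by omega)
    · intro j hj
      exact dom_elem hD hdom (i := 3 * j + 1) ha (by omega) (by omega)
  have k2 : ∀ j ∈ Finset.range d, 1 ≤ Nat.count (fun i => ((2, j, i) : Cd) ∈ D) 2 := by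
    intro j hj
    rw [Finset.mem_range] at hj
    rw [Nat.count_succ, Nat.count_succ, Nat.count_zero]
    rcases dom_star hD hdom hj with h | h
    · rw [if_pos h]; omega
    · rw [if_pos h]; omega
  set Ss := (Finset.range I.1.length).filter
    (fun s => 3 < Nat.count (fun i => ((0, s, i) : Cd) ∈ D) 9) with hSs
  set B := (Finset.range (3 * I.2)).filter
    (fun a => I.1.length < Nat.count (fun i => ((1, a, i) : Cd) ∈ D) (3 * I.1.length + 1)) with hB
  have s0 : I.1.length * 3 + Ss.card ≤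
      ∑ s ∈ Finset.range I.1.length, Nat.count (fun i => ((0, s, i) : Cd) ∈ D) 9 := by
    have h1 : ∑ s ∈ Finset.range I.1.length,
        (3 + if 3 < Nat.count (fun i => ((0, s, i) : Cd) ∈ D) 9 then 1 else 0) ≤
        ∑ s ∈ Finset.range I.1.length, Nat.count (fun i => ((0, s, i) : Cd) ∈ D) 9 := by
      refine Finset.sum_le_sum fun s hs => ?_
      have := (k0 s hs).1
      split_ifs <;> omega
    rw [Finset.sum_add_distrib, Finset.sum_const, Finset.card_range, smul_eq_mul,
      ← Finset.card_filter] at h1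
    exact h1
  have s1 : 3 * I.2 * I.1.length + B.card ≤
      ∑ a ∈ Finset.range (3 * I.2),
        Nat.count (fun i => ((1, a, i) : Cd) ∈ D) (3 * I.1.length + 1) := by
    have h1 : ∑ a ∈ Finset.range (3 * I.2), (I.1.length +
        if I.1.length < Nat.count (fun i => ((1, a, i) : Cd) ∈ D) (3 * I.1.length + 1)
          then 1 else 0) ≤
        ∑ a ∈ Finset.range (3 * I.2),
          Nat.count (fun i => ((1, a, i) : Cd) ∈ D) (3 * I.1.length + 1) := by
      refine Finset.sum_le_sum fun s hs => ?_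
      have := (k1 s hs).1
      split_ifs <;> omega
    rw [Finset.sum_add_distrib, Finset.sum_const, Finset.card_range, smul_eq_mul,
      ← Finset.card_filter] at h1
    exact h1
  have s2 : d ≤ ∑ j ∈ Finset.range d, Nat.count (fun i => ((2, j, i) : Cd) ∈ D) 2 := by
    have h1 : ∑ _j ∈ Finset.range d, 1 ≤
        ∑ j ∈ Finset.range d, Nat.count (fun i => ((2, j, i) : Cd) ∈ D) 2 :=
      Finset.sum_le_sum k2
    simpa using h1
  have t0 := card_grid D 0 I.1.length 9
  have t1 := card_grid D 1 (3 * I.2) (3 * I.1.length + 1)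
  have t2 := card_grid D 2 d 2
  have t3 := card_three D
  have hsum : Ss.card + B.card ≤ I.2 := by
    unfold budget at hcard
    omega
  have hext : ∀ a < 3 * I.2, a ∉ B → ∃ s ∈ Ss, ∃ r < 3, ec I.1 s r = a := by
    intro a ha haB
    have ha' := Finset.mem_range.2 ha
    have h1 : Nat.count (fun i => ((1, a, i) : Cd) ∈ D) (3 * I.1.length + 1) = I.1.length := by
      have h2 := (k1 a ha').1
      have h3 : ¬ I.1.length < Nat.count (fun i => ((1, a, i) : Cd) ∈ D) (3 * I.1.length + 1) :=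
        fun h => haB (Finset.mem_filter.2 ⟨ha', h⟩)
      omega
    obtain ⟨j, hj, h2, h3, h4⟩ := (k1 a ha').2 h1
    rcases dom_term hD hdom ha hm hj with h5 | h5 | h5 | ⟨hjm, r, hr, h5, h6⟩
    · exact absurd h5 h2
    · rcases h3 with h3 | h3
      · exact absurd h3 h5.1
      · exact absurd h5.2 h3
    · rcases h4 with h4 | h4
      · exact absurd h4 h5.1
      · exact absurd h5.2 h4
    · refine ⟨j, Finset.mem_filter.2 ⟨Finset.mem_range.2 hjm, ?_⟩, r, hr, h6⟩
      obtain ⟨g1, g2⟩ := k0 j (Finset.mem_range.2 hjm)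
      by_contra hcon
      obtain ⟨g3, g4, g5⟩ := g2 (by omega)
      have : r = 0 ∨ r = 1 ∨ r = 2 := by omega
      rcases this with rfl | rfl | rfl
      · exact g3 h5
      · exact g4 h5
      · exact g5 h5
  have hcov : 3 * I.2 ≤ B.card + 3 * Ss.card := by
    have h1 : Finset.range (3 * I.2) ⊆
        B ∪ (Ss ×ˢ Finset.range 3).image (fun p => ec I.1 p.1 p.2) := by
      intro a ha
      by_cases haB : a ∈ B
      · exact Finset.mem_union_left _ haB
      · obtain ⟨s, hs, r, hr, h⟩ := hext a (Finset.mem_range.1 ha) haB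
        exact Finset.mem_union_right _ (Finset.mem_image.2
          ⟨(s, r), Finset.mem_product.2 ⟨hs, Finset.mem_range.2 hr⟩, h⟩)
    have h2 := (Finset.card_le_card h1).trans (Finset.card_union_le _ _)
    have h3 : ((Ss ×ˢ Finset.range 3).image (fun p => ec I.1 p.1 p.2)).card ≤ Ss.card * 3 := by
      refine Finset.card_image_le.trans ?_
      rw [Finset.card_product, Finset.card_range]
    rw [Finset.card_range] at h2
    omega
  have hB0 : B = ∅ := by
    rw [← Finset.card_eq_zero]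
    omega
  refine x3c_of_cover Ss (fun s hs => Finset.mem_range.1 (Finset.mem_filter.1 hs).1) (by omega)
    fun a ha => hext a ha (by rw [hB0]; simp)

end Back

end Pool.Agent.H640.PDS
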