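import Pool.Agent.Helper640.PDS.Sub

/-!
# The base graph encoding exact cover by 3-sets: definitions and sums
-/

namespace Pool.Agent.H640.PDS

open Pool.Agent.NPC Pool.Agent.H692R2 Pool.Agent.NPC.H632 Pool.Agent.H673R2

/-! ### Parameters -/

def pW (m q : ℕ) : ℕ := 1 + 10 * q + 6 * (q * m)

def pX' (m q : ℕ) : ℕ :=
  2 + 3 * (q * (m + 2)) + m + 3 * (q * (m + pW m q)) + 3 * (m * m + 2 * m)

def pB (m q : ℕ) : ℕ := pX' m q + 1

def pX (m q : ℕ) : ℕ := pX' m q + 6 * (q * pB m q)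

def pY (m q : ℕ) : ℕ := pW m q + 6 * (q * pB m q)

def pZ (m q : ℕ) : ℕ := 2 * pY m q + 1

def pM (m q : ℕ) : ℕ := 2 * pX m q + pY m q + 3

def pg (m q : ℕ) : ℕ := pX m q + pY m q + 1

/-! ### The base graph -/

/-- first end vertex -/
def sr (S : List Cd) (q : ℕ) (e : Cd) : Cd :=
  if e.1 = 0 then (if e.2.1 = 0 then (0, 0, 0) else (1, e.2.1 - 1, 0))
  else if e.1 = 1 then (1, e.2.1, e.2.2)
  else if e.1 = 2 then (1, ec S e.2.1 e.2.2, e.2.1 + 1)
  else if e.1 = 3 then (1, 3 * q - 1, 0) else (3, 0, 0)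

/-- second end vertex -/
def ds (e : Cd) : Cd :=
  if e.1 = 0 then (1, e.2.1, 0)
  else if e.1 = 1 then (1, e.2.1, e.2.2 + 1)
  else if e.1 = 2 then (2, e.2.1, 0) else (0, 0, 0)

/-- lengths -/
def ln (m q : ℕ) (e : Cd) : ℕ :=
  if e.1 = 0 then pB m q
  else if e.1 = 1 then (if e.2.2 = 0 then pB m q else if e.2.2 = m then pW m q + 1 else 1)
  else if e.1 = 2 then 2 * (m - e.2.1) + 1
  else if e.1 = 3 then pM m q else pZ m q

/-! ### Families of codes -/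

/-- a family of codes -/
def uni (n : ℕ) (A : ℕ → Finset ℕ) (R : ℕ → ℕ → Finset ℕ) : Finset Cd :=
  ((Finset.range n).sigma (fun k => (A k).sigma (R k))).image (fun p => (p.1, p.2.1, p.2.2))

theorem mem_uni {n : ℕ} {A : ℕ → Finset ℕ} {R : ℕ → ℕ → Finset ℕ} {c x i : ℕ} :
    ((c, x, i) : Cd) ∈ uni n A R ↔ c < n ∧ x ∈ A c ∧ i ∈ R c x := by
  unfold uni
  simp only [Finset.mem_image, Finset.mem_sigma, Finset.mem_range, Prod.mk.injEq]
  constructor
  · rintro ⟨⟨k, y, j⟩, ⟨h1, h2, h3⟩, rfl, rfl, rfl⟩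
    exact ⟨h1, h2, h3⟩
  · rintro ⟨h1, h2, h3⟩
    exact ⟨⟨c, x, i⟩, ⟨h1, h2, h3⟩, rfl, rfl, rfl⟩

theorem sum_uni (n : ℕ) (A : ℕ → Finset ℕ) (R : ℕ → ℕ → Finset ℕ) (f : Cd → ℕ) :
    ∑ v ∈ uni n A R, f v = ∑ k ∈ Finset.range n, ∑ x ∈ A k, ∑ i ∈ R k x, f (k, x, i) := by
  unfold uni
  rw [Finset.sum_image, Finset.sum_sigma]
  · refine Finset.sum_congr rfl fun k _ => ?_
    rw [Finset.sum_sigma]
  · rintro ⟨k, y, j⟩ _ ⟨k', y', j'⟩ _ h
    simp only [Prod.mk.injEq] at h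
    obtain ⟨rfl, rfl, rfl⟩ := h
    rfl

/-- branch vertices -/
def bset (q : ℕ) (J : ℕ → ℕ) (H Lf : Finset ℕ) : Finset Cd :=
  uni 4 (fun k => if k = 0 then Finset.range 1 else if k = 1 then Finset.range (3 * q)
    else if k = 2 then H else Lf)
    (fun k x => if k = 1 then Finset.range (J x) else Finset.range 1)

theorem mem_bset {q : ℕ} {J : ℕ → ℕ} {H Lf : Finset ℕ} {c x i : ℕ} :
    ((c, x, i) : Cd) ∈ bset q J H Lf ↔ (c = 0 ∧ x = 0 ∧ i = 0) ∨ (c = 1 ∧ x < 3 * q ∧ i < J x) ∨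
      (c = 2 ∧ x ∈ H ∧ i = 0) ∨ (c = 3 ∧ x ∈ Lf ∧ i = 0) := by
  unfold bset
  rw [mem_uni]
  have hc : c = 0 ∨ c = 1 ∨ c = 2 ∨ c = 3 ∨ 4 ≤ c := by omega
  rcases hc with rfl | rfl | rfl | rfl | hc
  · simp
  · simp
  · simp
  · simp
  · constructor
    · rintro ⟨h, _⟩; omega
    · intro h; omega

theorem sum_bset (q : ℕ) (J : ℕ → ℕ) (H Lf : Finset ℕ) (f : Cd → ℕ) :
    ∑ v ∈ bset q J H Lf, f v = f (0, 0, 0) +
      ∑ a ∈ Finset.range (3 * q), ∑ j ∈ Finset.range (J a), f (1, a, j) +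
      ∑ s ∈ H, f (2, s, 0) + ∑ x ∈ Lf, f (3, x, 0) := by
  unfold bset
  rw [sum_uni, Finset.sum_range_succ, Finset.sum_range_succ, Finset.sum_range_succ,
    Finset.sum_range_succ, Finset.sum_range_zero]
  simp

/-- edges -/
def eset (q : ℕ) (J : ℕ → ℕ) (H Lf : Finset ℕ) : Finset Cd :=
  uni 5 (fun k => if k = 0 then Finset.range (3 * q) else if k = 1 then Finset.range (3 * q)
    else if k = 2 then H else if k = 3 then Finset.range 1 else Lf)
    (fun k x => if k = 1 then Finset.range (J x) else if k = 2 then Finset.range 3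
      else Finset.range 1)

theorem mem_eset {q : ℕ} {J : ℕ → ℕ} {H Lf : Finset ℕ} {c x i : ℕ} :
    ((c, x, i) : Cd) ∈ eset q J H Lf ↔ (c = 0 ∧ x < 3 * q ∧ i = 0) ∨
      (c = 1 ∧ x < 3 * q ∧ i < J x) ∨ (c = 2 ∧ x ∈ H ∧ i < 3) ∨ (c = 3 ∧ x = 0 ∧ i = 0) ∨
      (c = 4 ∧ x ∈ Lf ∧ i = 0) := by
  unfold eset
  rw [mem_uni]
  have hc : c = 0 ∨ c = 1 ∨ c = 2 ∨ c = 3 ∨ c = 4 ∨ 5 ≤ c := by omega
  rcases hc with rfl | rfl | rfl | rfl | rfl | hc
  · simp
  · simp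
  · simp
  · simp
  · simp
  · constructor
    · rintro ⟨h, _⟩; omega
    · intro h; omega

theorem sum_eset (q : ℕ) (J : ℕ → ℕ) (H Lf : Finset ℕ) (f : Cd → ℕ) :
    ∑ v ∈ eset q J H Lf, f v = ∑ a ∈ Finset.range (3 * q), f (0, a, 0) +
      ∑ a ∈ Finset.range (3 * q), ∑ j ∈ Finset.range (J a), f (1, a, j) +
      ∑ s ∈ H, ∑ r ∈ Finset.range 3, f (2, s, r) + f (3, 0, 0) + ∑ x ∈ Lf, f (4, x, 0) := by
  unfold eset
  rw [sum_uni, Finset.sum_range_succ, Finset.sum_range_succ, Finset.sum_range_succ,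
    Finset.sum_range_succ, Finset.sum_range_succ, Finset.sum_range_zero]
  simp

/-! ### Sums of lengths -/

theorem ln0 (m q x i : ℕ) : ln m q (0, x, i) = pB m q := rfl

theorem ln1_zero (m q x : ℕ) : ln m q (1, x, 0) = pB m q := rfl

theorem ln1_last {m q x : ℕ} (hm : 0 < m) : ln m q (1, x, m) = pW m q + 1 := by
  unfold ln
  simp [hm.ne']

theorem ln1_mid {m q x i : ℕ} (h0 : i ≠ 0) (hm : i ≠ m) : ln m q (1, x, i) = 1 := by
  unfold ln
  simp [h0, hm]

theorem ln2 (m q x i : ℕ) : ln m q (2, x, i) = 2 * (m - x) + 1 := rfl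

theorem ln3 (m q x i : ℕ) : ln m q (3, x, i) = pM m q := rfl

theorem ln4 (m q x i : ℕ) : ln m q (4, x, i) = pZ m q := rfl

theorem sum_spine {m q x s : ℕ} (hs : s < m) :
    ∑ j ∈ Finset.range (s + 1), ln m q (1, x, j) = pB m q + s := by
  rw [Finset.sum_range_succ', ln1_zero]
  have : ∀ j ∈ Finset.range s, ln m q (1, x, j + 1) = 1 := by
    intro j hj
    rw [Finset.mem_range] at hj
    exact ln1_mid (by omega) (by omega)
  rw [Finset.sum_congr rfl this]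
  simp [add_comm]

theorem sum_spine_all {m q x : ℕ} (hm : 0 < m) :
    ∑ j ∈ Finset.range (m + 1), ln m q (1, x, j) = pB m q + m + pW m q := by
  obtain ⟨m', rfl⟩ : ∃ m', m = m' + 1 := ⟨m - 1, by omega⟩
  rw [Finset.sum_range_succ, sum_spine (by omega), ln1_last hm]
  omega

theorem sum_arms (m : ℕ) : ∑ s ∈ Finset.range m, (2 * (m - s) + 1) = m * m + 2 * m := by
  induction m with
  | zero => rfl
  | succ m ih =>
    rw [Finset.sum_range_succ']
    have : ∀ j ∈ Finset.range m, 2 * (m + 1 - (j + 1)) + 1 = 2 * (m - j) + 1 := by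
      intro j _
      omega
    rw [Finset.sum_congr rfl this, ih]
    simp only [Nat.sub_zero]
    ring

theorem card_B (m q : ℕ) :
    (bset q (fun _ => m + 2) (Finset.range m) (Finset.range 1)).card =
      2 + 3 * (q * (m + 2)) + m := by
  rw [Finset.card_eq_sum_ones, sum_bset]
  simp
  ring

theorem sum_E {m q : ℕ} (hm : 0 < m) :
    ∑ e ∈ eset q (fun _ => m + 1) (Finset.range m) (Finset.range 1), ln m q e =
      3 * (q * pB m q) + 3 * (q * (pB m q + m + pW m q)) + 3 * (m * m + 2 * m) + pM m q +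
        pZ m q := by
  rw [sum_eset]
  have h1 : ∀ a ∈ Finset.range (3 * q), ∑ j ∈ Finset.range (m + 1), ln m q (1, a, j) =
      pB m q + m + pW m q := fun a _ => sum_spine_all hm
  have h2 : ∀ s ∈ Finset.range m, ∑ r ∈ Finset.range 3, ln m q (2, s, r) =
      3 * (2 * (m - s) + 1) := fun s _ => by
    simp only [ln2, Finset.sum_const, Finset.card_range, smul_eq_mul]
  rw [Finset.sum_congr rfl h1, Finset.sum_congr rfl h2, ← Finset.mul_sum, sum_arms]
  simp only [ln0, ln3, ln4, Finset.sum_const, Finset.card_range, smul_eq_mul]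
  ring

theorem total {m q : ℕ} (hm : 0 < m) :
    (bset q (fun _ => m + 2) (Finset.range m) (Finset.range 1)).card +
      ∑ e ∈ eset q (fun _ => m + 1) (Finset.range m) (Finset.range 1), ln m q e =
      3 * pg m q + 1 := by
  rw [card_B, sum_E hm]
  have e1 : 3 * (q * (pB m q + m + pW m q)) = 3 * (q * pB m q) + 3 * (q * (m + pW m q)) := by ring
  have e2 : pX' m q =
    2 + 3 * (q * (m + 2)) + m + 3 * (q * (m + pW m q)) + 3 * (m * m + 2 * m) := rfl
  have e3 : pX m q = pX' m q + 6 * (q * pB m q) := rfl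
  have e4 : pZ m q = 2 * pY m q + 1 := rfl
  have e5 : pM m q = 2 * pX m q + pY m q + 3 := rfl
  have e6 : pg m q = pX m q + pY m q + 1 := rfl
  omega

/-- sizes of partial solutions -/
theorem card_U (q : ℕ) (σ : ℕ → ℕ) (H : Finset ℕ) :
    (bset q (fun a => σ a + 2) H ∅).card =
      1 + ∑ a ∈ Finset.range (3 * q), (σ a + 2) + H.card := by
  rw [Finset.card_eq_sum_ones, sum_bset]
  simp

theorem sum_F {m q : ℕ} (σ : ℕ → ℕ) (hσ : ∀ a < 3 * q, σ a < m) (H : Finset ℕ) :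
    ∑ e ∈ eset q (fun a => σ a + 1) H ∅, ln m q e =
      3 * (q * pB m q) + ∑ a ∈ Finset.range (3 * q), (pB m q + σ a) +
        ∑ s ∈ H, ∑ _r ∈ Finset.range 3, (2 * (m - s) + 1) + pM m q := by
  rw [sum_eset]
  have h1 : ∀ a ∈ Finset.range (3 * q), ∑ j ∈ Finset.range (σ a + 1), ln m q (1, a, j) =
      pB m q + σ a := fun a ha => sum_spine (hσ a (Finset.mem_range.1 ha))
  rw [Finset.sum_congr rfl h1]
  simp only [ln0, ln2, ln3, ln4, Finset.sum_const, Finset.card_range, smul_eq_mul,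
    Finset.card_empty, zero_mul, add_zero, mul_one, mul_assoc]

theorem sum_elems {m q : ℕ} (σ : ℕ → ℕ) (hσ : ∀ a < 3 * q, σ a < m) :
    ∑ a ∈ Finset.range (3 * q), (σ a + 2) + ∑ a ∈ Finset.range (3 * q), (pB m q + σ a) +
      ∑ a ∈ Finset.range (3 * q), (2 * (m - σ a) + 1) =
      3 * (q * pB m q) + 6 * (q * m) + 9 * q := by
  rw [← Finset.sum_add_distrib, ← Finset.sum_add_distrib]
  have h1 : ∀ a ∈ Finset.range (3 * q), σ a + 2 + (pB m q + σ a) + (2 * (m - σ a) + 1) =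
      pB m q + 2 * m + 3 := by
    intro a ha
    have := hσ a (Finset.mem_range.1 ha)
    omega
  rw [Finset.sum_congr rfl h1, Finset.sum_const, Finset.card_range, smul_eq_mul]
  ring

theorem pg_eq (m q : ℕ) : 2 * pg m q + 1 =
    pM m q + (1 + 10 * q + 6 * (q * m) + 6 * (q * pB m q)) := by
  have e4 : pY m q = pW m q + 6 * (q * pB m q) := rfl
  have e5 : pM m q = 2 * pX m q + pY m q + 3 := rfl
  have e6 : pg m q = pX m q + pY m q + 1 := rfl
  have e7 : pW m q = 1 + 10 * q + 6 * (q * m) := rfl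
  omega

end Pool.Agent.H640.PDS
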