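import Pool.Agent.Helper640.PDS.GadP

/-!
# From proportionally dense subgraphs to covers
-/

namespace Pool.Agent.H640.PDS

open Pool.Agent.NPC Pool.Agent.H692R2 Pool.Agent.NPC.H632 Pool.Agent.H673R2

section G

variable {I : List Cd × ℕ} (hI : X3CPr I)

theorem gad_total : (gad hI).B.card + ∑ e ∈ (gad hI).E, (gad hI).len e =
    3 * pg I.1.length I.2 + 1 := total (pr_pos hI)

theorem len_link (a : ℕ) : (gad hI).len (1, a, 0) = pB I.1.length I.2 := rfl

theorem len_bb : (gad hI).len (3, 0, 0) = pM I.1.length I.2 := rfl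

theorem len_fil : (gad hI).len (4, 0, 0) = pZ I.1.length I.2 := rfl

theorem len_dead (a : ℕ) : (gad hI).len (1, a, I.1.length) = pW I.1.length I.2 + 1 :=
  ln1_last (pr_pos hI)

theorem bb_mem : ((3, 0, 0) : Cd) ∈ (gad hI).E := mem_E.2 (by simp)

theorem fil_mem : ((4, 0, 0) : Cd) ∈ (gad hI).E := mem_E.2 (by simp)

theorem spine_mem {a j : ℕ} (ha : a < 3 * I.2) (hj : j ≤ I.1.length) :
    ((1, a, j) : Cd) ∈ (gad hI).E := mem_E.2 (Or.inr (Or.inl ⟨rfl, ha, by omega⟩))

variable {hI} {U F : Finset Cd}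

theorem bb_F (hP : (gad hI).Part U F)
    (hs : U.card + ∑ e ∈ F, (gad hI).len e = 2 * pg I.1.length I.2 + 1) :
    ((3, 0, 0) : Cd) ∈ F := by
  by_contra h
  have h1 : F ⊆ (gad hI).E.erase (3, 0, 0) := by
    intro e he
    exact Finset.mem_erase.2 ⟨fun h2 => h (h2 ▸ he), hP.subF he⟩
  have h2 := Finset.sum_le_sum_of_subset (f := (gad hI).len) h1
  have h3 := Finset.add_sum_erase (gad hI).E (gad hI).len (bb_mem hI)
  have h4 := gad_total hI
  have h5 := Finset.card_le_card hP.subU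
  rw [len_bb] at h3
  have e5 : pM I.1.length I.2 = 2 * pX I.1.length I.2 + pY I.1.length I.2 + 3 := rfl
  have e6 : pg I.1.length I.2 = pX I.1.length I.2 + pY I.1.length I.2 + 1 := rfl
  omega

theorem fil_F (hP : (gad hI).Part U F)
    (hs : U.card + ∑ e ∈ F, (gad hI).len e = 2 * pg I.1.length I.2 + 1) :
    ((4, 0, 0) : Cd) ∉ F := by
  intro h
  have h1 : ({(3, 0, 0), (4, 0, 0)} : Finset Cd) ⊆ F := by
    intro e he
    rw [Finset.mem_insert, Finset.mem_singleton] at he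
    rcases he with rfl | rfl
    · exact bb_F hP hs
    · exact h
  have h2 := Finset.sum_le_sum_of_subset (f := (gad hI).len) h1
  rw [Finset.sum_pair (by simp), len_bb, len_fil] at h2
  have e4 : pZ I.1.length I.2 = 2 * pY I.1.length I.2 + 1 := rfl
  have e5 : pM I.1.length I.2 = 2 * pX I.1.length I.2 + pY I.1.length I.2 + 3 := rfl
  have e6 : pg I.1.length I.2 = pX I.1.length I.2 + pY I.1.length I.2 + 1 := rfl
  omega

theorem heavy_F (hP : (gad hI).Part U F)
    (hs : U.card + ∑ e ∈ F, (gad hI).len e = 2 * pg I.1.length I.2 + 1) {e : Cd}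
    (he : e ∈ (gad hI).E) (hne : e ≠ (4, 0, 0)) (hlen : (gad hI).len e = pB I.1.length I.2) :
    e ∈ F := by
  by_contra h
  have hf := fil_F hP hs
  have h1 : F ⊆ ((gad hI).E.erase (4, 0, 0)).erase e := by
    intro e' he'
    exact Finset.mem_erase.2 ⟨fun h2 => h (h2 ▸ he'),
      Finset.mem_erase.2 ⟨fun h2 => hf (h2 ▸ he'), hP.subF he'⟩⟩
  have h2 := Finset.sum_le_sum_of_subset (f := (gad hI).len) h1
  have h3 := Finset.add_sum_erase (gad hI).E (gad hI).len (fil_mem hI)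
  have h3' := Finset.add_sum_erase ((gad hI).E.erase (4, 0, 0)) (gad hI).len
    (a := e) (Finset.mem_erase.2 ⟨hne, he⟩)
  have h4 := gad_total hI
  have h5 := Finset.card_le_card hP.subU
  rw [len_fil] at h3
  rw [hlen] at h3'
  have e2 : pB I.1.length I.2 = pX' I.1.length I.2 + 1 := rfl
  have e3 : pX I.1.length I.2 = pX' I.1.length I.2 + 6 * (I.2 * pB I.1.length I.2) := rfl
  have e3' : pY I.1.length I.2 = pW I.1.length I.2 + 6 * (I.2 * pB I.1.length I.2) := rfl
  have e4 : pZ I.1.length I.2 = 2 * pY I.1.length I.2 + 1 := rfl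
  have e6 : pg I.1.length I.2 = pX I.1.length I.2 + pY I.1.length I.2 + 1 := rfl
  omega

theorem link_F (hP : (gad hI).Part U F)
    (hs : U.card + ∑ e ∈ F, (gad hI).len e = 2 * pg I.1.length I.2 + 1) {a : ℕ}
    (ha : a < 3 * I.2) : ((1, a, 0) : Cd) ∈ F :=
  heavy_F hP hs (spine_mem hI ha (by omega)) (by simp) rfl

theorem ring_F (hP : (gad hI).Part U F)
    (hs : U.card + ∑ e ∈ F, (gad hI).len e = 2 * pg I.1.length I.2 + 1) {a : ℕ}
    (ha : a < 3 * I.2) : ((0, a, 0) : Cd) ∈ F :=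
  heavy_F hP hs (mem_E.2 (Or.inl ⟨rfl, ha, rfl⟩)) (by simp) rfl

theorem dead_F (hP : (gad hI).Part U F)
    (hs : U.card + ∑ e ∈ F, (gad hI).len e = 2 * pg I.1.length I.2 + 1) {a : ℕ} :
    ((1, a, I.1.length) : Cd) ∉ F := by
  intro h
  have hm := pr_pos hI
  have h1 : insert (3, 0, 0) (insert (1, a, I.1.length)
      ((Finset.range 2 ×ˢ Finset.range (3 * I.2)).image (fun p => ((p.1, p.2, 0) : Cd)))) ⊆ F := by
    intro e he
    rw [Finset.mem_insert, Finset.mem_insert] at he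
    rcases he with rfl | rfl | he
    · exact bb_F hP hs
    · exact h
    · obtain ⟨⟨k, b⟩, hb, rfl⟩ := Finset.mem_image.1 he
      rw [Finset.mem_product, Finset.mem_range, Finset.mem_range] at hb
      obtain ⟨hk, hb⟩ := hb
      have hk' : k = 0 ∨ k = 1 := by
        simp only at hk
        omega
      rcases hk' with rfl | rfl
      · exact ring_F hP hs hb
      · exact link_F hP hs hb
  have h2 := Finset.sum_le_sum_of_subset (f := (gad hI).len) h1
  rw [Finset.sum_insert, Finset.sum_insert, Finset.sum_image, len_bb, len_dead] at h2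
  · have h3 : ∑ p ∈ Finset.range 2 ×ˢ Finset.range (3 * I.2), (gad hI).len (p.1, p.2, 0) =
        6 * (I.2 * pB I.1.length I.2) := by
      rw [Finset.sum_product, Finset.sum_range_succ, Finset.sum_range_succ, Finset.sum_range_zero]
      have g0 : ∀ x ∈ Finset.range (3 * I.2), (gad hI).len (0, x, 0) = pB I.1.length I.2 :=
        fun _ _ => rfl
      have g1 : ∀ x ∈ Finset.range (3 * I.2), (gad hI).len (1, x, 0) = pB I.1.length I.2 :=
        fun _ _ => rfl
      rw [Finset.sum_congr rfl g0, Finset.sum_congr rfl g1]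
      simp only [Finset.sum_const, Finset.card_range, smul_eq_mul]
      ring
    have e1 := pg_eq I.1.length I.2
    have e0 : pW I.1.length I.2 = 1 + 10 * I.2 + 6 * (I.2 * I.1.length) := rfl
    omega
  · rintro ⟨x, y⟩ _ ⟨x', y'⟩ _ hxy
    simpa using hxy
  · intro hx
    obtain ⟨b, _, hb⟩ := Finset.mem_image.1 hx
    simp only [Prod.mk.injEq] at hb
    omega
  · intro hx
    rw [Finset.mem_insert] at hx
    rcases hx with hx | hx
    · simp at hx
    · obtain ⟨b, hb, hb'⟩ := Finset.mem_image.1 hx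
      rw [Finset.mem_product, Finset.mem_range] at hb
      simp only [Prod.mk.injEq] at hb'
      omega

theorem exit_F (hP : (gad hI).Part U F)
    (hs : U.card + ∑ e ∈ F, (gad hI).len e = 2 * pg I.1.length I.2 + 1) {a : ℕ}
    (ha : a < 3 * I.2) : ∃ s < I.1.length, ∃ r < 3, (∀ j ≤ s, ((1, a, j) : Cd) ∈ F) ∧
      ((2, s, r) : Cd) ∈ F ∧ ec I.1 s r = a := by
  have hex : ∃ j, ((1, a, j) : Cd) ∉ F := ⟨_, dead_F hP hs⟩
  have h1 := Nat.find_spec hex
  have h2 : Nat.find hex ≤ I.1.length := Nat.find_min' hex (dead_F hP hs)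
  have h3 : Nat.find hex ≠ 0 := by
    intro h0
    rw [h0] at h1
    exact h1 (link_F hP hs ha)
  obtain ⟨s, hs'⟩ : ∃ s, Nat.find hex = s + 1 := ⟨Nat.find hex - 1, by omega⟩
  have h4 : ∀ j ≤ s, ((1, a, j) : Cd) ∈ F := by
    intro j hj
    have := Nat.find_min hex (m := j) (by omega)
    simpa using this
  rw [hs'] at h1 h2
  have hU : ((1, a, s + 1) : Cd) ∈ U := (hP.ends _ (h4 s le_rfl)).2
  obtain ⟨e1, he1, e2, he2, hne, hi1, hi2⟩ := hP.two _ hU (1, a, s + 1)
    (spine_mem hI ha h2) h1 (Or.inl rfl)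
  have key : ∀ e ∈ F, (gad hI).inc e (1, a, s + 1) → e = (1, a, s) ∨
      ∃ r < 3, ((2, s, r) : Cd) ∈ F ∧ ec I.1 s r = a := by
    rintro ⟨c, x, i⟩ he hinc
    rcases inc1s hI (hP.subF he) hinc with h | h | ⟨rfl, rfl, h5, h6, h7⟩
    · exact Or.inl h
    · rw [h] at he
      exact absurd he h1
    · exact Or.inr ⟨i, h5, he, h7⟩
  have h8 : ∃ r < 3, ((2, s, r) : Cd) ∈ F ∧ ec I.1 s r = a := by
    rcases key e1 he1 hi1 with g1 | g1
    · rcases key e2 he2 hi2 with g2 | g2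
      · exact absurd (g1.trans g2.symm) hne
      · exact g2
    · exact g1
  obtain ⟨r, hr, h9, h10⟩ := h8
  exact ⟨s, by omega, r, hr, h4, h9, h10⟩

theorem x3c_of_part (hP : (gad hI).Part U F)
    (hs : U.card + ∑ e ∈ F, (gad hI).len e = 2 * pg I.1.length I.2 + 1) : X3C I := by
  classical
  have hex : ∀ a, ∃ p : ℕ × ℕ, a < 3 * I.2 → p.1 < I.1.length ∧ p.2 < 3 ∧
      (∀ j ≤ p.1, ((1, a, j) : Cd) ∈ F) ∧ ((2, p.1, p.2) : Cd) ∈ F ∧ ec I.1 p.1 p.2 = a := by
    intro a
    by_cases ha : a < 3 * I.2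
    · obtain ⟨s, h1, r, h2, h3, h4, h5⟩ := exit_F hP hs ha
      exact ⟨(s, r), fun _ => ⟨h1, h2, h3, h4, h5⟩⟩
    · exact ⟨(0, 0), fun h => absurd h ha⟩
  choose p hp using hex
  set Hs := (Finset.range I.1.length).filter (fun s => ((2, s, 0) : Cd) ∈ U) with hHs
  have hU0 : bset I.2 (fun a => (p a).1 + 2) Hs ∅ ⊆ U := by
    rintro ⟨c, x, i⟩ hv
    rw [mem_bset] at hv
    rcases hv with ⟨rfl, rfl, rfl⟩ | ⟨rfl, hx, hi⟩ | ⟨rfl, hx, rfl⟩ | ⟨rfl, hx, rfl⟩
    · exact (hP.ends _ (bb_F hP hs)).2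
    · obtain ⟨h1, h2, h3, h4, h5⟩ := hp x hx
      rcases i with _ | i
      · exact (hP.ends _ (h3 0 (by omega))).1
      · exact (hP.ends _ (h3 i (by omega))).2
    · exact (Finset.mem_filter.1 hx).2
    · simp at hx
  have hF0 : eset I.2 (fun a => (p a).1 + 1) ∅ ∅ ∪
      (Finset.range (3 * I.2)).image (fun a => ((2, (p a).1, (p a).2) : Cd)) ⊆ F := by
    intro v hv
    rw [Finset.mem_union] at hv
    rcases hv with hv | hv
    · obtain ⟨c, x, i⟩ := v
      rw [mem_eset] at hv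
      rcases hv with ⟨rfl, hx, rfl⟩ | ⟨rfl, hx, hi⟩ | ⟨rfl, hx, hi⟩ | ⟨rfl, rfl, rfl⟩ |
        ⟨rfl, hx, rfl⟩
      · exact ring_F hP hs hx
      · exact (hp x hx).2.2.1 i (by omega)
      · simp at hx
      · exact bb_F hP hs
      · simp at hx
    · obtain ⟨a, ha, rfl⟩ := Finset.mem_image.1 hv
      exact (hp a (Finset.mem_range.1 ha)).2.2.2.1
  have hlt : ∀ a < 3 * I.2, (p a).1 < I.1.length := fun a ha => (hp a ha).1
  have h1 := Finset.card_le_card hU0
  have h2 := Finset.sum_le_sum_of_subset (f := (gad hI).len) hF0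
  rw [Finset.sum_union, Finset.sum_image] at h2
  · rw [card_U] at h1
    have h3 := sum_F (q := I.2) (fun a => (p a).1) hlt ∅
    have h4 := sum_elems (q := I.2) (fun a => (p a).1) hlt
    have h5 := pg_eq I.1.length I.2
    change ∑ e ∈ eset I.2 (fun a => (p a).1 + 1) ∅ ∅, ln I.1.length I.2 e +
      ∑ a ∈ Finset.range (3 * I.2), (2 * (I.1.length - (p a).1) + 1) ≤ _ at h2
    rw [h3, Finset.sum_empty] at h2
    have h6 : Hs.card ≤ I.2 := by omega
    refine x3c_of_cover Hs (fun s hs' => Finset.mem_range.1 (Finset.mem_filter.1 hs').1) h6 ?_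
    intro a ha
    obtain ⟨g1, g2, g3, g4, g5⟩ := hp a ha
    exact ⟨(p a).1, Finset.mem_filter.2 ⟨Finset.mem_range.2 g1, (hP.ends _ g4).2⟩, (p a).2, g2, g5⟩
  · intro a ha b hb hab
    simp only [Prod.mk.injEq, true_and] at hab
    have g1 := (hp a (Finset.mem_range.1 ha)).2.2.2.2
    have g2 := (hp b (Finset.mem_range.1 hb)).2.2.2.2
    rw [← g1, ← g2, hab.1, hab.2]
  · rw [Finset.disjoint_left]
    rintro ⟨c, x, i⟩ hv hv'
    obtain ⟨a, _, ha⟩ := Finset.mem_image.1 hv'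
    simp only [Prod.mk.injEq] at ha
    rw [mem_eset] at hv
    rcases hv with h | h | h | h | h
    · omega
    · omega
    · exact absurd h.2.1 (Finset.notMem_empty _)
    · omega
    · exact absurd h.2.1 (Finset.notMem_empty _)

end G

end Pool.Agent.H640.PDS
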