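import Pool.Agent.Helper640.PDS.GadB

/-!
# From covers to proportionally dense subgraphs, and hardness
-/

namespace Pool.Agent.H640.PDS

open Pool.Agent.NPC Pool.Agent.H692R2 Pool.Agent.NPC.H632 Pool.Agent.H673R2

section G

variable {I : List Cd × ℕ} (hI : X3CPr I)

theorem good_of_x3c (hX : X3C I) : ∃ U F, (gad hI).Good U F ∧
    U.card + ∑ e ∈ F, (gad hI).len e = 2 * pg I.1.length I.2 + 1 := by
  obtain ⟨Ss, σ, ρ, h1, h2, h3, h4⟩ := cover_of_x3c hX
  have hm := pr_pos hI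
  have hq := hI.2.1
  have hσ : ∀ a < 3 * I.2, σ a < I.1.length := fun a ha => h2 _ (h3 a ha).1
  refine ⟨bset I.2 (fun a => σ a + 2) Ss ∅, eset I.2 (fun a => σ a + 1) Ss ∅,
    ⟨?_, ?_, ?_, ?_, ?_⟩, ?_⟩
  · rintro ⟨c, x, i⟩ hv
    refine mem_B.2 ?_
    rw [mem_bset] at hv
    rcases hv with ⟨rfl, rfl, rfl⟩ | ⟨rfl, hx, hi⟩ | ⟨rfl, hx, rfl⟩ | ⟨rfl, hx, rfl⟩
    · exact Or.inl ⟨rfl, rfl, rfl⟩
    · have := hσ x hx
      exact Or.inr (Or.inl ⟨rfl, hx, by omega⟩)
    · exact Or.inr (Or.inr (Or.inl ⟨rfl, h2 x hx, rfl⟩))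
    · exact absurd hx (Finset.notMem_empty _)
  · rintro ⟨c, x, i⟩ hv
    refine mem_E.2 ?_
    rw [mem_eset] at hv
    rcases hv with ⟨rfl, hx, rfl⟩ | ⟨rfl, hx, hi⟩ | ⟨rfl, hx, hi⟩ | ⟨rfl, rfl, rfl⟩ | ⟨rfl, hx, rfl⟩
    · exact Or.inl ⟨rfl, hx, rfl⟩
    · have := hσ x hx
      exact Or.inr (Or.inl ⟨rfl, hx, by omega⟩)
    · exact Or.inr (Or.inr (Or.inl ⟨rfl, h2 x hx, hi⟩))
    · exact Or.inr (Or.inr (Or.inr (Or.inl ⟨rfl, rfl, rfl⟩)))
    · exact absurd hx (Finset.notMem_empty _)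
  · rintro ⟨c, x, i⟩ hv
    show sr I.1 I.2 (c, x, i) ∈ _ ∧ ds (c, x, i) ∈ _
    rw [mem_eset] at hv
    rcases hv with ⟨rfl, hx, rfl⟩ | ⟨rfl, hx, hi⟩ | ⟨rfl, hx, hi⟩ | ⟨rfl, rfl, rfl⟩ | ⟨rfl, hx, rfl⟩
    · rcases x with _ | x
      · rw [sr00, ds0, mem_bset, mem_bset]
        exact ⟨Or.inl ⟨rfl, rfl, rfl⟩, Or.inr (Or.inl ⟨rfl, hx, by omega⟩)⟩
      · rw [sr0s, ds0, mem_bset, mem_bset]
        exact ⟨Or.inr (Or.inl ⟨rfl, by omega, by omega⟩), Or.inr (Or.inl ⟨rfl, hx, by omega⟩)⟩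
    · rw [sr1, ds1, mem_bset, mem_bset]
      exact ⟨Or.inr (Or.inl ⟨rfl, hx, by omega⟩), Or.inr (Or.inl ⟨rfl, hx, by omega⟩)⟩
    · rw [sr2, ds2, mem_bset, mem_bset]
      obtain ⟨g1, g2, g3⟩ := h4 x hx i hi
      exact ⟨Or.inr (Or.inl ⟨rfl, g1, by rw [g2]; omega⟩), Or.inr (Or.inr (Or.inl ⟨rfl, hx, rfl⟩))⟩
    · rw [sr3, ds3, mem_bset, mem_bset]
      exact ⟨Or.inr (Or.inl ⟨rfl, by omega, by omega⟩), Or.inl ⟨rfl, rfl, rfl⟩⟩
    · exact absurd hx (Finset.notMem_empty _)
  · rintro ⟨c, x, i⟩ hv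
    rw [mem_bset] at hv
    rcases hv with ⟨rfl, rfl, rfl⟩ | ⟨rfl, hx, hi⟩ | ⟨rfl, hx, rfl⟩ | ⟨rfl, hx, rfl⟩
    · right
      refine ⟨(4, 0, 0), (0, 0, 0), mem_eset.2 (Or.inl ⟨rfl, by omega, rfl⟩), (3, 0, 0),
        mem_eset.2 (Or.inr (Or.inr (Or.inr (Or.inl ⟨rfl, rfl, rfl⟩)))), by simp, Or.inl rfl,
        Or.inr rfl, ?_⟩
      rintro ⟨c, y, j⟩ he hinc
      rcases inc00 hI he hinc with h | h | h
      · left; rw [h]; exact mem_eset.2 (Or.inl ⟨rfl, by omega, rfl⟩)
      · left; rw [h]; exact mem_eset.2 (Or.inr (Or.inr (Or.inr (Or.inl ⟨rfl, rfl, rfl⟩))))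
      · right; exact h
    · rcases i with _ | i
      · left
        rintro ⟨c, y, j⟩ he hinc
        rcases inc10 hI he hinc with h | h | ⟨h', h⟩ | ⟨h', h⟩
        · rw [h]; exact mem_eset.2 (Or.inl ⟨rfl, hx, rfl⟩)
        · rw [h]; exact mem_eset.2 (Or.inr (Or.inl ⟨rfl, hx, by omega⟩))
        · rw [h]; exact mem_eset.2 (Or.inl ⟨rfl, h', rfl⟩)
        · rw [h]; exact mem_eset.2 (Or.inr (Or.inr (Or.inr (Or.inl ⟨rfl, rfl, rfl⟩))))
      · right
        have hin : ((1, x, i) : Cd) ∈ eset I.2 (fun a => σ a + 1) Ss ∅ :=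
          mem_eset.2 (Or.inr (Or.inl ⟨rfl, hx, by omega⟩))
        by_cases hlast : i = σ x
        · obtain ⟨g1, g2, g3⟩ := h3 x hx
          refine ⟨(1, x, i + 1), (1, x, i), hin, (2, i, ρ x),
            mem_eset.2 (Or.inr (Or.inr (Or.inl ⟨rfl, by rw [hlast]; exact g1, g2⟩))), by simp,
            Or.inr rfl, Or.inl ?_, ?_⟩
          · show sr I.1 I.2 (2, i, ρ x) = _
            rw [sr2, hlast, g3]
          · rintro ⟨c, y, j⟩ he hinc
            rcases inc1s hI he hinc with h | h | ⟨rfl, rfl, g4, g5, g6⟩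
            · left; rw [h]; exact hin
            · right; exact h
            · left
              exact mem_eset.2 (Or.inr (Or.inr (Or.inl ⟨rfl, by rw [hlast]; exact g1, g4⟩)))
        · have hlt : i < σ x := by omega
          have hin' : ((1, x, i + 1) : Cd) ∈ eset I.2 (fun a => σ a + 1) Ss ∅ :=
            mem_eset.2 (Or.inr (Or.inl ⟨rfl, hx, by omega⟩))
          by_cases hex : ∃ r < 3, i < I.1.length ∧ ec I.1 i r = x
          · obtain ⟨r, hr, him, hrx⟩ := hex
            refine ⟨(2, i, r), (1, x, i), hin, (1, x, i + 1), hin', by simp, Or.inr rfl,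
              Or.inl rfl, ?_⟩
            rintro ⟨c, y, j⟩ he hinc
            rcases inc1s hI he hinc with h | h | ⟨rfl, rfl, g4, g5, g6⟩
            · left; rw [h]; exact hin
            · left; rw [h]; exact hin'
            · right
              rw [ec_inj hI him g4 hr (g6.trans hrx.symm)]
          · refine ⟨(0, 0, 0), (1, x, i), hin, (1, x, i + 1), hin', by simp, Or.inr rfl,
              Or.inl rfl, ?_⟩
            rintro ⟨c, y, j⟩ he hinc
            rcases inc1s hI he hinc with h | h | ⟨rfl, rfl, g4, g5, g6⟩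
            · left; rw [h]; exact hin
            · left; rw [h]; exact hin'
            · exact absurd ⟨j, g4, g5, g6⟩ hex
    · left
      rintro ⟨c, y, j⟩ he hinc
      obtain ⟨rfl, rfl, g3⟩ := inc2 hI he hinc
      exact mem_eset.2 (Or.inr (Or.inr (Or.inl ⟨rfl, hx, g3⟩)))
    · exact absurd hx (Finset.notMem_empty _)
  · refine ⟨(0, 0, 0), mem_bset.2 (Or.inl ⟨rfl, rfl, rfl⟩), fun P hP hE => ?_⟩
    change ∀ e ∈ eset I.2 (fun a => σ a + 1) Ss ∅, (P (sr I.1 I.2 e) ↔ P (ds e)) at hE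
    have k1 : ∀ a, a < 3 * I.2 → P (1, a, 0) := by
      intro a
      induction a with
      | zero =>
        intro ha
        have := hE (0, 0, 0) (mem_eset.2 (Or.inl ⟨rfl, ha, rfl⟩))
        rw [sr00, ds0] at this
        exact this.1 hP
      | succ a ih =>
        intro ha
        have := hE (0, a + 1, 0) (mem_eset.2 (Or.inl ⟨rfl, ha, rfl⟩))
        rw [sr0s, ds0] at this
        exact this.1 (ih (by omega))
    have k2 : ∀ a, a < 3 * I.2 → ∀ j, j < σ a + 2 → P (1, a, j) := by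
      intro a ha j
      induction j with
      | zero => intro _; exact k1 a ha
      | succ j ih =>
        intro hj
        have := hE (1, a, j) (mem_eset.2 (Or.inr (Or.inl ⟨rfl, ha, by omega⟩)))
        rw [sr1, ds1] at this
        exact this.1 (ih (by omega))
    rintro ⟨c, x, i⟩ hv
    rw [mem_bset] at hv
    rcases hv with ⟨rfl, rfl, rfl⟩ | ⟨rfl, hx, hi⟩ | ⟨rfl, hx, rfl⟩ | ⟨rfl, hx, rfl⟩
    · exact hP
    · exact k2 x hx i hi
    · have := hE (2, x, 0) (mem_eset.2 (Or.inr (Or.inr (Or.inl ⟨rfl, hx, by omega⟩))))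
      rw [sr2, ds2] at this
      obtain ⟨g1, g2, g3⟩ := h4 x hx 0 (by omega)
      exact this.1 (k2 _ g1 _ (by rw [g2]; omega))
    · exact absurd hx (Finset.notMem_empty _)
  · change _ + ∑ e ∈ eset I.2 (fun a => σ a + 1) Ss ∅, ln I.1.length I.2 e = _
    rw [card_U, sum_F σ hσ Ss]
    have k4 := sum_elems (q := I.2) σ hσ
    have k5 := pg_eq I.1.length I.2
    have k6 : ∑ s ∈ Ss, ∑ _r ∈ Finset.range 3, (2 * (I.1.length - s) + 1) =
        ∑ a ∈ Finset.range (3 * I.2), (2 * (I.1.length - σ a) + 1) := by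
      rw [← Finset.sum_product']
      refine Finset.sum_nbij' (fun p => ec I.1 p.1 p.2) (fun a => (σ a, ρ a)) ?_ ?_ ?_ ?_ ?_
      · rintro ⟨s, r⟩ hp
        rw [Finset.mem_product, Finset.mem_range] at hp
        exact Finset.mem_range.2 (h4 s hp.1 r hp.2).1
      · intro a ha
        obtain ⟨g1, g2, g3⟩ := h3 a (Finset.mem_range.1 ha)
        exact Finset.mem_product.2 ⟨g1, Finset.mem_range.2 g2⟩
      · rintro ⟨s, r⟩ hp
        rw [Finset.mem_product, Finset.mem_range] at hp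
        obtain ⟨g1, g2, g3⟩ := h4 s hp.1 r hp.2
        simp only [g2, g3]
      · intro a ha
        exact (h3 a (Finset.mem_range.1 ha)).2.2
      · rintro ⟨s, r⟩ hp
        rw [Finset.mem_product, Finset.mem_range] at hp
        obtain ⟨g1, g2, g3⟩ := h4 s hp.1 r hp.2
        simp only [g2]
    omega

end G

/-! ### The reduction -/

/-- the list of branch vertices -/
def listB (m q : ℕ) : List Cd :=
  ((List.range 1) ×ˢ (List.range 1)).map (Prod.mk 0) ++
    (((List.range (3 * q)) ×ˢ (List.range (m + 2))).map (Prod.mk 1) ++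
      (((List.range m) ×ˢ (List.range 1)).map (Prod.mk 2) ++
        ((List.range 1) ×ˢ (List.range 1)).map (Prod.mk 3)))

/-- the list of edges -/
def listE (m q : ℕ) : List Cd :=
  ((List.range (3 * q)) ×ˢ (List.range 1)).map (Prod.mk 0) ++
    (((List.range (3 * q)) ×ˢ (List.range (m + 1))).map (Prod.mk 1) ++
      (((List.range m) ×ˢ (List.range 3)).map (Prod.mk 2) ++
        (((List.range 1) ×ˢ (List.range 1)).map (Prod.mk 3) ++
          ((List.range 1) ×ˢ (List.range 1)).map (Prod.mk 4))))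

/-- the list of vertices -/
def listV (m q : ℕ) : List VC :=
  (listB m q).map (fun b => (b, 0)) ++
    (listE m q).flatMap (fun e => (List.range (ln m q e)).map (fun i => (e, i + 1)))

theorem mem_listB {m q : ℕ} {v : Cd} :
    v ∈ listB m q ↔ v ∈ bset q (fun _ => m + 2) (Finset.range m) (Finset.range 1) := by
  obtain ⟨c, x, i⟩ := v
  rw [mem_B]
  unfold listB
  rw [List.mem_append, List.mem_append, List.mem_append, mem_grid, mem_grid, mem_grid, mem_grid]
  simp only [Nat.lt_one_iff]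

theorem mem_listE {m q : ℕ} {v : Cd} :
    v ∈ listE m q ↔ v ∈ eset q (fun _ => m + 1) (Finset.range m) (Finset.range 1) := by
  obtain ⟨c, x, i⟩ := v
  rw [mem_E]
  unfold listE
  rw [List.mem_append, List.mem_append, List.mem_append, List.mem_append, mem_grid, mem_grid,
    mem_grid, mem_grid, mem_grid]
  simp only [Nat.lt_one_iff]

theorem nodup_listB (m q : ℕ) : (listB m q).Nodup := by
  unfold listB
  refine List.Nodup.append (nodup_grid _ _ _) (List.Nodup.append (nodup_grid _ _ _)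
    (List.Nodup.append (nodup_grid _ _ _) (nodup_grid _ _ _) ?_) ?_) ?_
  · rintro ⟨c, x, i⟩ h1 h2
    rw [mem_grid] at h1 h2
    omega
  · rintro ⟨c, x, i⟩ h1 h2
    rw [List.mem_append, mem_grid, mem_grid] at h2
    rw [mem_grid] at h1
    omega
  · rintro ⟨c, x, i⟩ h1 h2
    rw [List.mem_append, List.mem_append, mem_grid, mem_grid, mem_grid] at h2
    rw [mem_grid] at h1
    omega

theorem nodup_listE (m q : ℕ) : (listE m q).Nodup := by
  unfold listE
  refine List.Nodup.append (nodup_grid _ _ _) (List.Nodup.append (nodup_grid _ _ _)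
    (List.Nodup.append (nodup_grid _ _ _) (List.Nodup.append (nodup_grid _ _ _)
      (nodup_grid _ _ _) ?_) ?_) ?_) ?_
  · rintro ⟨c, x, i⟩ h1 h2
    rw [mem_grid] at h1 h2
    omega
  · rintro ⟨c, x, i⟩ h1 h2
    rw [List.mem_append, mem_grid, mem_grid] at h2
    rw [mem_grid] at h1
    omega
  · rintro ⟨c, x, i⟩ h1 h2
    rw [List.mem_append, List.mem_append, mem_grid, mem_grid, mem_grid] at h2
    rw [mem_grid] at h1
    omega
  · rintro ⟨c, x, i⟩ h1 h2
    rw [List.mem_append, List.mem_append, List.mem_append, mem_grid, mem_grid, mem_grid,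
      mem_grid] at h2
    rw [mem_grid] at h1
    omega

theorem nodup_listV (m q : ℕ) : (listV m q).Nodup := by
  unfold listV
  refine List.Nodup.append ?_ ?_ ?_
  · exact List.Nodup.map (fun a b h => by simpa using h) (nodup_listB m q)
  · rw [List.nodup_flatMap]
    constructor
    · intro e _
      exact List.Nodup.map (fun a b h => by simpa using h) List.nodup_range
    · refine (nodup_listE m q).imp ?_
      intro e e' hne v hv hv'
      obtain ⟨i, _, rfl⟩ := List.mem_map.1 hv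
      obtain ⟨j, _, h⟩ := List.mem_map.1 hv'
      simp only [Prod.mk.injEq] at h
      exact hne h.1.symm
  · intro v hv hv'
    obtain ⟨b, _, rfl⟩ := List.mem_map.1 hv
    obtain ⟨e, _, h⟩ := List.mem_flatMap.1 hv'
    obtain ⟨j, _, h⟩ := List.mem_map.1 h
    simp at h

theorem listV_toFinset {I : List Cd × ℕ} (hI : X3CPr I) :
    (listV I.1.length I.2).toFinset = (gad hI).V := by
  ext ⟨c, i⟩
  unfold Base.V
  rw [mem_tset, List.mem_toFinset]
  unfold listV
  rw [List.mem_append, List.mem_map, List.mem_flatMap]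
  refine or_congr ?_ ?_
  · constructor
    · rintro ⟨b, hb, h⟩
      simp only [Prod.mk.injEq] at h
      obtain ⟨rfl, rfl⟩ := h
      exact ⟨rfl, mem_listB.1 hb⟩
    · rintro ⟨rfl, h⟩
      exact ⟨c, mem_listB.2 h, rfl⟩
  · constructor
    · rintro ⟨e, he, h⟩
      obtain ⟨j, hj, h⟩ := List.mem_map.1 h
      simp only [Prod.mk.injEq] at h
      obtain ⟨rfl, rfl⟩ := h
      rw [List.mem_range] at hj
      exact ⟨by omega, hj, mem_listE.1 he⟩
    · rintro ⟨h1, h2, h3⟩
      refine ⟨c, mem_listE.2 h3, List.mem_map.2 ⟨i - 1, ?_, ?_⟩⟩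
      · rw [List.mem_range]
        have h4 : i ≤ ln I.1.length I.2 c := h2
        omega
      · simp only [Prod.mk.injEq, true_and]
        omega

/-- the adjacency of an instance -/
def relI (I : List Cd × ℕ) : VC → VC → Bool :=
  sA (sr I.1 (cap I)) ds (ln I.1.length (cap I))

/-- the reduction -/
noncomputable def red3 (I : List Cd × ℕ) : FinGraph × ℕ :=
  (⟨(listV I.1.length (cap I)).length, cgraph (listV I.1.length (cap I)) (relI I)⟩,
    2 * pg I.1.length (cap I) + 1)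

/-- The class: `Δ` and `h` are both equal to `3`. -/
def Class3 (I : FinGraph × ℕ) : Prop := MaxDegEq I.1.graph 3 ∧ HIndexEq I.1.graph 3

theorem red3_iff {I : List Cd × ℕ} (hI : X3CPr I) :
    (X3C I ↔ MaxPDS (red3 I)) ∧ (X3C I ↔ MaxConnPDS (red3 I)) := by
  unfold red3 relI
  rw [cap_eq hI]
  refine Base.sub_iff (G := gad hI) _ (nodup_listV _ _) (listV_toFinset hI) ?_ (gad_total hI)
    (three_gad hI) (conn_gad hI) ?_ ?_
  · unfold pg; omega
  · intro U F hP hs
    exact x3c_of_part hP hs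
  · exact good_of_x3c hI

open Classical in
theorem class3_aux {I : List Cd × ℕ} (hI : X3CPr I) :
    MaxDegEq (cgraph (listV I.1.length I.2) (gad hI).A) 3 ∧
      HIndexEq (cgraph (listV I.1.length I.2) (gad hI).A) 3 := by
  have hm := pr_pos hI
  have hq := hI.2.1
  have hV := listV_toFinset hI
  have hb : ∀ v : VC, v ∈ listV I.1.length I.2 ↔ v ∈ (gad hI).V := fun v => by
    rw [← hV, List.mem_toFinset]
  have b0 : ((0, 0, 0) : Cd) ∈ (gad hI).B := mem_B.2 (Or.inl ⟨rfl, rfl, rfl⟩)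
  have b1 : ((1, 0, 0) : Cd) ∈ (gad hI).B := mem_B.2 (Or.inr (Or.inl ⟨rfl, by omega, by omega⟩))
  have b2 : ((1, 1, 0) : Cd) ∈ (gad hI).B := mem_B.2 (Or.inr (Or.inl ⟨rfl, by omega, by omega⟩))
  have r0 : ((0, 0, 0) : Cd) ∈ (gad hI).E := mem_E.2 (Or.inl ⟨rfl, by omega, rfl⟩)
  have r1 : ((0, 1, 0) : Cd) ∈ (gad hI).E := mem_E.2 (Or.inl ⟨rfl, by omega, rfl⟩)
  have r2 : ((0, 2, 0) : Cd) ∈ (gad hI).E := mem_E.2 (Or.inl ⟨rfl, by omega, rfl⟩)
  refine class_of _ (nodup_listV _ _) _ 3 (by omega) ?_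
    {(((0, 0, 0) : Cd), 0), (((1, 0, 0) : Cd), 0), (((1, 1, 0) : Cd), 0)} ?_ ?_ ?_
  · intro x hx
    rw [hV]
    have h1 := Base.deg_le_three (G := gad hI) (three_gad hI) x ((hb x).1 hx)
    convert h1
  · intro x hx
    rw [hb]
    simp only [Finset.mem_insert, Finset.mem_singleton] at hx
    rcases hx with rfl | rfl | rfl
    · exact mem_tset.2 (Or.inl ⟨rfl, b0⟩)
    · exact mem_tset.2 (Or.inl ⟨rfl, b1⟩)
    · exact mem_tset.2 (Or.inl ⟨rfl, b2⟩)
  · rw [Finset.card_eq_three.2 ⟨_, _, _, by simp, by simp, by simp, rfl⟩]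
  · intro x hx
    rw [hV]
    simp only [Finset.mem_insert, Finset.mem_singleton] at hx
    rcases hx with rfl | rfl | rfl
    · have h1 := Base.deg_ge_three (G := gad hI) (b := (0, 0, 0)) r0 (bb_mem hI) (fil_mem hI)
        (Or.inl rfl) (Or.inr rfl) (Or.inr rfl) (by simp) (by simp) (by simp)
      convert h1
    · have h1 := Base.deg_ge_three (G := gad hI) (b := (1, 0, 0)) r0 r1
        (spine_mem hI (a := 0) (j := 0) (by omega) (by omega))
        (Or.inr rfl) (Or.inl rfl) (Or.inl rfl) (by simp) (by simp) (by simp)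
      convert h1
    · have h1 := Base.deg_ge_three (G := gad hI) (b := (1, 1, 0)) r1 r2
        (spine_mem hI (a := 1) (j := 0) (by omega) (by omega))
        (Or.inr rfl) (Or.inl rfl) (Or.inl rfl) (by simp) (by simp) (by simp)
      convert h1

theorem red3_class {I : List Cd × ℕ} (hI : X3CPr I) : Class3 (red3 I) := by
  unfold Class3 red3 relI
  simp only
  rw [cap_eq hI]
  exact class3_aux hI

end Pool.Agent.H640.PDS
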