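import Pool.Agent.Helper640.PDS.Gad

/-!
# The base graph encoding exact cover by 3-sets: correctness
-/

set_option linter.unusedSimpArgs false

namespace Pool.Agent.H640.PDS

open Pool.Agent.NPC Pool.Agent.H692R2 Pool.Agent.NPC.H632 Pool.Agent.H673R2

/-! ### End vertices -/

theorem sr0 (S : List Cd) (q x i : ℕ) :
    sr S q (0, x, i) = if x = 0 then (0, 0, 0) else (1, x - 1, 0) := rfl

theorem sr00 (S : List Cd) (q i : ℕ) : sr S q (0, 0, i) = (0, 0, 0) := rfl

theorem sr0s (S : List Cd) (q x i : ℕ) : sr S q (0, x + 1, i) = (1, x, 0) := rfl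

theorem sr1 (S : List Cd) (q x i : ℕ) : sr S q (1, x, i) = (1, x, i) := rfl

theorem sr2 (S : List Cd) (q x i : ℕ) : sr S q (2, x, i) = (1, ec S x i, x + 1) := rfl

theorem sr3 (S : List Cd) (q x i : ℕ) : sr S q (3, x, i) = (1, 3 * q - 1, 0) := rfl

theorem sr4 (S : List Cd) (q x i : ℕ) : sr S q (4, x, i) = (3, 0, 0) := rfl

theorem ds0 (x i : ℕ) : ds (0, x, i) = (1, x, 0) := rfl

theorem ds1 (x i : ℕ) : ds (1, x, i) = (1, x, i + 1) := rfl

theorem ds2 (x i : ℕ) : ds (2, x, i) = (2, x, 0) := rfl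

theorem ds3 (x i : ℕ) : ds (3, x, i) = (0, 0, 0) := rfl

theorem ds4 (x i : ℕ) : ds (4, x, i) = (0, 0, 0) := rfl

section G

variable {I : List Cd × ℕ}

theorem pr_pos (hI : X3CPr I) : 0 < I.1.length := by
  have := hI.2.1
  have := hI.2.2
  omega

theorem mem_B {m q c x i : ℕ} :
    ((c, x, i) : Cd) ∈ bset q (fun _ => m + 2) (Finset.range m) (Finset.range 1) ↔
      (c = 0 ∧ x = 0 ∧ i = 0) ∨ (c = 1 ∧ x < 3 * q ∧ i < m + 2) ∨ (c = 2 ∧ x < m ∧ i = 0) ∨
      (c = 3 ∧ x = 0 ∧ i = 0) := by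
  rw [mem_bset, Finset.mem_range, Finset.mem_range]
  simp

theorem mem_E {m q c x i : ℕ} :
    ((c, x, i) : Cd) ∈ eset q (fun _ => m + 1) (Finset.range m) (Finset.range 1) ↔
      (c = 0 ∧ x < 3 * q ∧ i = 0) ∨ (c = 1 ∧ x < 3 * q ∧ i < m + 1) ∨
      (c = 2 ∧ x < m ∧ i < 3) ∨ (c = 3 ∧ x = 0 ∧ i = 0) ∨ (c = 4 ∧ x = 0 ∧ i = 0) := by
  rw [mem_eset, Finset.mem_range, Finset.mem_range]
  simp

/-- The base graph of an instance. -/
def gad (hI : X3CPr I) : Base where
  B := bset I.2 (fun _ => I.1.length + 2) (Finset.range I.1.length) (Finset.range 1)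
  E := eset I.2 (fun _ => I.1.length + 1) (Finset.range I.1.length) (Finset.range 1)
  src := sr I.1 I.2
  dst := ds
  len := ln I.1.length I.2
  src_mem := by
    rintro ⟨c, x, i⟩ he
    rw [mem_E] at he
    have hq := hI.2.1
    rcases he with ⟨rfl, hx, rfl⟩ | ⟨rfl, hx, hi⟩ | ⟨rfl, hx, hi⟩ | ⟨rfl, rfl, rfl⟩ |
      ⟨rfl, rfl, rfl⟩
    · rw [sr0]
      split_ifs with h
      · rw [mem_B]; simp
      · rw [mem_B]; right; left; exact ⟨rfl, by omega, by omega⟩
    · rw [sr1, mem_B]; right; left; exact ⟨rfl, hx, by omega⟩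
    · rw [sr2, mem_B]; right; left; exact ⟨rfl, ec_lt hI hx hi, by omega⟩
    · rw [sr3, mem_B]; right; left; exact ⟨rfl, by omega, by omega⟩
    · rw [sr4, mem_B]; simp
  dst_mem := by
    rintro ⟨c, x, i⟩ he
    rw [mem_E] at he
    rcases he with ⟨rfl, hx, rfl⟩ | ⟨rfl, hx, hi⟩ | ⟨rfl, hx, hi⟩ | ⟨rfl, rfl, rfl⟩ |
      ⟨rfl, rfl, rfl⟩
    · rw [ds0, mem_B]; right; left; exact ⟨rfl, by omega, by omega⟩
    · rw [ds1, mem_B]; right; left; exact ⟨rfl, hx, by omega⟩
    · rw [ds2, mem_B]; right; right; left; exact ⟨rfl, hx, rfl⟩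
    · rw [ds3, mem_B]; simp
    · rw [ds4, mem_B]; simp
  ne := by
    rintro ⟨c, x, i⟩ he
    rw [mem_E] at he
    rcases he with ⟨rfl, hx, rfl⟩ | ⟨rfl, hx, hi⟩ | ⟨rfl, hx, hi⟩ | ⟨rfl, rfl, rfl⟩ |
      ⟨rfl, rfl, rfl⟩
    · rw [sr0, ds0]
      split_ifs with h
      · simp
      · simp only [ne_eq, Prod.mk.injEq]; omega
    · rw [sr1, ds1]; simp
    · rw [sr2, ds2]; simp
    · rw [sr3, ds3]; simp
    · rw [sr4, ds4]; simp
  pos := by
    rintro ⟨c, x, i⟩ he
    rw [mem_E] at he
    rcases he with ⟨rfl, hx, rfl⟩ | ⟨rfl, hx, hi⟩ | ⟨rfl, hx, hi⟩ | ⟨rfl, rfl, rfl⟩ |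
      ⟨rfl, rfl, rfl⟩
    · rw [ln0]; unfold pB; omega
    · by_cases h0 : i = 0
      · rw [h0, ln1_zero]; unfold pB; omega
      · by_cases hm : i = I.1.length
        · rw [hm, ln1_last (pr_pos hI)]; omega
        · rw [ln1_mid h0 hm]
    · rw [ln2]; omega
    · rw [ln3]; unfold pM; omega
    · rw [ln4]; unfold pZ; omega

variable (hI : X3CPr I)

include hI in
theorem inc_iff {e b : Cd} : (gad hI).inc e b ↔ sr I.1 I.2 e = b ∨ ds e = b := Iff.rfl

/-- connectedness of the base graph -/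
theorem conn_gad : Base.BConn (gad hI).src (gad hI).dst (gad hI).B (gad hI).E := by
  have hq := hI.2.1
  refine ⟨(0, 0, 0), mem_B.2 (by simp), fun P hP hE => ?_⟩
  change ∀ e ∈ eset I.2 (fun _ => I.1.length + 1) (Finset.range I.1.length) (Finset.range 1),
    (P (sr I.1 I.2 e) ↔ P (ds e)) at hE
  have h1 : ∀ a, a < 3 * I.2 → P (1, a, 0) := by
    intro a
    induction a with
    | zero =>
      intro ha
      have := hE (0, 0, 0) (mem_E.2 (Or.inl ⟨rfl, ha, rfl⟩))
      rw [sr00, ds0] at this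
      exact this.1 hP
    | succ a ih =>
      intro ha
      have := hE (0, a + 1, 0) (mem_E.2 (Or.inl ⟨rfl, ha, rfl⟩))
      rw [sr0s, ds0] at this
      exact this.1 (ih (by omega))
  have h2 : ∀ a, a < 3 * I.2 → ∀ j, j < I.1.length + 2 → P (1, a, j) := by
    intro a ha j
    induction j with
    | zero => intro _; exact h1 a ha
    | succ j ih =>
      intro hj
      have := hE (1, a, j) (mem_E.2 (Or.inr (Or.inl ⟨rfl, ha, by omega⟩)))
      rw [sr1, ds1] at this
      exact this.1 (ih (by omega))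
  rintro ⟨c, x, i⟩ hb
  have hb' := mem_B.1 hb
  rcases hb' with ⟨rfl, rfl, rfl⟩ | ⟨rfl, hx, hi⟩ | ⟨rfl, hx, rfl⟩ | ⟨rfl, rfl, rfl⟩
  · exact hP
  · exact h2 x hx i hi
  · have := hE (2, x, 0) (mem_E.2 (Or.inr (Or.inr (Or.inl ⟨rfl, hx, by omega⟩))))
    rw [sr2, ds2] at this
    exact this.1 (h2 _ (ec_lt hI hx (by omega)) _ (by omega))
  · have := hE (4, 0, 0) (mem_E.2 (by simp))
    rw [sr4, ds4] at this
    exact this.2 hP

/-- edges incident to `(1, a, 0)` -/
theorem inc10 {a c x i : ℕ} (he : ((c, x, i) : Cd) ∈ (gad hI).E)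
    (h : (gad hI).inc (c, x, i) (1, a, 0)) :
    ((c, x, i) : Cd) = (0, a, 0) ∨ ((c, x, i) : Cd) = (1, a, 0) ∨
      (a + 1 < 3 * I.2 ∧ ((c, x, i) : Cd) = (0, a + 1, 0)) ∨
      (a + 1 = 3 * I.2 ∧ ((c, x, i) : Cd) = (3, 0, 0)) := by
  have hq := hI.2.1
  have he' := mem_E.1 he
  rw [inc_iff] at h
  rcases he' with ⟨rfl, hx, rfl⟩ | ⟨rfl, hx, hi⟩ | ⟨rfl, hx, hi⟩ | ⟨rfl, rfl, rfl⟩ |
      ⟨rfl, rfl, rfl⟩
  · rcases x with _ | x
    · rw [sr00, ds0] at h
      simp only [Prod.mk.injEq, true_and, and_true, false_and, and_false, or_false, false_or, true_or,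
        or_true] at h ⊢
      omega
    · rw [sr0s, ds0] at h
      simp only [Prod.mk.injEq, true_and, and_true, false_and, and_false, or_false, false_or, true_or,
        or_true] at h ⊢
      omega
  · rw [sr1, ds1] at h
    simp only [Prod.mk.injEq, true_and, and_true, false_and, and_false, or_false, false_or, true_or,
        or_true] at h ⊢
    omega
  · rw [sr2, ds2] at h
    simp only [Prod.mk.injEq, true_and, and_true, false_and, and_false, or_false, false_or, true_or,
        or_true] at h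
    omega
  · rw [sr3, ds3] at h
    simp only [Prod.mk.injEq, true_and, and_true, false_and, and_false, or_false, false_or, true_or,
        or_true] at h ⊢
    omega
  · rw [sr4, ds4] at h
    simp only [Prod.mk.injEq, true_and, and_true, false_and, and_false, or_false, false_or, true_or,
        or_true] at h
    omega

/-- edges incident to `(1, a, j+1)` -/
theorem inc1s {a j c x i : ℕ} (he : ((c, x, i) : Cd) ∈ (gad hI).E)
    (h : (gad hI).inc (c, x, i) (1, a, j + 1)) :
    ((c, x, i) : Cd) = (1, a, j) ∨ ((c, x, i) : Cd) = (1, a, j + 1) ∨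
      (c = 2 ∧ x = j ∧ i < 3 ∧ j < I.1.length ∧ ec I.1 j i = a) := by
  have he' := mem_E.1 he
  rw [inc_iff] at h
  rcases he' with ⟨rfl, hx, rfl⟩ | ⟨rfl, hx, hi⟩ | ⟨rfl, hx, hi⟩ | ⟨rfl, rfl, rfl⟩ |
      ⟨rfl, rfl, rfl⟩
  · rcases x with _ | x
    · rw [sr00, ds0] at h
      simp only [Prod.mk.injEq, true_and, and_true, false_and, and_false, or_false, false_or, true_or,
        or_true] at h
      omega
    · rw [sr0s, ds0] at h
      simp only [Prod.mk.injEq, true_and, and_true, false_and, and_false, or_false, false_or, true_or,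
        or_true] at h
      omega
  · rw [sr1, ds1] at h
    simp only [Prod.mk.injEq, true_and, and_true, false_and, and_false, or_false, false_or, true_or,
        or_true] at h ⊢
    omega
  · rw [sr2, ds2] at h
    simp only [Prod.mk.injEq] at h
    right; right
    rcases h with ⟨_, h1, h2⟩ | ⟨h1, _⟩
    · have h3 : x = j := by omega
      subst h3
      exact ⟨rfl, rfl, hi, hx, h1⟩
    · omega
  · rw [sr3, ds3] at h
    simp only [Prod.mk.injEq, true_and, and_true, false_and, and_false, or_false, false_or, true_or,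
        or_true] at h
    omega
  · rw [sr4, ds4] at h
    simp only [Prod.mk.injEq, true_and, and_true, false_and, and_false, or_false, false_or, true_or,
        or_true] at h
    omega

/-- edges incident to `(0, 0, 0)` -/
theorem inc00 {c x i : ℕ} (he : ((c, x, i) : Cd) ∈ (gad hI).E)
    (h : (gad hI).inc (c, x, i) (0, 0, 0)) :
    ((c, x, i) : Cd) = (0, 0, 0) ∨ ((c, x, i) : Cd) = (3, 0, 0) ∨ ((c, x, i) : Cd) = (4, 0, 0) := by
  have he' := mem_E.1 he
  rw [inc_iff] at h
  rcases he' with ⟨rfl, hx, rfl⟩ | ⟨rfl, hx, hi⟩ | ⟨rfl, hx, hi⟩ | ⟨rfl, rfl, rfl⟩ |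
      ⟨rfl, rfl, rfl⟩
  · rcases x with _ | x
    · exact Or.inl rfl
    · rw [sr0s, ds0] at h
      simp only [Prod.mk.injEq, true_and, and_true, false_and, and_false, or_false, false_or, true_or,
        or_true] at h
      omega
  · rw [sr1, ds1] at h
    simp only [Prod.mk.injEq, true_and, and_true, false_and, and_false, or_false, false_or, true_or,
        or_true] at h
    omega
  · rw [sr2, ds2] at h
    simp only [Prod.mk.injEq, true_and, and_true, false_and, and_false, or_false, false_or, true_or,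
        or_true] at h
    omega
  · exact Or.inr (Or.inl rfl)
  · exact Or.inr (Or.inr rfl)

/-- edges incident to `(2, s, 0)` -/
theorem inc2 {s c x i : ℕ} (he : ((c, x, i) : Cd) ∈ (gad hI).E)
    (h : (gad hI).inc (c, x, i) (2, s, 0)) : c = 2 ∧ x = s ∧ i < 3 := by
  have he' := mem_E.1 he
  rw [inc_iff] at h
  rcases he' with ⟨rfl, hx, rfl⟩ | ⟨rfl, hx, hi⟩ | ⟨rfl, hx, hi⟩ | ⟨rfl, rfl, rfl⟩ |
      ⟨rfl, rfl, rfl⟩
  · rcases x with _ | x
    · rw [sr00, ds0] at h
      simp only [Prod.mk.injEq, true_and, and_true, false_and, and_false, or_false, false_or, true_or,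
        or_true] at h
      omega
    · rw [sr0s, ds0] at h
      simp only [Prod.mk.injEq, true_and, and_true, false_and, and_false, or_false, false_or, true_or,
        or_true] at h
      omega
  · rw [sr1, ds1] at h
    simp only [Prod.mk.injEq, true_and, and_true, false_and, and_false, or_false, false_or, true_or,
        or_true] at h
    omega
  · rw [sr2, ds2] at h
    simp only [Prod.mk.injEq, true_and, and_true, false_and, and_false, or_false, false_or, true_or,
        or_true] at h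
    omega
  · rw [sr3, ds3] at h
    simp only [Prod.mk.injEq, true_and, and_true, false_and, and_false, or_false, false_or, true_or,
        or_true] at h
    omega
  · rw [sr4, ds4] at h
    simp only [Prod.mk.injEq, true_and, and_true, false_and, and_false, or_false, false_or, true_or,
        or_true] at h
    omega

/-- edges incident to `(3, 0, 0)` -/
theorem inc3 {c x i : ℕ} (he : ((c, x, i) : Cd) ∈ (gad hI).E)
    (h : (gad hI).inc (c, x, i) (3, 0, 0)) : ((c, x, i) : Cd) = (4, 0, 0) := by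
  have he' := mem_E.1 he
  rw [inc_iff] at h
  rcases he' with ⟨rfl, hx, rfl⟩ | ⟨rfl, hx, hi⟩ | ⟨rfl, hx, hi⟩ | ⟨rfl, rfl, rfl⟩ |
      ⟨rfl, rfl, rfl⟩
  · rcases x with _ | x
    · rw [sr00, ds0] at h
      simp only [Prod.mk.injEq, true_and, and_true, false_and, and_false, or_false, false_or, true_or,
        or_true] at h
      omega
    · rw [sr0s, ds0] at h
      simp only [Prod.mk.injEq, true_and, and_true, false_and, and_false, or_false, false_or, true_or,
        or_true] at h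
      omega
  · rw [sr1, ds1] at h
    simp only [Prod.mk.injEq, true_and, and_true, false_and, and_false, or_false, false_or, true_or,
        or_true] at h
    omega
  · rw [sr2, ds2] at h
    simp only [Prod.mk.injEq, true_and, and_true, false_and, and_false, or_false, false_or, true_or,
        or_true] at h
    omega
  · rw [sr3, ds3] at h
    simp only [Prod.mk.injEq, true_and, and_true, false_and, and_false, or_false, false_or, true_or,
        or_true] at h
    omega
  · rfl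

/-- at most three incident edges -/
theorem three_gad : ∀ b ∈ (gad hI).B, ∃ e1 e2 e3, ∀ e ∈ (gad hI).E, (gad hI).inc e b →
    e = e1 ∨ e = e2 ∨ e = e3 := by
  rintro ⟨c, x, j⟩ hb
  have hb' := mem_B.1 hb
  rcases hb' with ⟨rfl, rfl, rfl⟩ | ⟨rfl, hx, hj⟩ | ⟨rfl, hx, rfl⟩ | ⟨rfl, rfl, rfl⟩
  · exact ⟨_, _, _, fun ⟨c, x, i⟩ he h => inc00 hI he h⟩
  · rcases j with _ | j
    · by_cases hx1 : x + 1 = 3 * I.2
      · refine ⟨(0, x, 0), (1, x, 0), (3, 0, 0), ?_⟩
        rintro ⟨c, y, i⟩ he h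
        rcases inc10 hI he h with h | h | ⟨h', h⟩ | ⟨h', h⟩
        · exact Or.inl h
        · exact Or.inr (Or.inl h)
        · omega
        · exact Or.inr (Or.inr h)
      · refine ⟨(0, x, 0), (1, x, 0), (0, x + 1, 0), ?_⟩
        rintro ⟨c, y, i⟩ he h
        rcases inc10 hI he h with h | h | ⟨h', h⟩ | ⟨h', h⟩
        · exact Or.inl h
        · exact Or.inr (Or.inl h)
        · exact Or.inr (Or.inr h)
        · omega
    · by_cases hex : ∃ r < 3, j < I.1.length ∧ ec I.1 j r = x
      · obtain ⟨r, hr, hjm, hrx⟩ := hex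
        refine ⟨(1, x, j), (1, x, j + 1), (2, j, r), ?_⟩
        rintro ⟨c, y, i⟩ he h
        rcases inc1s hI he h with h | h | ⟨rfl, rfl, h1, h2, h3⟩
        · exact Or.inl h
        · exact Or.inr (Or.inl h)
        · right; right
          rw [ec_inj hI hjm h1 hr (h3.trans hrx.symm)]
      · refine ⟨(1, x, j), (1, x, j + 1), (1, x, j + 1), ?_⟩
        rintro ⟨c, y, i⟩ he h
        rcases inc1s hI he h with h | h | ⟨rfl, rfl, h1, h2, h3⟩
        · exact Or.inl h
        · exact Or.inr (Or.inl h)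
        · exact absurd ⟨i, h1, h2, h3⟩ hex
  · refine ⟨(2, x, 0), (2, x, 1), (2, x, 2), ?_⟩
    rintro ⟨c, y, i⟩ he h
    obtain ⟨rfl, rfl, h3⟩ := inc2 hI he h
    simp only [Prod.mk.injEq, true_and]
    omega
  · refine ⟨(4, 0, 0), (4, 0, 0), (4, 0, 0), ?_⟩
    rintro ⟨c, y, i⟩ he h
    exact Or.inl (inc3 hI he h)

end G

end Pool.Agent.H640.PDS
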