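import Pool.Agent.Helper640.PDS.GadF

/-!
# Polynomial-time computability of the second reduction, and the hardness theorem
-/

namespace Pool.Agent.H640.PDS

open Pool.Agent.NPC Pool.Agent.H692R2 Pool.Agent.NPC.H632 Pool.Agent.H673R2

abbrev Inst : Type := List Cd × ℕ

theorem uW : UPoly (fun I : Inst => pW I.1.length (cap I)) := by
  unfold pW
  exact ((UPoly.const 1).add ((UPoly.const 10).mul uPoly_cap)).add
    ((UPoly.const 6).mul (uPoly_cap.mul uPoly_len))

theorem uX' : UPoly (fun I : Inst => pX' I.1.length (cap I)) := by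
  unfold pX'
  exact ((((UPoly.const 2).add ((UPoly.const 3).mul (uPoly_cap.mul
    (uPoly_len.add (UPoly.const 2))))).add uPoly_len).add ((UPoly.const 3).mul (uPoly_cap.mul
    (uPoly_len.add uW)))).add ((UPoly.const 3).mul ((uPoly_len.mul uPoly_len).add
    ((UPoly.const 2).mul uPoly_len)))

theorem uB : UPoly (fun I : Inst => pB I.1.length (cap I)) := uX'.add (UPoly.const 1)

theorem uX : UPoly (fun I : Inst => pX I.1.length (cap I)) :=
  uX'.add ((UPoly.const 6).mul (uPoly_cap.mul uB))

theorem uY : UPoly (fun I : Inst => pY I.1.length (cap I)) :=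
  uW.add ((UPoly.const 6).mul (uPoly_cap.mul uB))

theorem uZ : UPoly (fun I : Inst => pZ I.1.length (cap I)) :=
  ((UPoly.const 2).mul uY).add (UPoly.const 1)

theorem uM : UPoly (fun I : Inst => pM I.1.length (cap I)) :=
  (((UPoly.const 2).mul uX).add uY).add (UPoly.const 3)

theorem uG : UPoly (fun I : Inst => pg I.1.length (cap I)) := (uX.add uY).add (UPoly.const 1)

theorem poly_ln {α : Type} [TEnc α] {f : α → Inst} {e : α → Cd} (hf : Poly f) (he : Poly e) :
    Poly (fun a => ln (f a).1.length (cap (f a)) (e a)) := by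
  have h1 : Poly (fun a => pB (f a).1.length (cap (f a))) := uB.toPoly.comp hf
  have h2 : Poly (fun a => pW (f a).1.length (cap (f a))) := uW.toPoly.comp hf
  have h3 : Poly (fun a => pM (f a).1.length (cap (f a))) := uM.toPoly.comp hf
  have h4 : Poly (fun a => pZ (f a).1.length (cap (f a))) := uZ.toPoly.comp hf
  have h5 : Poly (fun a => (f a).1.length) := Poly.length (Poly.fst hf)
  unfold ln
  refine Poly.ite (Poly.decide_eq (Poly.fst he) (NPC.Poly.const _)) h1 ?_
  refine Poly.ite (Poly.decide_eq (Poly.fst he) (NPC.Poly.const _)) ?_ ?_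
  · refine Poly.ite (Poly.decide_eq (Poly.snd (Poly.snd he)) (NPC.Poly.const _)) h1 ?_
    refine Poly.ite (Poly.decide_eq (Poly.snd (Poly.snd he)) h5) ?_ (NPC.Poly.const _)
    exact Poly.add h2 (NPC.Poly.const _)
  · refine Poly.ite (Poly.decide_eq (Poly.fst he) (NPC.Poly.const _)) ?_ ?_
    · exact Poly.add (Poly.mul (NPC.Poly.const _) (Poly.sub h5 (Poly.fst (Poly.snd he))))
        (NPC.Poly.const _)
    · exact Poly.ite (Poly.decide_eq (Poly.fst he) (NPC.Poly.const _)) h3 h4

theorem ln_le (m q : ℕ) (e : Cd) : ln m q e ≤ pB m q + pW m q + pM m q + pZ m q + 2 * m + 2 := by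
  unfold ln
  split_ifs <;> omega

theorem uLn : UPoly (fun p : Inst × Cd => ln p.1.1.length (cap p.1) p.2) := by
  refine UPoly.of_le (poly_ln (Poly.fst Poly.id) (Poly.snd Poly.id))
    (n := fun p : Inst × Cd => pB p.1.1.length (cap p.1) + pW p.1.1.length (cap p.1) +
      pM p.1.1.length (cap p.1) + pZ p.1.1.length (cap p.1) + 2 * p.1.1.length + 2) ?_
    (fun p => ln_le _ _ _)
  have h1 : UPoly (fun p : Inst × Cd => pB p.1.1.length (cap p.1)) := uB.comp (Poly.fst Poly.id)
  have h2 : UPoly (fun p : Inst × Cd => pW p.1.1.length (cap p.1)) := uW.comp (Poly.fst Poly.id)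
  have h3 : UPoly (fun p : Inst × Cd => pM p.1.1.length (cap p.1)) := uM.comp (Poly.fst Poly.id)
  have h4 : UPoly (fun p : Inst × Cd => pZ p.1.1.length (cap p.1)) := uZ.comp (Poly.fst Poly.id)
  have h5 : UPoly (fun p : Inst × Cd => p.1.1.length) := uPoly_len.comp (Poly.fst Poly.id)
  exact ((((h1.add h2).add h3).add h4).add ((UPoly.const 2).mul h5)).add (UPoly.const 2)

theorem poly_listB : Poly (fun I : Inst => listB I.1.length (cap I)) := by
  unfold listB
  exact Poly.append (poly_grid (UPoly.const 1) (UPoly.const 1) 0)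
    (Poly.append (poly_grid ((UPoly.const 3).mul uPoly_cap) (uPoly_len.add (UPoly.const 2)) 1)
      (Poly.append (poly_grid uPoly_len (UPoly.const 1) 2)
        (poly_grid (UPoly.const 1) (UPoly.const 1) 3)))

theorem poly_listE : Poly (fun I : Inst => listE I.1.length (cap I)) := by
  unfold listE
  exact Poly.append (poly_grid ((UPoly.const 3).mul uPoly_cap) (UPoly.const 1) 0)
    (Poly.append (poly_grid ((UPoly.const 3).mul uPoly_cap) (uPoly_len.add (UPoly.const 1)) 1)
      (Poly.append (poly_grid uPoly_len (UPoly.const 3) 2)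
        (Poly.append (poly_grid (UPoly.const 1) (UPoly.const 1) 3)
          (poly_grid (UPoly.const 1) (UPoly.const 1) 4))))

theorem poly_listV : Poly (fun I : Inst => listV I.1.length (cap I)) := by
  unfold listV
  refine Poly.append ?_ ?_
  · exact NPC.Poly.map (F := fun _ b => ((b, 0) : VC)) poly_listB
      (Poly.pair (Poly.snd Poly.id) (NPC.Poly.const _))
  · refine NPC.Poly.flatMap (F := fun (I : Inst) (e : Cd) =>
      (List.range (ln I.1.length (cap I) e)).map (fun i => ((e, i + 1) : VC))) poly_listE ?_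
    exact NPC.Poly.map (l := fun p : Inst × Cd => List.range (ln p.1.1.length (cap p.1) p.2))
      (F := fun p i => ((p.2, i + 1) : VC)) uLn.range
      (Poly.pair (Poly.snd (Poly.fst Poly.id)) (Poly.add (Poly.snd Poly.id) (NPC.Poly.const _)))

theorem poly_sr {α : Type} [TEnc α] {f : α → Inst} {e : α → Cd} (hf : Poly f) (he : Poly e) :
    Poly (fun a => sr (f a).1 (cap (f a)) (e a)) := by
  have h1 : Poly (fun a => ec (f a).1 (e a).2.1 (e a).2.2) :=
    poly_ec (Poly.fst hf) (Poly.fst (Poly.snd he)) (Poly.snd (Poly.snd he))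
  have h2 : Poly (fun a => cap (f a)) := uPoly_cap.toPoly.comp hf
  unfold sr
  fun_prop

theorem poly_ds {α : Type} [TEnc α] {e : α → Cd} (he : Poly e) : Poly (fun a => ds (e a)) := by
  unfold ds
  fun_prop

theorem poly_relI : Poly (fun p : (Inst × VC) × VC => relI p.1.1 p.1.2 p.2) := by
  have f1 : Poly (fun p : (Inst × VC) × VC => p.1.1) := Poly.fst (Poly.fst Poly.id)
  have f2 : Poly (fun p : (Inst × VC) × VC => p.2.1) := Poly.fst (Poly.snd Poly.id)
  have h1 : Poly (fun p : (Inst × VC) × VC => sr p.1.1.1 (cap p.1.1) p.2.1) := poly_sr f1 f2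
  have h2 : Poly (fun p : (Inst × VC) × VC => ds p.2.1) := poly_ds f2
  have h3 : Poly (fun p : (Inst × VC) × VC => ln p.1.1.1.length (cap p.1.1) p.2.1) :=
    poly_ln f1 f2
  unfold relI sA
  fun_prop

theorem poly_red3 : Poly red3 := by
  unfold red3
  refine Poly.pair (poly_cgraph poly_listV poly_relI) ?_
  have := uG.toPoly
  exact Poly.add (Poly.mul (NPC.Poly.const _) this) (NPC.Poly.const _)

/-- **Part B.** -/
theorem hard_three : NPHardOn Class3 MaxPDS ∧ NPHardOn Class3 MaxConnPDS :=
  ⟨npHardOn_of hardPr_X3C poly_red3 (fun _ hI => red3_class hI) (fun _ hI => (red3_iff hI).1),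
    npHardOn_of hardPr_X3C poly_red3 (fun _ hI => red3_class hI) (fun _ hI => (red3_iff hI).2)⟩

end Pool.Agent.H640.PDS
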