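import Pool.Agent.Helper640.PDS.DomF

/-!
# Proportionally dense subgraphs of subdivided graphs of maximum degree three
-/

namespace Pool.Agent.H640.PDS

open Pool.Agent.NPC Pool.Agent.H692R2 Pool.Agent.NPC.H632 Pool.Agent.H673R2

/-- codes of vertices of a subdivision: `(b, 0)` for a branch vertex `b` and `(e, i)`,
`1 ≤ i ≤ len e`, for the inner vertices of the path replacing the edge `e` -/
abbrev VC : Type := Cd × ℕ

/-! ### Exact size -/

section Exact

variable {C : Type} [DecidableEq C]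

theorem ineq_exact {g j a b : ℕ} (hj : 1 ≤ j) (hg : j + 1 ≤ g) (hab : a + b ≤ 3)
    (h : a * (2 * g + j) ≤ b * (g - j)) : a = 0 := by
  by_contra ha
  have ha' : 1 ≤ a := Nat.one_le_iff_ne_zero.2 ha
  have hb : b ≤ 2 := by omega
  have h1 : 2 * g + j ≤ a * (2 * g + j) := by nlinarith
  have h2 : b * (g - j) ≤ 2 * (g - j) := Nat.mul_le_mul_right _ hb
  omega

open Classical in
/-- PDS of size at least `2g+1` in a connected graph with `3g+1` vertices and degrees at most 3. -/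
theorem rpds_exact {V T : Finset C} {A : C → C → Bool} {g : ℕ}
    (hdeg : ∀ v ∈ V, (V.filter (Adj' A v)).card ≤ 3) (hn : V.card = 3 * g + 1)
    (hconn : ∀ T' ⊆ V, T'.Nonempty → (∀ v ∈ T', ∀ w ∈ V, Adj' A v w → w ∈ T') → T' = V)
    (hT : RPDS V A T) (hk : 2 * g + 1 ≤ T.card) :
    T.card = 2 * g + 1 ∧
      ∀ v ∈ T, 2 * ((V \ T).filter (Adj' A v)).card ≤ (T.filter (Adj' A v)).card := by
  obtain ⟨hTV, h2, h3, h4⟩ := hT
  have hcard : (V \ T).card + T.card = V.card := Finset.card_sdiff_add_card_eq_card hTV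
  have hsum : ∀ v ∈ T, ((V \ T).filter (Adj' A v)).card + (T.filter (Adj' A v)).card ≤ 3 := by
    intro v hv
    rw [← Finset.card_union_of_disjoint]
    · refine le_trans (Finset.card_le_card ?_) (hdeg v (hTV hv))
      intro w hw
      simp only [Finset.mem_union, Finset.mem_filter, Finset.mem_sdiff] at hw ⊢
      rcases hw with hw | hw
      · exact ⟨hw.1.1, hw.2⟩
      · exact ⟨hTV hw.1, hw.2⟩
    · rw [Finset.disjoint_left]
      intro w hw hw'
      simp only [Finset.mem_filter, Finset.mem_sdiff] at hw hw'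
      exact hw.1.2 hw'.1
  by_cases hj : T.card = 2 * g + 1
  · refine ⟨hj, fun v hv => ?_⟩
    have h5 := h4 v hv
    have e1 : (V \ T).card = g := by omega
    have e2 : T.card - 1 = 2 * g := by omega
    rw [e1, e2] at h5
    have hg : 0 < g := by omega
    have h6 : (2 * ((V \ T).filter (Adj' A v)).card) * g ≤ (T.filter (Adj' A v)).card * g := by
      nlinarith
    exact Nat.le_of_mul_le_mul_right h6 hg
  · exfalso
    obtain ⟨j, hj1, hj2⟩ : ∃ j, 1 ≤ j ∧ T.card = 2 * g + 1 + j := ⟨T.card - (2 * g + 1), by omega,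
      by omega⟩
    have h5 : T = V := by
      refine hconn T hTV (Finset.card_pos.1 (by omega)) ?_
      intro v hv w hw hvw
      have h6 := h4 v hv
      have e1 : (V \ T).card = g - j := by omega
      have e2 : T.card - 1 = 2 * g + j := by omega
      rw [e1, e2] at h6
      have h7 := ineq_exact hj1 (by omega) (hsum v hv) h6
      by_contra hwT
      rw [Finset.card_eq_zero, Finset.filter_eq_empty_iff] at h7
      exact h7 (Finset.mem_sdiff.2 ⟨hw, hwT⟩) hvw
    rw [h5] at h3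
    omega

open Classical in
theorem rpds_of_exact {V T : Finset C} {A : C → C → Bool} {g : ℕ} (hg : 1 ≤ g) (hTV : T ⊆ V)
    (hn : V.card = 3 * g + 1) (hk : T.card = 2 * g + 1)
    (h : ∀ v ∈ T, 2 * ((V \ T).filter (Adj' A v)).card ≤ (T.filter (Adj' A v)).card) :
    RPDS V A T := by
  have hcard : (V \ T).card + T.card = V.card := Finset.card_sdiff_add_card_eq_card hTV
  refine ⟨hTV, by omega, by omega, fun v hv => ?_⟩
  have e1 : (V \ T).card = g := by omega
  have e2 : T.card - 1 = 2 * g := by omega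
  rw [e1, e2]
  have := h v hv
  nlinarith

end Exact

/-! ### Subdivisions -/

/-- A graph with weighted edges, given by branch vertices, edges with end vertices and lengths. -/
structure Base where
  B : Finset Cd
  E : Finset Cd
  src : Cd → Cd
  dst : Cd → Cd
  len : Cd → ℕ
  src_mem : ∀ e ∈ E, src e ∈ B
  dst_mem : ∀ e ∈ E, dst e ∈ B
  ne : ∀ e ∈ E, src e ≠ dst e
  pos : ∀ e ∈ E, 1 ≤ len e

/-- adjacency in the subdivision (one direction) -/
def sA (src dst : Cd → Cd) (len : Cd → ℕ) (v w : VC) : Bool :=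
  (decide (v.1 = w.1) && !decide (v.2 = 0) && decide (w.2 = v.2 + 1)) ||
  (decide (v.2 = 0) && decide (w.2 = 1) && decide (src w.1 = v.1)) ||
  (decide (v.2 = 0) && !decide (w.2 = 0) && decide (w.2 = len w.1) && decide (dst w.1 = v.1))

theorem sA_iff {src dst : Cd → Cd} {len : Cd → ℕ} {v w : VC} : sA src dst len v w = true ↔
    (v.1 = w.1 ∧ v.2 ≠ 0 ∧ w.2 = v.2 + 1) ∨ (v.2 = 0 ∧ w.2 = 1 ∧ src w.1 = v.1) ∨
      (v.2 = 0 ∧ w.2 ≠ 0 ∧ w.2 = len w.1 ∧ dst w.1 = v.1) := by
  unfold sA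
  simp only [Bool.or_eq_true, Bool.and_eq_true, decide_eq_true_eq, Bool.not_eq_true',
    decide_eq_false_iff_not]
  tauto

/-- the vertices of a part of the subdivision -/
def tset (len : Cd → ℕ) (U F : Finset Cd) : Finset VC :=
  U.image (fun b => (b, 0)) ∪ F.biUnion (fun e => (Finset.range (len e)).image (fun i => (e, i + 1)))

theorem mem_tset {len : Cd → ℕ} {U F : Finset Cd} {c : Cd} {i : ℕ} :
    ((c, i) : VC) ∈ tset len U F ↔ (i = 0 ∧ c ∈ U) ∨ (1 ≤ i ∧ i ≤ len c ∧ c ∈ F) := by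
  unfold tset
  simp only [Finset.mem_union, Finset.mem_image, Finset.mem_biUnion, Finset.mem_range,
    Prod.mk.injEq]
  constructor
  · rintro (⟨b, hb, rfl, rfl⟩ | ⟨e, he, j, hj, rfl, rfl⟩)
    · exact Or.inl ⟨rfl, hb⟩
    · exact Or.inr ⟨by omega, by omega, he⟩
  · rintro (⟨rfl, h⟩ | ⟨h1, h2, h3⟩)
    · exact Or.inl ⟨c, h, rfl, rfl⟩
    · exact Or.inr ⟨c, h3, i - 1, by omega, rfl, by omega⟩

theorem card_tset (len : Cd → ℕ) (U F : Finset Cd) :
    (tset len U F).card = U.card + ∑ e ∈ F, len e := by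
  unfold tset
  rw [Finset.card_union_of_disjoint, Finset.card_image_of_injective, Finset.card_biUnion]
  · congr 1
    refine Finset.sum_congr rfl fun e _ => ?_
    rw [Finset.card_image_of_injective, Finset.card_range]
    intro i j hij
    simpa using hij
  · intro e _ e' _ hne
    rw [Function.onFun, Finset.disjoint_left]
    intro v hv hv'
    obtain ⟨i, _, rfl⟩ := Finset.mem_image.1 hv
    obtain ⟨j, _, h⟩ := Finset.mem_image.1 hv'
    simp only [Prod.mk.injEq] at h
    exact hne h.1.symm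
  · intro b b' hb
    simpa using hb
  · rw [Finset.disjoint_left]
    intro v hv hv'
    obtain ⟨b, _, rfl⟩ := Finset.mem_image.1 hv
    obtain ⟨e, _, h⟩ := Finset.mem_biUnion.1 hv'
    obtain ⟨j, _, h⟩ := Finset.mem_image.1 h
    simp at h

namespace Base

variable (G : Base)

/-- all vertices -/
def V : Finset VC := tset G.len G.B G.E

/-- adjacency -/
def A : VC → VC → Bool := sA G.src G.dst G.len

/-- incidence -/
def inc (e b : Cd) : Prop := G.src e = b ∨ G.dst e = b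

/-- the neighbour of the branch vertex `b` on the path of the incident edge `e` -/
def en (b e : Cd) : VC := if G.src e = b then (e, 1) else (e, G.len e)

theorem en_fst (b e : Cd) : (G.en b e).1 = e := by
  unfold en; split_ifs <;> rfl

theorem en_inj {b e e' : Cd} (h : G.en b e = G.en b e') : e = e' := by
  have := congrArg Prod.fst h
  rwa [en_fst, en_fst] at this

variable {G}

theorem en_mem {b e : Cd} {F U : Finset Cd} (he : e ∈ G.E) :
    G.en b e ∈ tset G.len U F ↔ e ∈ F := by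
  have := G.pos e he
  unfold en
  split_ifs with h
  · rw [mem_tset]
    constructor
    · rintro (h1 | h1)
      · omega
      · exact h1.2.2
    · intro h1
      exact Or.inr ⟨le_rfl, this, h1⟩
  · rw [mem_tset]
    constructor
    · rintro (h1 | h1)
      · omega
      · exact h1.2.2
    · intro h1
      exact Or.inr ⟨this, le_rfl, h1⟩

theorem adj_branch {b : Cd} {w : VC} (hw : w ∈ G.V) :
    Adj' G.A (b, 0) w ↔ ∃ e ∈ G.E, G.inc e b ∧ w = G.en b e := by
  obtain ⟨c, i⟩ := w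
  unfold V at hw
  rw [mem_tset] at hw
  unfold Adj' A
  rw [sA_iff, sA_iff]
  simp only [ne_eq, Prod.mk.injEq, not_true, false_and, and_false, false_or, true_and]
  constructor
  · rintro ⟨_, (⟨rfl, h⟩ | ⟨h1, rfl, h2⟩) | h⟩
    · have hc : c ∈ G.E := by
        rcases hw with hw | hw
        · omega
        · exact hw.2.2
      refine ⟨c, hc, Or.inl h, ?_⟩
      unfold en
      rw [if_pos h]
    · have hc : c ∈ G.E := by
        rcases hw with hw | hw
        · omega
        · exact hw.2.2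
      refine ⟨c, hc, Or.inr h2, ?_⟩
      unfold en
      rw [if_neg]
      intro h3
      exact G.ne c hc (h3.trans h2.symm)
    · rcases h with ⟨_, _, h⟩ | ⟨_, h, _⟩ | h
      · omega
      · omega
      · exact h.elim
  · rintro ⟨e, he, hinc, h⟩
    have hpos := G.pos e he
    unfold en at h
    split_ifs at h with h1
    · simp only [Prod.mk.injEq] at h
      obtain ⟨rfl, rfl⟩ := h
      exact ⟨by omega, Or.inl (Or.inl ⟨rfl, h1⟩)⟩
    · simp only [Prod.mk.injEq] at h
      obtain ⟨rfl, rfl⟩ := h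
      rcases hinc with h2 | h2
      · exact absurd h2 h1
      · exact ⟨by omega, Or.inl (Or.inr ⟨by omega, rfl, h2⟩)⟩

variable (G)

/-- previous vertex on a path -/
def prv (e : Cd) (i : ℕ) : VC := if i = 1 then (G.src e, 0) else (e, i - 1)

/-- next vertex on a path -/
def nxt (e : Cd) (i : ℕ) : VC := if i = G.len e then (G.dst e, 0) else (e, i + 1)

variable {G}

theorem prv_mem {e : Cd} {i : ℕ} (he : e ∈ G.E) (h1 : 1 ≤ i) (h2 : i ≤ G.len e) :
    G.prv e i ∈ G.V := by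
  unfold prv V
  split_ifs with h
  · rw [mem_tset]
    exact Or.inl ⟨rfl, G.src_mem e he⟩
  · rw [mem_tset]
    exact Or.inr ⟨by omega, by omega, he⟩

theorem nxt_mem {e : Cd} {i : ℕ} (he : e ∈ G.E) (h1 : 1 ≤ i) (h2 : i ≤ G.len e) :
    G.nxt e i ∈ G.V := by
  unfold nxt V
  split_ifs with h
  · rw [mem_tset]
    exact Or.inl ⟨rfl, G.dst_mem e he⟩
  · rw [mem_tset]
    exact Or.inr ⟨by omega, by omega, he⟩

theorem adj_inner {e : Cd} {i : ℕ} (h1 : 1 ≤ i) {w : VC} (hw : w ∈ G.V) :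
    Adj' G.A (e, i) w ↔ w = G.prv e i ∨ w = G.nxt e i := by
  obtain ⟨c, j⟩ := w
  unfold V at hw
  rw [mem_tset] at hw
  have hi0 : i ≠ 0 := by omega
  unfold Adj' A prv nxt
  rw [sA_iff, sA_iff]
  simp only [ne_eq, Prod.mk.injEq, hi0, not_false_iff, true_and, false_and, or_false]
  constructor
  · rintro ⟨_, ⟨rfl, rfl⟩ | ⟨rfl, h3, h4⟩ | ⟨rfl, h3, rfl⟩ | ⟨rfl, h3, rfl⟩⟩
    · right
      rw [if_neg (by omega)]
    · left
      rw [if_neg (by omega)]
      simp only [Prod.mk.injEq, true_and]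
      omega
    · left
      rw [if_pos h3]
    · right
      rw [if_pos h3]
  · rintro (h | h)
    · split_ifs at h with h2
      · simp only [Prod.mk.injEq] at h
        obtain ⟨rfl, rfl⟩ := h
        exact ⟨by omega, Or.inr (Or.inr (Or.inl ⟨rfl, h2, rfl⟩))⟩
      · simp only [Prod.mk.injEq] at h
        obtain ⟨rfl, rfl⟩ := h
        exact ⟨by omega, Or.inr (Or.inl ⟨rfl, by omega, by omega⟩)⟩
    · split_ifs at h with h2
      · simp only [Prod.mk.injEq] at h
        obtain ⟨rfl, rfl⟩ := h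
        exact ⟨by omega, Or.inr (Or.inr (Or.inr ⟨rfl, h2, rfl⟩))⟩
      · simp only [Prod.mk.injEq] at h
        obtain ⟨rfl, rfl⟩ := h
        exact ⟨by omega, Or.inl ⟨rfl, rfl⟩⟩

/-! ### Degrees -/

open Classical in
theorem deg_le_three (h3 : ∀ b ∈ G.B, ∃ e1 e2 e3, ∀ e ∈ G.E, G.inc e b → e = e1 ∨ e = e2 ∨ e = e3)
    (v : VC) (hv : v ∈ G.V) : (G.V.filter (Adj' G.A v)).card ≤ 3 := by
  obtain ⟨c, i⟩ := v
  have hv' := hv
  unfold V at hv'
  rw [mem_tset] at hv'
  rcases hv' with ⟨rfl, hc⟩ | ⟨h1, h2, hc⟩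
  · obtain ⟨e1, e2, e3, h⟩ := h3 c hc
    have hsub : G.V.filter (Adj' G.A (c, 0)) ⊆ {G.en c e1, G.en c e2, G.en c e3} := by
      intro w hw
      rw [Finset.mem_filter] at hw
      obtain ⟨e, he, hinc, rfl⟩ := (adj_branch hw.1).1 hw.2
      simp only [Finset.mem_insert, Finset.mem_singleton]
      rcases h e he hinc with rfl | rfl | rfl
      · exact Or.inl rfl
      · exact Or.inr (Or.inl rfl)
      · exact Or.inr (Or.inr rfl)
    exact (Finset.card_le_card hsub).trans Finset.card_le_three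
  · have hsub : G.V.filter (Adj' G.A (c, i)) ⊆ {G.prv c i, G.nxt c i} := by
      intro w hw
      rw [Finset.mem_filter] at hw
      simp only [Finset.mem_insert, Finset.mem_singleton]
      exact (adj_inner h1 hw.1).1 hw.2
    exact (Finset.card_le_card hsub).trans (Finset.card_le_two.trans (by omega))

theorem en_memV {b e : Cd} (he : e ∈ G.E) : G.en b e ∈ G.V := (en_mem he).2 he

open Classical in
theorem deg_ge_three {b e1 e2 e3 : Cd} (he1 : e1 ∈ G.E) (he2 : e2 ∈ G.E) (he3 : e3 ∈ G.E)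
    (h1 : G.inc e1 b) (h2 : G.inc e2 b) (h3 : G.inc e3 b) (h12 : e1 ≠ e2) (h13 : e1 ≠ e3)
    (h23 : e2 ≠ e3) : 3 ≤ (G.V.filter (Adj' G.A (b, 0))).card := by
  have hsub : {G.en b e1, G.en b e2, G.en b e3} ⊆ G.V.filter (Adj' G.A (b, 0)) := by
    intro w hw
    simp only [Finset.mem_insert, Finset.mem_singleton] at hw
    rw [Finset.mem_filter]
    rcases hw with rfl | rfl | rfl
    · exact ⟨en_memV he1, (adj_branch (en_memV he1)).2 ⟨e1, he1, h1, rfl⟩⟩
    · exact ⟨en_memV he2, (adj_branch (en_memV he2)).2 ⟨e2, he2, h2, rfl⟩⟩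
    · exact ⟨en_memV he3, (adj_branch (en_memV he3)).2 ⟨e3, he3, h3, rfl⟩⟩
  have hc : ({G.en b e1, G.en b e2, G.en b e3} : Finset VC).card = 3 := by
    rw [Finset.card_eq_three]
    exact ⟨_, _, _, fun h => h12 (G.en_inj h), fun h => h13 (G.en_inj h),
      fun h => h23 (G.en_inj h), rfl⟩
  rw [← hc]
  exact Finset.card_le_card hsub

/-! ### All or nothing -/

variable (G)

/-- closed along the inner vertices of the paths -/
def InnerCl (T : Finset VC) : Prop :=
  ∀ e ∈ G.E, ∀ i, 1 ≤ i → i ≤ G.len e → (e, i) ∈ T → G.prv e i ∈ T ∧ G.nxt e i ∈ T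

variable {G}

theorem all_of_one {T : Finset VC} (hT : G.InnerCl T) {e : Cd} (he : e ∈ G.E) {i : ℕ}
    (h1 : 1 ≤ i) (h2 : i ≤ G.len e) (hi : (e, i) ∈ T) :
    (∀ j, 1 ≤ j → j ≤ G.len e → (e, j) ∈ T) ∧ (G.src e, 0) ∈ T ∧ (G.dst e, 0) ∈ T := by
  have hdown : ∀ k, ∀ i, 1 ≤ i → i ≤ k → i ≤ G.len e → (e, i) ∈ T → (e, 1) ∈ T := by
    intro k
    induction k with
    | zero => intro i h1 h2; omega
    | succ k ih =>
      intro i h1 h2 h3 hi
      by_cases hi1 : i = 1
      · rw [hi1] at hi; exact hi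
      · have h4 := (hT e he i h1 h3 hi).1
        unfold prv at h4
        rw [if_neg hi1] at h4
        exact ih (i - 1) (by omega) (by omega) (by omega) h4
  have h1' := hdown i i h1 le_rfl h2 hi
  have hup : ∀ j, 1 ≤ j → j ≤ G.len e → (e, j) ∈ T := by
    intro j hj
    induction j, hj using Nat.le_induction with
    | base => intro _; exact h1'
    | succ j hj ih =>
      intro hj2
      have h4 := (hT e he j hj (by omega) (ih (by omega))).2
      unfold nxt at h4
      rw [if_neg (by omega)] at h4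
      exact h4
  refine ⟨hup, ?_, ?_⟩
  · have h4 := (hT e he 1 le_rfl (G.pos e he) h1').1
    unfold prv at h4
    rwa [if_pos rfl] at h4
  · have h4 := (hT e he (G.len e) (G.pos e he) le_rfl (hup _ (G.pos e he) le_rfl)).2
    unfold nxt at h4
    rwa [if_pos rfl] at h4

theorem eq_tset {T : Finset VC} (hTV : T ⊆ G.V) (hT : G.InnerCl T) :
    T = tset G.len (G.B.filter (fun b => (b, 0) ∈ T)) (G.E.filter (fun e => (e, 1) ∈ T)) := by
  ext ⟨c, i⟩
  rw [mem_tset, Finset.mem_filter, Finset.mem_filter]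
  constructor
  · intro h
    have h1 := hTV h
    unfold V at h1
    rw [mem_tset] at h1
    rcases h1 with ⟨rfl, h1⟩ | ⟨h1, h2, h3⟩
    · exact Or.inl ⟨rfl, h1, h⟩
    · exact Or.inr ⟨h1, h2, h3, (all_of_one hT h3 h1 h2 h).1 1 le_rfl (G.pos c h3)⟩
  · rintro (⟨rfl, _, h⟩ | ⟨h1, h2, h3, h4⟩)
    · exact h
    · exact (all_of_one hT h3 le_rfl (G.pos c h3) h4).1 i h1 h2

/-- connectedness of a part of the base graph, as an induction principle -/
def BConn (src dst : Cd → Cd) (U F : Finset Cd) : Prop :=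
  ∃ r ∈ U, ∀ P : Cd → Prop, P r → (∀ e ∈ F, P (src e) ↔ P (dst e)) → ∀ b ∈ U, P b

theorem hconn (hc : BConn G.src G.dst G.B G.E) : ∀ T' ⊆ G.V, T'.Nonempty →
    (∀ v ∈ T', ∀ w ∈ G.V, Adj' G.A v w → w ∈ T') → T' = G.V := by
  intro T hTV hne hcl
  have hin : G.InnerCl T := by
    intro e he i h1 h2 hi
    exact ⟨hcl _ hi _ (prv_mem he h1 h2) ((adj_inner h1 (prv_mem he h1 h2)).2 (Or.inl rfl)),
      hcl _ hi _ (nxt_mem he h1 h2) ((adj_inner h1 (nxt_mem he h1 h2)).2 (Or.inr rfl))⟩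
  have hbr : ∀ e ∈ G.E, ∀ b, G.inc e b → (b, 0) ∈ T →
      (∀ j, 1 ≤ j → j ≤ G.len e → (e, j) ∈ T) ∧ (G.src e, 0) ∈ T ∧ (G.dst e, 0) ∈ T := by
    intro e he b hinc hb
    have h1 := hcl _ hb _ (en_memV he) ((adj_branch (en_memV he)).2 ⟨e, he, hinc, rfl⟩)
    unfold en at h1
    split_ifs at h1
    · exact all_of_one hin he le_rfl (G.pos e he) h1
    · exact all_of_one hin he (G.pos e he) le_rfl h1
  obtain ⟨r, hr, hP⟩ := hc
  have key := hP (fun b => (b, 0) ∈ T ↔ (r, 0) ∈ T) Iff.rfl (by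
    intro e he
    have h1 : (G.src e, 0) ∈ T ↔ (G.dst e, 0) ∈ T :=
      ⟨fun h => (hbr e he _ (Or.inl rfl) h).2.2, fun h => (hbr e he _ (Or.inr rfl) h).2.1⟩
    show ((G.src e, 0) ∈ T ↔ (r, 0) ∈ T) ↔ ((G.dst e, 0) ∈ T ↔ (r, 0) ∈ T)
    rw [h1])
  have hrT : (r, 0) ∈ T := by
    obtain ⟨⟨c, i⟩, hv⟩ := hne
    have h1 := hTV hv
    unfold V at h1
    rw [mem_tset] at h1
    rcases h1 with ⟨rfl, h1⟩ | ⟨h1, h2, h3⟩
    · exact (key c h1).1 hv
    · exact (key _ (G.src_mem c h3)).1 (all_of_one hin h3 h1 h2 hv).2.1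
  refine Finset.Subset.antisymm hTV ?_
  rintro ⟨c, i⟩ hv
  unfold V at hv
  rw [mem_tset] at hv
  rcases hv with ⟨rfl, h1⟩ | ⟨h1, h2, h3⟩
  · exact (key c h1).2 hrT
  · exact (hbr c h3 _ (Or.inl rfl) ((key _ (G.src_mem c h3)).2 hrT)).1 i h1 h2

/-! ### From sets of vertices to parts of the base graph -/

variable (G)

/-- the conditions on a part `(U, F)` of the base graph obtained from a PDS -/
structure Part (U F : Finset Cd) : Prop where
  subU : U ⊆ G.B
  subF : F ⊆ G.E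
  ends : ∀ e ∈ F, G.src e ∈ U ∧ G.dst e ∈ U
  two : ∀ b ∈ U, ∀ e ∈ G.E, e ∉ F → G.inc e b →
    ∃ e1 ∈ F, ∃ e2 ∈ F, e1 ≠ e2 ∧ G.inc e1 b ∧ G.inc e2 b

variable {G}

open Classical in
theorem innerCl_of_cond {T : Finset VC} (hTV : T ⊆ G.V)
    (h : ∀ v ∈ T, 2 * ((G.V \ T).filter (Adj' G.A v)).card ≤ (T.filter (Adj' G.A v)).card) :
    G.InnerCl T := by
  have key : ∀ e ∈ G.E, ∀ i, 1 ≤ i → i ≤ G.len e → (e, i) ∈ T → ∀ x y : VC,
      (∀ w, w = G.prv e i ∨ w = G.nxt e i ↔ w = x ∨ w = y) → x ∈ G.V → x ∈ T := by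
    intro e he i h1 h2 hi x y hxy hx
    by_contra hxT
    have g1 : 1 ≤ ((G.V \ T).filter (Adj' G.A (e, i))).card := by
      rw [Nat.one_le_iff_ne_zero, ← Nat.pos_iff_ne_zero, Finset.card_pos]
      exact ⟨x, Finset.mem_filter.2 ⟨Finset.mem_sdiff.2 ⟨hx, hxT⟩,
        (adj_inner h1 hx).2 ((hxy x).2 (Or.inl rfl))⟩⟩
    have g2 : (T.filter (Adj' G.A (e, i))).card ≤ 1 := by
      rw [Finset.card_le_one]
      intro a ha b hb
      rw [Finset.mem_filter] at ha hb
      have ha' := (hxy a).1 ((adj_inner h1 (hTV ha.1)).1 ha.2)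
      have hb' := (hxy b).1 ((adj_inner h1 (hTV hb.1)).1 hb.2)
      rcases ha' with rfl | rfl
      · exact absurd ha.1 hxT
      · rcases hb' with rfl | rfl
        · exact absurd hb.1 hxT
        · rfl
    have := h _ hi
    omega
  intro e he i h1 h2 hi
  refine ⟨key e he i h1 h2 hi (G.prv e i) (G.nxt e i) (fun _ => Iff.rfl) (prv_mem he h1 h2),
    key e he i h1 h2 hi (G.nxt e i) (G.prv e i) (fun _ => or_comm) (nxt_mem he h1 h2)⟩

open Classical in
theorem part_of_cond {T : Finset VC} (hTV : T ⊆ G.V)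
    (h : ∀ v ∈ T, 2 * ((G.V \ T).filter (Adj' G.A v)).card ≤ (T.filter (Adj' G.A v)).card) :
    ∃ U F, G.Part U F ∧ T.card = U.card + ∑ e ∈ F, G.len e := by
  have hin := innerCl_of_cond hTV h
  refine ⟨G.B.filter (fun b => (b, 0) ∈ T), G.E.filter (fun e => (e, 1) ∈ T), ?_, ?_⟩
  · refine ⟨Finset.filter_subset _ _, Finset.filter_subset _ _, ?_, ?_⟩
    · intro e he
      rw [Finset.mem_filter] at he
      obtain ⟨_, h1, h2⟩ := all_of_one hin he.1 le_rfl (G.pos e he.1) he.2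
      exact ⟨Finset.mem_filter.2 ⟨G.src_mem e he.1, h1⟩, Finset.mem_filter.2 ⟨G.dst_mem e he.1, h2⟩⟩
    · intro b hb e he heF hinc
      rw [Finset.mem_filter] at hb heF
      have heT : ∀ c : Cd, c ∈ G.E → (G.en b c ∈ T ↔ (c, 1) ∈ T) := by
        intro c hc
        have h0 := eq_tset hTV hin
        constructor
        · intro h1
          rw [h0, en_mem hc, Finset.mem_filter] at h1
          exact h1.2
        · intro h1
          rw [h0, en_mem hc, Finset.mem_filter]
          exact ⟨hc, h1⟩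
      have g1 : 1 ≤ ((G.V \ T).filter (Adj' G.A (b, 0))).card := by
        rw [Nat.one_le_iff_ne_zero, ← Nat.pos_iff_ne_zero, Finset.card_pos]
        refine ⟨G.en b e, Finset.mem_filter.2 ⟨Finset.mem_sdiff.2 ⟨en_memV he, ?_⟩,
          (adj_branch (en_memV he)).2 ⟨e, he, hinc, rfl⟩⟩⟩
        rw [heT e he]
        exact fun h1 => heF ⟨he, h1⟩
      have g2 : 1 < (T.filter (Adj' G.A (b, 0))).card := by
        have := h _ hb.2
        omega
      obtain ⟨w1, hw1, w2, hw2, hne⟩ := Finset.one_lt_card.1 g2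
      rw [Finset.mem_filter] at hw1 hw2
      obtain ⟨e1, he1, hi1, rfl⟩ := (adj_branch (hTV hw1.1)).1 hw1.2
      obtain ⟨e2, he2, hi2, rfl⟩ := (adj_branch (hTV hw2.1)).1 hw2.2
      refine ⟨e1, Finset.mem_filter.2 ⟨he1, (heT e1 he1).1 hw1.1⟩,
        e2, Finset.mem_filter.2 ⟨he2, (heT e2 he2).1 hw2.1⟩, ?_, hi1, hi2⟩
      rintro rfl
      exact hne rfl
  · conv_lhs => rw [eq_tset hTV hin]
    exact card_tset _ _ _

/-! ### From parts of the base graph to sets of vertices -/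

variable (G)

/-- the conditions on a part `(U, F)` of the base graph needed for a connected PDS -/
structure Good (U F : Finset Cd) : Prop where
  subU : U ⊆ G.B
  subF : F ⊆ G.E
  ends : ∀ e ∈ F, G.src e ∈ U ∧ G.dst e ∈ U
  two : ∀ b ∈ U, (∀ e ∈ G.E, G.inc e b → e ∈ F) ∨
    ∃ e0, ∃ e1 ∈ F, ∃ e2 ∈ F, e1 ≠ e2 ∧ G.inc e1 b ∧ G.inc e2 b ∧
      ∀ e ∈ G.E, G.inc e b → e ∈ F ∨ e = e0
  conn : BConn G.src G.dst U F

variable {G}

theorem tset_subset {U F : Finset Cd} (h : G.Good U F) : tset G.len U F ⊆ G.V := by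
  rintro ⟨c, i⟩ hv
  unfold V
  rw [mem_tset] at hv ⊢
  rcases hv with ⟨rfl, h1⟩ | ⟨h1, h2, h3⟩
  · exact Or.inl ⟨rfl, h.subU h1⟩
  · exact Or.inr ⟨h1, h2, h.subF h3⟩

open Classical in
theorem cond_of_good {U F : Finset Cd} (h : G.Good U F) :
    ∀ v ∈ tset G.len U F, 2 * ((G.V \ tset G.len U F).filter (Adj' G.A v)).card ≤
      ((tset G.len U F).filter (Adj' G.A v)).card := by
  have hsub := tset_subset h
  rintro ⟨c, i⟩ hv
  have hv' := hv
  rw [mem_tset] at hv'
  have hzero : (∀ w ∈ G.V, Adj' G.A (c, i) w → w ∈ tset G.len U F) →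
      2 * ((G.V \ tset G.len U F).filter (Adj' G.A (c, i))).card ≤
      ((tset G.len U F).filter (Adj' G.A (c, i))).card := by
    intro h1
    have h2 : (G.V \ tset G.len U F).filter (Adj' G.A (c, i)) = ∅ := by
      rw [Finset.filter_eq_empty_iff]
      intro w hw hcw
      rw [Finset.mem_sdiff] at hw
      exact hw.2 (h1 w hw.1 hcw)
    rw [h2, Finset.card_empty]
    omega
  rcases hv' with ⟨rfl, hc⟩ | ⟨h1, h2, hc⟩
  · rcases h.two c hc with h1 | ⟨e0, e1, he1, e2, he2, hne, hi1, hi2, h3⟩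
    · refine hzero fun w hw hcw => ?_
      obtain ⟨e, he, hinc, rfl⟩ := (adj_branch hw).1 hcw
      exact (en_mem he).2 (h1 e he hinc)
    · have g1 : ((G.V \ tset G.len U F).filter (Adj' G.A (c, 0))).card ≤ 1 := by
        rw [Finset.card_le_one]
        have key : ∀ a ∈ (G.V \ tset G.len U F).filter (Adj' G.A (c, 0)), a = G.en c e0 := by
          intro a ha
          rw [Finset.mem_filter, Finset.mem_sdiff] at ha
          obtain ⟨e, he, hinc, rfl⟩ := (adj_branch ha.1.1).1 ha.2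
          rcases h3 e he hinc with h4 | rfl
          · exact absurd ((en_mem he).2 h4) ha.1.2
          · rfl
        intro a ha b hb
        rw [key a ha, key b hb]
      have g2 : 1 < ((tset G.len U F).filter (Adj' G.A (c, 0))).card := by
        rw [Finset.one_lt_card]
        have m1 := h.subF he1
        have m2 := h.subF he2
        refine ⟨G.en c e1, Finset.mem_filter.2 ⟨(en_mem m1).2 he1,
          (adj_branch (en_memV m1)).2 ⟨e1, m1, hi1, rfl⟩⟩, G.en c e2,
          Finset.mem_filter.2 ⟨(en_mem m2).2 he2,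
          (adj_branch (en_memV m2)).2 ⟨e2, m2, hi2, rfl⟩⟩, fun h4 => hne (G.en_inj h4)⟩
      omega
  · refine hzero fun w hw hcw => ?_
    have hE := h.subF hc
    rcases (adj_inner h1 hw).1 hcw with rfl | rfl
    · unfold prv
      split_ifs with h4
      · rw [mem_tset]; exact Or.inl ⟨rfl, (h.ends c hc).1⟩
      · rw [mem_tset]; exact Or.inr ⟨by omega, by omega, hc⟩
    · unfold nxt
      split_ifs with h4
      · rw [mem_tset]; exact Or.inl ⟨rfl, (h.ends c hc).2⟩
      · rw [mem_tset]; exact Or.inr ⟨by omega, by omega, hc⟩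

theorem rconn_of_good {U F : Finset Cd} (h : G.Good U F) : RConn G.A (tset G.len U F) := by
  obtain ⟨r, hr, hP⟩ := h.conn
  refine ⟨(r, 0), mem_tset.2 (Or.inl ⟨rfl, hr⟩), ?_⟩
  intro P hPr hstep
  have hsub := tset_subset h
  have hT : ∀ e ∈ F, ∀ i, 1 ≤ i → i ≤ G.len e → ((e, i) : VC) ∈ tset G.len U F :=
    fun e he i h1 h2 => mem_tset.2 (Or.inr ⟨h1, h2, he⟩)
  have hS : ∀ e ∈ F, ((G.src e, 0) : VC) ∈ tset G.len U F :=
    fun e he => mem_tset.2 (Or.inl ⟨rfl, (h.ends e he).1⟩)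
  have hD : ∀ e ∈ F, ((G.dst e, 0) : VC) ∈ tset G.len U F :=
    fun e he => mem_tset.2 (Or.inl ⟨rfl, (h.ends e he).2⟩)
  -- adjacency along a path
  have a1 : ∀ e ∈ F, Adj' G.A (e, 1) (G.src e, 0) := fun e he => by
    rw [adj_inner le_rfl (hsub (hS e he))]
    left
    unfold prv
    rw [if_pos rfl]
  have a2 : ∀ e ∈ F, ∀ i, 1 ≤ i → i + 1 ≤ G.len e → Adj' G.A (e, i) (e, i + 1) :=
    fun e he i h1 h2 => by
    rw [adj_inner h1 (hsub (hT e he (i + 1) (by omega) h2))]
    right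
    unfold nxt
    rw [if_neg (by omega)]
  have a3 : ∀ e ∈ F, Adj' G.A (e, G.len e) (G.dst e, 0) := fun e he => by
    rw [adj_inner (G.pos e (h.subF he)) (hsub (hD e he))]
    right
    unfold nxt
    rw [if_pos rfl]
  have up : ∀ e ∈ F, P (e, 1) → ∀ j, 1 ≤ j → j ≤ G.len e → P (e, j) := by
    intro e he h1 j hj
    induction j, hj using Nat.le_induction with
    | base => intro _; exact h1
    | succ j hj ih =>
      intro hj2
      exact hstep _ _ (hT e he j hj (by omega)) (hT e he (j + 1) (by omega) hj2)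
        (a2 e he j hj hj2) (ih (by omega))
  have down : ∀ e ∈ F, P (e, G.len e) → ∀ k, ∀ j, 1 ≤ j → j + k = G.len e → P (e, j) := by
    intro e he h1 k
    induction k with
    | zero => intro j hj hj2; rw [← hj2] at h1; exact h1
    | succ k ih =>
      intro j hj hj2
      exact hstep _ _ (hT e he (j + 1) (by omega) (by omega)) (hT e he j hj (by omega))
        (a2 e he j hj (by omega)).symm (ih (j + 1) (by omega) (by omega))
  have key := hP (fun b => P (b, 0)) hPr (by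
    intro e he
    have hpos := G.pos e (h.subF he)
    constructor
    · intro h1
      have h2 := hstep _ _ (hS e he) (hT e he 1 le_rfl hpos) (a1 e he).symm h1
      exact hstep _ _ (hT e he _ hpos le_rfl) (hD e he) (a3 e he) (up e he h2 _ hpos le_rfl)
    · intro h1
      have h2 := hstep _ _ (hD e he) (hT e he _ hpos le_rfl) (a3 e he).symm h1
      exact hstep _ _ (hT e he 1 le_rfl hpos) (hS e he) (a1 e he)
        (down e he h2 (G.len e - 1) 1 le_rfl (by omega)))
  rintro ⟨c, i⟩ hv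
  rw [mem_tset] at hv
  rcases hv with ⟨rfl, h1⟩ | ⟨h1, h2, h3⟩
  · exact key c h1
  · have hpos := G.pos c (h.subF h3)
    exact up c h3 (hstep _ _ (hS c h3) (hT c h3 1 le_rfl hpos) (a1 c h3).symm
      (key _ (h.ends c h3).1)) i h1 h2

open Classical in
/-- **PDS of subdivisions.** -/
theorem sub_iff (L : List VC) (hL : L.Nodup) (hLV : L.toFinset = G.V) {g : ℕ} (hg : 1 ≤ g)
    (hn : G.B.card + ∑ e ∈ G.E, G.len e = 3 * g + 1)
    (h3 : ∀ b ∈ G.B, ∃ e1 e2 e3, ∀ e ∈ G.E, G.inc e b → e = e1 ∨ e = e2 ∨ e = e3)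
    (hc : BConn G.src G.dst G.B G.E) {P : Prop}
    (h1 : ∀ U F, G.Part U F → U.card + ∑ e ∈ F, G.len e = 2 * g + 1 → P)
    (h2 : P → ∃ U F, G.Good U F ∧ U.card + ∑ e ∈ F, G.len e = 2 * g + 1) :
    (P ↔ MaxPDS (⟨L.length, cgraph L G.A⟩, 2 * g + 1)) ∧
      (P ↔ MaxConnPDS (⟨L.length, cgraph L G.A⟩, 2 * g + 1)) := by
  have hV : G.V.card = 3 * g + 1 := by
    unfold V
    rw [card_tset, hn]
  refine both_iff L hL G.A _ ?_ ?_
  · rintro ⟨T, hT, hk⟩
    rw [hLV] at hT
    obtain ⟨h4, h5⟩ := rpds_exact (deg_le_three h3) hV (hconn hc) hT hk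
    obtain ⟨U, F, h6, h7⟩ := part_of_cond hT.1 h5
    exact h1 U F h6 (h7 ▸ h4)
  · intro hP
    obtain ⟨U, F, h4, h5⟩ := h2 hP
    have h6 : (tset G.len U F).card = 2 * g + 1 := by rw [card_tset, h5]
    refine ⟨tset G.len U F, ?_, rconn_of_good h4, h6.ge⟩
    rw [hLV]
    exact rpds_of_exact hg (tset_subset h4) hV h6 (cond_of_good h4)

end Base

end Pool.Agent.H640.PDS
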